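import Pool.Agent.H73.Lp.Defs
import Pool.Agent.H91.Sym.P1
import Pool.Agent.H29.Sym.C
import Pool.Agent.H29.Sym.S

/-!
# Module HMG: the matrix harmonic mean bound
-/

set_option autoImplicit false

open MeasureTheory Set
open scoped ContDiff

namespace Pool.Agent.H73.Lp

open Pool.Agent.H84 Pool.Agent.H84.Sym Pool.Agent.H84.Sym.C29 Pool.Agent.H84.Sym.S29

universe u
variable {E : Type u} [NormedAddCommGroup E] [InnerProductSpace ℝ E]
    [FiniteDimensional ℝ E] [MeasurableSpace E] [BorelSpace E]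
variable {ι : Type*} [Fintype ι] {v : ι → E}
variable {κ : Type*} [Fintype κ]

omit [FiniteDimensional ℝ E] [MeasurableSpace E] [BorelSpace E] in
theorem quad_expand (b : OrthonormalBasis κ ℝ E) (ℓ : E →L[ℝ] ℝ) (B : E →L[ℝ] E →L[ℝ] ℝ) :
    ∑ i, ∑ j, B (b i) (b j) * ℓ (b i) * ℓ (b j) =
      B (∑ i, ℓ (b i) • b i) (∑ i, ℓ (b i) • b i) := by
  rw [Finset.sum_comm]
  simp only [map_sum, map_smul, sum_apply, smul_apply, smul_eq_mul, Finset.mul_sum]
  refine Finset.sum_congr rfl fun i _ => ?_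
  refine Finset.sum_congr rfl fun j _ => ?_
  ring

omit [FiniteDimensional ℝ E] [MeasurableSpace E] [BorelSpace E] in
theorem inner_grad (b : OrthonormalBasis κ ℝ E) (ℓ : E →L[ℝ] ℝ) (w : E) :
    inner ℝ w (∑ i, ℓ (b i) • b i) = ℓ w := by
  rw [inner_sum]
  simp only [real_inner_smul_right]
  conv_rhs => rw [← b.sum_repr' w]
  simp only [map_sum, map_smul, smul_eq_mul]
  refine Finset.sum_congr rfl fun i _ => ?_
  rw [real_inner_comm, mul_comm]

/-- The upper bound of the Hessian energy of a near-minimiser. -/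
theorem hess_upper (b : OrthonormalBasis κ ℝ E) {U u : E → ℝ} {t C lam δ s : ℝ} (hU : Pot U t C)
    [IsProbabilityMeasure (mu U)] (hlam : 0 < lam) (hpc : GPC (mu U) (1 / lam)) (hu : Tst u)
    (hs : 0 < s)
    (hnear : ∫ x, (LO b U u x + lam * (u x - ∫ y, u y ∂(mu U))) ^ 2 ∂(mu U)
        ≤ δ * ∫ x, ‖fderiv ℝ u x‖ ^ 2 ∂(mu U)) :
    ∫ x, (∑ i, ∑ j, D (b i) (D (b j) U) x * D (b i) u x * D (b j) u x) ∂(mu U) ≤
      lam * ‖∑ i, (∫ x, D (b i) u x ∂(mu U)) • b i‖ ^ 2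
        + (s * lam + (1 + 1 / s) * δ) * ∫ x, ‖fderiv ℝ u x‖ ^ 2 ∂(mu U) := by
  have hM : (mu U).real univ = 1 := by simp
  have hU1 : ContDiff ℝ 1 U := hU.smooth.of_le (by norm_num)
  have hu1 : ContDiff ℝ 1 u := hu.1.of_le (by exact_mod_cast (le_top : (1 : ℕ∞) ≤ ⊤))
  have hL := LO_BC b hU1 hu
  have hφ : BC (fun x => u x - ∫ y, u y ∂(mu U)) := (tst_BC hu).sub (BC.const _)
  -- Poincare for u
  have h2 := rel2 hU hu1 hu.2 (∫ y, u y ∂(mu U)) (by rw [hM, mul_one])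
  have h3 := hpc u hu1 hu.2
  rw [h2, hM, one_mul, one_mul] at h3
  -- Poincare for the derivatives of u
  have hbo := bochner_full b hU.smooth (by simpa using contDiff_infty.mp hu.1 3) hu.2
  have hgr : ∀ i, BC (fun x => ‖fderiv ℝ (D (b i) u) x‖ ^ 2) := fun i =>
    grad_BC ((tst_D hu (b i)).1.of_le (by exact_mod_cast (le_top : (1 : ℕ∞) ≤ ⊤)))
      (tst_D hu (b i)).2
  rw [integral_finsetSum _ (fun i _ => (hgr i).integrable (mu U))] at hbo
  have hpi : ∀ i, lam * ((∫ x, D (b i) u x ^ 2 ∂(mu U)) - (∫ x, D (b i) u x ∂(mu U)) ^ 2) ≤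
      ∫ x, ‖fderiv ℝ (D (b i) u) x‖ ^ 2 ∂(mu U) := by
    intro i
    have := hpc (D (b i) u)
      ((tst_D hu (b i)).1.of_le (by exact_mod_cast (le_top : (1 : ℕ∞) ≤ ⊤))) (tst_D hu (b i)).2
    rw [hM, one_mul, one_mul] at this
    calc _ ≤ lam * (1 / lam * ∫ x, ‖fderiv ℝ (D (b i) u) x‖ ^ 2 ∂(mu U)) :=
          mul_le_mul_of_nonneg_left this hlam.le
      _ = _ := by field_simp
  have hsum := Finset.sum_le_sum fun i (_ : i ∈ Finset.univ) => hpi i
  rw [← Finset.mul_sum, Finset.sum_sub_distrib] at hsum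
  have hI : ∑ i, ∫ x, D (b i) u x ^ 2 ∂(mu U) = ∫ x, ‖fderiv ℝ u x‖ ^ 2 ∂(mu U) := by
    rw [← integral_finsetSum _ (fun i _ => ((D_BC hu1 hu.2 (b i)).sq).integrable (mu U))]
    simp only [norm_fderiv_sq b u]
  rw [hI] at hsum
  rw [normsq_expand b]
  -- upper bound of J
  have hJ : ∫ x, (LO b U u x) ^ 2 ∂(mu U) ≤
      (1 + 1 / s) * (∫ x, (LO b U u x + lam * (u x - ∫ y, u y ∂(mu U))) ^ 2 ∂(mu U))
      + (1 + s) * lam ^ 2 * ∫ x, (u x - ∫ y, u y ∂(mu U)) ^ 2 ∂(mu U) := by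
    have i1 := ((hL.add ((BC.const lam).mul hφ)).sq).integrable (mu U)
    have i2 := (hφ.sq).integrable (mu U)
    rw [← integral_const_mul, ← integral_const_mul,
      ← integral_add (i1.const_mul _) (i2.const_mul _)]
    refine integral_mono (hL.sq.integrable (mu U)) ((i1.const_mul _).add (i2.const_mul _))
      fun x => ?_
    simp only
    set r := LO b U u x + lam * (u x - ∫ y, u y ∂(mu U)) with hr
    set φ := u x - ∫ y, u y ∂(mu U) with hφdef
    have e1 : LO b U u x = r - lam * φ := by rw [hr]; ring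
    rw [e1]
    have e2 : 0 ≤ (r + s * (lam * φ)) ^ 2 / s := by positivity
    have e3 : (r + s * (lam * φ)) ^ 2 / s = 1 / s * r ^ 2 + 2 * (lam * r * φ)
        + s * lam ^ 2 * φ ^ 2 := by
      field_simp
      ring
    nlinarith
  set I := ∫ x, ‖fderiv ℝ u x‖ ^ 2 ∂(mu U) with hIdef
  have hI0 : 0 ≤ I := integral_nonneg fun x => sq_nonneg _
  have hW : (1 + s) * lam ^ 2 * ∫ x, (u x - ∫ y, u y ∂(mu U)) ^ 2 ∂(mu U) ≤
      (1 + s) * lam * I := by
    calc _ ≤ (1 + s) * lam ^ 2 * (1 / lam * I) := mul_le_mul_of_nonneg_left h3 (by positivity)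
      _ = _ := by field_simp
  have hr : (1 + 1 / s) * (∫ x, (LO b U u x + lam * (u x - ∫ y, u y ∂(mu U))) ^ 2 ∂(mu U)) ≤
      (1 + 1 / s) * (δ * I) := mul_le_mul_of_nonneg_left hnear (by positivity)
  nlinarith

/-- Cauchy-Schwarz. -/
theorem cs_weight {U f c : E → ℝ} {t C : ℝ} (hU : Pot U t C) (hf : Continuous f)
    (hfc : HasCompactSupport f) (hc : Continuous c) (hc0 : ∀ x, 0 < c x)
    (hcg : Gr (fun x => (c x)⁻¹)) {β : ℝ} (hβ0 : 0 ≤ β)
    (hβ : β * ∫ x, (c x)⁻¹ ∂(mu U) ≤ 1) :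
    β * (∫ x, f x ∂(mu U)) ^ 2 ≤ ∫ x, c x * f x ^ 2 ∂(mu U) := by
  have hci : Continuous (fun x => (c x)⁻¹) := hc.inv₀ fun x => (hc0 x).ne'
  obtain ⟨A, B, hAB⟩ := hcg
  have i1 : Integrable (fun x => (c x)⁻¹) (mu U) := integrable_exp_growth hU hci hAB
  have i2 : Integrable f (mu U) := integrable_mu hU.smooth.continuous hf hfc
  have i3 : Integrable (fun x => c x * f x ^ 2) (mu U) := by
    refine integrable_mu hU.smooth.continuous (hc.mul (hf.pow 2)) ?_
    have h1 : HasCompactSupport (fun x => f x ^ 2) := hfc.comp_left (g := fun y => y ^ 2) (by simp)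
    exact h1.mul_left
  have hQ : ∀ r : ℝ, 0 ≤ (∫ x, (c x)⁻¹ ∂(mu U)) * (r * r) + (-2 * ∫ x, f x ∂(mu U)) * r
      + ∫ x, c x * f x ^ 2 ∂(mu U) := by
    intro r
    have h0 : 0 ≤ ∫ x, (c x)⁻¹ * (r - c x * f x) ^ 2 ∂(mu U) :=
      integral_nonneg fun x => mul_nonneg (inv_pos.2 (hc0 x)).le (sq_nonneg _)
    have h1 : ∫ x, (c x)⁻¹ * (r - c x * f x) ^ 2 ∂(mu U) =
        ∫ x, ((r * r) * (c x)⁻¹ - (2 * r) * f x) + c x * f x ^ 2 ∂(mu U) := by
      congr 1
      funext x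
      have := (hc0 x).ne'
      field_simp
      ring
    have i12 : Integrable (fun x => (r * r) * (c x)⁻¹ - (2 * r) * f x) (mu U) :=
      (i1.const_mul _).sub (i2.const_mul _)
    rw [h1, integral_add i12 i3, integral_sub (i1.const_mul _) (i2.const_mul _),
      integral_const_mul, integral_const_mul] at h0
    linarith
  have hd := discrim_le_zero hQ
  rw [discrim] at hd
  have h4 : (∫ x, f x ∂(mu U)) ^ 2 ≤
      (∫ x, (c x)⁻¹ ∂(mu U)) * ∫ x, c x * f x ^ 2 ∂(mu U) := by nlinarith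
  have h5 : 0 ≤ ∫ x, c x * f x ^ 2 ∂(mu U) :=
    integral_nonneg fun x => mul_nonneg (hc0 x).le (sq_nonneg _)
  calc β * (∫ x, f x ∂(mu U)) ^ 2
      ≤ β * ((∫ x, (c x)⁻¹ ∂(mu U)) * ∫ x, c x * f x ^ 2 ∂(mu U)) :=
        mul_le_mul_of_nonneg_left h4 hβ0
    _ = (β * ∫ x, (c x)⁻¹ ∂(mu U)) * ∫ x, c x * f x ^ 2 ∂(mu U) := by ring
    _ ≤ 1 * ∫ x, c x * f x ^ 2 ∂(mu U) := mul_le_mul_of_nonneg_right hβ h5
    _ = _ := one_mul _

omit [FiniteDimensional ℝ E] [BorelSpace E] in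
theorem gpc_mono {μ : Measure E} {L L' : ℝ} (h : GPC μ L) (hle : L ≤ L') : GPC μ L' := by
  intro f hf hc
  refine (h f hf hc).trans (mul_le_mul_of_nonneg_right hle ?_)
  exact mul_nonneg measureReal_nonneg (integral_nonneg fun x => sq_nonneg _)

theorem hm_gap [Nontrivial E] {U : E → ℝ} {t C : ℝ} (hU : Pot U t C)
    [IsProbabilityMeasure (mu U)] {c : ι → E → ℝ} (hc : ∀ j, Continuous (c j))
    (hc0 : ∀ j x, 0 < c j x) (hcg : ∀ j, Gr (fun x => (c j x)⁻¹))
    (hH : ∀ x w, ∑ j, c j x * (inner ℝ (v j) w) ^ 2 ≤ fderiv ℝ (fderiv ℝ U) x w w)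
    {β : ι → ℝ} (hβ0 : ∀ j, 0 ≤ β j) (hβ : ∀ j, β j * ∫ x, (c j x)⁻¹ ∂(mu U) ≤ 1)
    {L : ℝ} (hL : 0 < L) (hA : ∀ w, ‖w‖ ^ 2 ≤ L * ∑ j, β j * (inner ℝ (v j) w) ^ 2) :
    GPC (mu U) L := by
  let b := stdOrthonormalBasis ℝ E
  obtain ⟨lam, hlam, hpc, hnear⟩ := near_eig b hU
  have ht := hU.pos
  suffices hle : 1 / L ≤ lam by
    refine gpc_mono hpc ?_
    rw [div_le_iff₀ hlam]
    rw [div_le_iff₀ hL] at hle
    linarith
  by_contra hlt
  push Not at hlt
  set g := 1 / L - lam with hg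
  have hg0 : 0 < g := by rw [hg]; linarith
  -- choose the parameters
  set s : ℝ := min (t / (8 * lam)) (t * g / (8 * lam ^ 2)) with hs
  have hs0 : 0 < s := lt_min (by positivity) (by positivity)
  set η : ℝ := min (t / 4) (t * g / (4 * lam)) with hη
  have hη0 : 0 < η := lt_min (by positivity) (by positivity)
  have hη1 : 2 * (s * lam) ≤ η := by
    rw [hη]
    refine le_min ?_ ?_
    · calc 2 * (s * lam) ≤ 2 * (t / (8 * lam) * lam) := by
            gcongr; exact min_le_left _ _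
        _ = t / 4 := by field_simp; ring
    · calc 2 * (s * lam) ≤ 2 * (t * g / (8 * lam ^ 2) * lam) := by
            gcongr; exact min_le_right _ _
        _ = t * g / (4 * lam) := by field_simp; ring
  set δ : ℝ := η / (2 * (1 + 1 / s)) with hδ
  have hδ0 : 0 < δ := by positivity
  obtain ⟨u, hu, hI, hn⟩ := hnear δ hδ0
  have hup := hess_upper b hU hlam hpc hu hs0 hn
  set I := ∫ x, ‖fderiv ℝ u x‖ ^ 2 ∂(mu U) with hIdef
  set P := ∑ i, (∫ x, D (b i) u x ∂(mu U)) • b i with hP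
  set Q := ∫ x, (∑ i, ∑ j, D (b i) (D (b j) U) x * D (b i) u x * D (b j) u x) ∂(mu U) with hQ
  have hcoef : s * lam + (1 + 1 / s) * δ ≤ η := by
    have : (1 + 1 / s) * δ = η / 2 := by
      rw [hδ]
      have : (1 + 1 / s) ≠ 0 := by positivity
      field_simp
    linarith
  have hup' : Q ≤ lam * ‖P‖ ^ 2 + η * I := by
    refine hup.trans ?_
    gcongr
  have hU1 : ContDiff ℝ 1 U := hU.smooth.of_le (by norm_num)
  have hu1 : ContDiff ℝ 1 u := hu.1.of_le (by exact_mod_cast (le_top : (1 : ℕ∞) ≤ ⊤))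
  have hpt : ∀ x, (∑ i, ∑ j, D (b i) (D (b j) U) x * D (b i) u x * D (b j) u x) =
      fderiv ℝ (fderiv ℝ U) x (∑ i, fderiv ℝ u x (b i) • b i)
        (∑ i, fderiv ℝ u x (b i) • b i) := by
    intro x
    rw [← quad_expand b (fderiv ℝ u x) (fderiv ℝ (fderiv ℝ U) x)]
    refine Finset.sum_congr rfl fun i _ => Finset.sum_congr rfl fun j _ => ?_
    rw [D_D hU.smooth]
    rfl
  have hQc : Continuous fun x =>
      (∑ i, ∑ j, D (b i) (D (b j) U) x * D (b i) u x * D (b j) u x) := by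
    refine continuous_finsetSum _ fun i _ => continuous_finsetSum _ fun j _ => ?_
    refine Continuous.mul (Continuous.mul ?_ ?_) ?_
    · exact D_cont (contDiff_D hU.smooth (by norm_num) (b j)) (b i)
    · exact D_cont hu1 (b i)
    · exact D_cont hu1 (b j)
  have hD0 : ∀ x, x ∉ tsupport u → ∀ e, D e u x = 0 := by
    intro x hx e
    have : fderiv ℝ u x = 0 := by
      by_contra h
      exact hx (support_fderiv_subset ℝ h)
    simp [D, this]
  have hQs : HasCompactSupport fun x =>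
      (∑ i, ∑ j, D (b i) (D (b j) U) x * D (b i) u x * D (b j) u x) := by
    refine HasCompactSupport.intro hu.2 fun x hx => ?_
    show (∑ i, ∑ j, D (b i) (D (b j) U) x * D (b i) u x * D (b j) u x) = 0
    refine Finset.sum_eq_zero fun i _ => Finset.sum_eq_zero fun j _ => ?_
    rw [hD0 x hx]
    ring
  have hQi : Integrable (fun x =>
      (∑ i, ∑ j, D (b i) (D (b j) U) x * D (b i) u x * D (b j) u x)) (mu U) :=
    integrable_mu hU.smooth.continuous hQc hQs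
  -- first lower bound
  have hIi : Integrable (fun x => ‖fderiv ℝ u x‖ ^ 2) (mu U) := (grad_BC hu1 hu.2).integrable _
  have hlow1 : t * I ≤ Q := by
    rw [hIdef, ← integral_const_mul]
    refine integral_mono (hIi.const_mul t) hQi fun x => ?_
    have := expand_b b (fderiv ℝ u x) (fderiv ℝ (fderiv ℝ U) x) (hU.hess x)
    refine this.trans (le_of_eq ?_)
    refine Finset.sum_congr rfl fun i _ => Finset.sum_congr rfl fun j _ => ?_
    rw [D_D hU.smooth]
    rfl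
  -- second lower bound
  have hji : ∀ j, Integrable (fun x => c j x * D (v j) u x ^ 2) (mu U) := by
    intro j
    refine integrable_mu hU.smooth.continuous ((hc j).mul ((D_cont hu1 (v j)).pow 2)) ?_
    refine HasCompactSupport.intro hu.2 fun x hx => ?_
    show c j x * D (v j) u x ^ 2 = 0
    rw [hD0 x hx]
    ring
  have hlow2 : ∑ j, β j * (inner ℝ (v j) P) ^ 2 ≤ Q := by
    have h1 : ∑ j, ∫ x, c j x * D (v j) u x ^ 2 ∂(mu U) ≤ Q := by
      rw [← integral_finsetSum _ (fun j _ => hji j)]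
      refine integral_mono (integrable_finsetSum _ fun j _ => hji j) hQi fun x => ?_
      simp only
      rw [hpt x]
      refine le_trans (le_of_eq ?_) (hH x _)
      refine Finset.sum_congr rfl fun j _ => ?_
      rw [inner_grad]
      rfl
    refine le_trans (Finset.sum_le_sum fun j _ => ?_) h1
    have h2 := cs_weight hU (D_cont hu1 (v j)) (D_supp hu.2 (v j)) (hc j) (hc0 j) (hcg j)
      (hβ0 j) (hβ j)
    rw [mean_grad b hu (v j), real_inner_comm] at h2
    exact h2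
  have hlow3 : ‖P‖ ^ 2 / L ≤ Q := by
    rw [div_le_iff₀ hL]
    calc ‖P‖ ^ 2 ≤ L * ∑ j, β j * (inner ℝ (v j) P) ^ 2 := hA P
      _ ≤ L * Q := mul_le_mul_of_nonneg_left hlow2 hL.le
      _ = Q * L := mul_comm _ _
  -- conclusion
  have e1 : g * ‖P‖ ^ 2 ≤ η * I := by
    have : g * ‖P‖ ^ 2 = ‖P‖ ^ 2 / L - lam * ‖P‖ ^ 2 := by rw [hg]; ring
    linarith
  have e2 : (t - η) * I ≤ lam * ‖P‖ ^ 2 := by linarith
  have e3 : 3 / 4 * t * I ≤ lam * ‖P‖ ^ 2 := by
    have : η ≤ t / 4 := min_le_left _ _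
    nlinarith
  have e4 : lam * (g * ‖P‖ ^ 2) ≤ lam * (η * I) := mul_le_mul_of_nonneg_left e1 hlam.le
  have e5 : lam * η ≤ t * g / 4 := by
    have : η ≤ t * g / (4 * lam) := min_le_right _ _
    calc lam * η ≤ lam * (t * g / (4 * lam)) := mul_le_mul_of_nonneg_left this hlam.le
      _ = t * g / 4 := by field_simp
  have e6 : 3 / 4 * t * I * g ≤ lam * ‖P‖ ^ 2 * g := mul_le_mul_of_nonneg_right e3 hg0.le
  have e7 : lam * η * I ≤ t * g / 4 * I := mul_le_mul_of_nonneg_right e5 hI.le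
  have e8 : 0 < t * g * I := by positivity
  nlinarith

end Pool.Agent.H73.Lp
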