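import Pool.Agent.H73.Lp.LPF

/-!
# The hyperplane inequality
-/

set_option autoImplicit false

open MeasureTheory Measure Set
open scoped ENNReal NNReal

namespace Pool.Agent.H73.Lp

open Pool.Agent.H84

theorem hyper_of_pc {n : ℕ} {Ω : Set (EuclideanSpace ℝ (Fin (n + 1)))}
    (hΩo : IsOpen Ω) (hΩc : Convex ℝ Ω) (hΩb : Bornology.IsBounded Ω) (hne : Ω.Nonempty)
    (hsymm : ∀ x ∈ Ω, -x ∈ Ω) {c : ℝ} (hc : 0 < c)
    (hPC : ∀ s : ℝ, 0 < s → (∀ w : EuclideanSpace ℝ (Fin (n + 1)),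
      ∫ x in Ω, (inner ℝ w x) ^ 2 ≤ s ^ 2 * ‖w‖ ^ 2 * volume.real Ω) → PC Ω (c * s)) :
    (∃ a : EuclideanSpace ℝ (Fin (n + 1)), a ≠ 0 ∧ ∀ b : EuclideanSpace ℝ (Fin (n + 1)),
      ‖a‖ ^ 2 * ∫ x in Ω, (inner ℝ b x) ^ 2 ≤ ‖b‖ ^ 2 * ∫ x in Ω, (inner ℝ a x) ^ 2) ∧
    ∀ a : EuclideanSpace ℝ (Fin (n + 1)), a ≠ 0 →
      (∀ b : EuclideanSpace ℝ (Fin (n + 1)),
        ‖a‖ ^ 2 * ∫ x in Ω, (inner ℝ b x) ^ 2 ≤ ‖b‖ ^ 2 * ∫ x in Ω, (inner ℝ a x) ^ 2) →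
      ∀ E : Set (EuclideanSpace ℝ (Fin (n + 1))),
        MeasurableSet E → E ⊆ Ω → volume E = volume Ω / 2 →
          μH[(n : ℝ)] {x | x ∈ Ω ∧ inner ℝ a x = (0 : ℝ)}
            ≤ ENNReal.ofReal (7300 * c) * μH[(n : ℝ)] (Ω ∩ frontier E) := by
  have h0 : (0 : EuclideanSpace ℝ (Fin (n + 1))) ∈ Ω := by
    obtain ⟨x, hx⟩ := hne
    have := hΩc hx (hsymm x hx) (a := 1/2) (b := 1/2) (by norm_num) (by norm_num) (by norm_num)
    simpa using this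
  obtain ⟨a0, ha0, s, hs, hsa, hcov⟩ := exists_max_dir hΩo h0 hΩb
  refine ⟨⟨a0, fun h => by rw [h, norm_zero] at ha0; exact zero_ne_one ha0, fun b => ?_⟩, ?_⟩
  · rw [hsa, ha0, one_pow, one_mul]
    calc _ ≤ _ := hcov b
      _ = _ := by ring
  intro a ha hmax E hE hEΩ hEv
  have hna : 0 < ‖a‖ := norm_pos_iff.2 ha
  have hscale : ∀ x : EuclideanSpace ℝ (Fin (n + 1)),
      inner ℝ (‖a‖⁻¹ • a) x = ‖a‖⁻¹ * inner ℝ a x := fun x => by
    rw [real_inner_smul_left]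
  have hvar : ∫ x in Ω, (inner ℝ (‖a‖⁻¹ • a) x) ^ 2 = s ^ 2 * volume.real Ω := by
    have e1 : ∫ x in Ω, (inner ℝ (‖a‖⁻¹ • a) x) ^ 2 =
        (‖a‖⁻¹) ^ 2 * ∫ x in Ω, (inner ℝ a x) ^ 2 := by
      rw [← integral_const_mul]
      congr 1
      ext x
      rw [hscale, mul_pow]
    have e2 : ∫ x in Ω, (inner ℝ a x) ^ 2 = ‖a‖ ^ 2 * (s ^ 2 * volume.real Ω) := by
      apply le_antisymm
      · calc _ ≤ _ := hcov a
          _ = _ := by ring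
      · have := hmax a0
        rw [hsa, ha0, one_pow, one_mul] at this
        exact this
    rw [e1, e2]
    field_simp
  have hn1 : ‖(‖a‖⁻¹ • a)‖ = 1 := by
    rw [norm_smul, norm_inv, norm_norm, inv_mul_cancel₀ hna.ne']
  have hset : {x | x ∈ Ω ∧ inner ℝ a x = (0 : ℝ)} =
      {x | x ∈ Ω ∧ inner ℝ (‖a‖⁻¹ • a) x = (0 : ℝ)} := by
    ext x
    simp only [Set.mem_ofPred_eq, hscale, mul_eq_zero, inv_eq_zero, hna.ne', false_or]
  have hfin : Module.finrank ℝ (EuclideanSpace ℝ (Fin (n + 1))) = n + 1 := by simp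
  have key := kls_reduce_at hfin hΩo hΩc hΩb hsymm hne hn1 hs hvar hc (hPC s hs hcov)
    hE hEΩ hEv
  rw [hset]
  exact key

theorem Spans_restrict {n : ℕ} {ι : Type*} [Fintype ι] {v : ι → EuclideanSpace ℝ (Fin (n + 1))}
    (hv : Spans v) : Spans (fun j : {j : ι // v j ≠ 0} => v j) := by
  intro x hx
  refine hv x fun j => ?_
  by_cases h : v j = 0
  · rw [h, inner_zero_left]
  · exact hx ⟨j, h⟩

theorem KK_restrict {n : ℕ} {ι : Type*} [Fintype ι]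
    {v : ι → EuclideanSpace ℝ (Fin (n + 1))}
    {φ : ι → ℝ → ℝ} (h0 : ∀ j, φ j 0 = 0) [Fintype {j : ι // v j ≠ 0}] :
    KK v φ = KK (fun j : {j : ι // v j ≠ 0} => v j) (fun j => φ j) := by
  classical
  ext x
  simp only [KK, Set.mem_ofPred_eq, Ph]
  have h : ∑ j : {j : ι // v j ≠ 0}, φ j (inner ℝ (v j) x) = ∑ j, φ j (inner ℝ (v j) x) := by
    rw [← Finset.sum_subtype (Finset.univ.filter (fun j => v j ≠ 0)) (by simp)
      (fun j => φ j (inner ℝ (v j) x))]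
    rw [Finset.sum_filter]
    refine Finset.sum_congr rfl fun j _ => ?_
    split_ifs with hj
    · rfl
    · push Not at hj
      rw [hj, inner_zero_left, h0]
  rw [h]

/-- The constant in the first part. -/
theorem lp_hyper {n : ℕ} {α : Type*} [MeasurableSpace α] {ν : Measure α} {p : ℝ}
    (hp : 1 < p) (hp3 : p < 3) [Fact (1 ≤ ENNReal.ofReal p)]
    (T : EuclideanSpace ℝ (Fin (n + 1)) →ₗ[ℝ] Lp ℝ (ENNReal.ofReal p) ν)
    (hT : Function.Injective T) :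
    (∃ a : EuclideanSpace ℝ (Fin (n + 1)), a ≠ 0 ∧ ∀ b : EuclideanSpace ℝ (Fin (n + 1)),
      ‖a‖ ^ 2 * ∫ x in {x | ‖T x‖ < 1}, (inner ℝ b x) ^ 2 ≤
        ‖b‖ ^ 2 * ∫ x in {x | ‖T x‖ < 1}, (inner ℝ a x) ^ 2) ∧
    ∀ a : EuclideanSpace ℝ (Fin (n + 1)), a ≠ 0 →
      (∀ b : EuclideanSpace ℝ (Fin (n + 1)),
        ‖a‖ ^ 2 * ∫ x in {x | ‖T x‖ < 1}, (inner ℝ b x) ^ 2 ≤
          ‖b‖ ^ 2 * ∫ x in {x | ‖T x‖ < 1}, (inner ℝ a x) ^ 2) →
      ∀ E : Set (EuclideanSpace ℝ (Fin (n + 1))),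
        MeasurableSet E → E ⊆ {x | ‖T x‖ < 1} → volume E = volume {x | ‖T x‖ < 1} / 2 →
          μH[(n : ℝ)] {x | x ∈ {x | ‖T x‖ < 1} ∧ inner ℝ a x = (0 : ℝ)}
            ≤ ENNReal.ofReal (8760000 / Real.sqrt (min (p - 1) (3 - p))) *
              μH[(n : ℝ)] ({x | ‖T x‖ < 1} ∩ frontier E) := by
  obtain ⟨R, hR, hKR⟩ := ball_sub T hT
  have hb : Bornology.IsBounded {x : EuclideanSpace ℝ (Fin (n + 1)) | ‖T x‖ < 1} := by
    refine (Metric.isBounded_closedBall (x := (0 : EuclideanSpace ℝ (Fin (n + 1)))) (r := R)).subset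
      fun x hx => ?_
    simpa using hKR x (lt_trans hx (by norm_num))
  set δ := min (p - 1) (3 - p) with hδ
  have hδ0 : 0 < δ := lt_min (by linarith) (by linarith)
  have hs0 : 0 < Real.sqrt δ := Real.sqrt_pos.2 hδ0
  have h := hyper_of_pc (ball_open T) (ball_convex T) hb ⟨0, by simp⟩
    (fun x hx => ball_neg T hx) (c := 1200 * Real.sqrt (1 / δ)) (by positivity)
    (fun s hs hcov => lp_pc hp hp3 T hT hδ0 (min_le_left _ _) (min_le_right _ _) hs hcov)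
  have e : 7300 * (1200 * Real.sqrt (1 / δ)) = 8760000 / Real.sqrt δ := by
    rw [one_div, Real.sqrt_inv]
    field_simp
    norm_num
  rw [e] at h
  exact h

theorem orlicz_hyper {n : ℕ} {ι : Type*} [Fintype ι] {p q : ℝ}
    (hp : 1 < p) (hpq : p ≤ q) (hq : q < 3) {v : ι → EuclideanSpace ℝ (Fin (n + 1))}
    (hv : Spans v) {φ : ι → ℝ → ℝ} (hφ : ∀ j, Orl p q (φ j)) :
    (∃ a : EuclideanSpace ℝ (Fin (n + 1)), a ≠ 0 ∧ ∀ b : EuclideanSpace ℝ (Fin (n + 1)),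
      ‖a‖ ^ 2 * ∫ x in KK v φ, (inner ℝ b x) ^ 2 ≤
        ‖b‖ ^ 2 * ∫ x in KK v φ, (inner ℝ a x) ^ 2) ∧
    ∀ a : EuclideanSpace ℝ (Fin (n + 1)), a ≠ 0 →
      (∀ b : EuclideanSpace ℝ (Fin (n + 1)),
        ‖a‖ ^ 2 * ∫ x in KK v φ, (inner ℝ b x) ^ 2 ≤
          ‖b‖ ^ 2 * ∫ x in KK v φ, (inner ℝ a x) ^ 2) →
      ∀ E : Set (EuclideanSpace ℝ (Fin (n + 1))),
        MeasurableSet E → E ⊆ KK v φ → volume E = volume (KK v φ) / 2 →
          μH[(n : ℝ)] {x | x ∈ KK v φ ∧ inner ℝ a x = (0 : ℝ)}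
            ≤ ENNReal.ofReal (25000000 / Real.sqrt (min (p - 1) (3 - q)) ^ 3) *
              μH[(n : ℝ)] (KK v φ ∩ frontier E) := by
  classical
  set δ := min (p - 1) (3 - q) with hδ
  have hδ0 : 0 < δ := lt_min (by linarith) (by linarith)
  have hδp : δ ≤ p - 1 := min_le_left _ _
  have hδq : δ ≤ 3 - q := min_le_right _ _
  have hs0 : 0 < Real.sqrt δ := Real.sqrt_pos.2 hδ0
  rw [KK_restrict (v := v) (φ := φ) fun j => (hφ j).zero]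
  have hv' := Spans_restrict hv
  set v' : {j : ι // v j ≠ 0} → EuclideanSpace ℝ (Fin (n + 1)) := fun j => v j with hv'def
  set φ' : {j : ι // v j ≠ 0} → ℝ → ℝ := fun j => φ j with hφ'def
  have hφ' : ∀ j, Orl p q (φ' j) := fun j => hφ j
  have hv0 : ∀ j, v' j ≠ 0 := fun j => j.2
  obtain ⟨R, -, hK⟩ := KK_CB hφ' hp hpq hv'
  have hsy : ∀ x ∈ KK v' φ', -x ∈ KK v' φ' := fun x hx => KK_neg hφ' hx
  have hX : 1200 * Real.sqrt (4 / δ ^ 2 * ((q - 1) / (p - 1))) ≤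
      25000000 / Real.sqrt δ ^ 3 / 7300 := by
    have h1 : (q - 1) / (p - 1) ≤ 2 / δ := by
      refine div_le_div₀ (by norm_num) (by linarith) hδ0 hδp
    have h2 : 4 / δ ^ 2 * ((q - 1) / (p - 1)) ≤ 8 / δ ^ 3 := by
      calc 4 / δ ^ 2 * ((q - 1) / (p - 1)) ≤ 4 / δ ^ 2 * (2 / δ) := by gcongr
        _ = 8 / δ ^ 3 := by field_simp; norm_num
    have h3 : 8 / δ ^ 3 ≤ (2.84 / Real.sqrt δ ^ 3) ^ 2 := by
      have : (2.84 / Real.sqrt δ ^ 3) ^ 2 = 2.84 ^ 2 / δ ^ 3 := by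
        rw [div_pow, ← pow_mul, mul_comm 3 2, pow_mul, Real.sq_sqrt hδ0.le]
      rw [this]
      gcongr
      norm_num
    have h4 : Real.sqrt (4 / δ ^ 2 * ((q - 1) / (p - 1))) ≤ 2.84 / Real.sqrt δ ^ 3 := by
      rw [← Real.sqrt_sq (by positivity : 0 ≤ 2.84 / Real.sqrt δ ^ 3)]
      exact Real.sqrt_le_sqrt (h2.trans h3)
    calc 1200 * Real.sqrt (4 / δ ^ 2 * ((q - 1) / (p - 1))) ≤ 1200 * (2.84 / Real.sqrt δ ^ 3) := by
          gcongr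
      _ ≤ 25000000 / Real.sqrt δ ^ 3 / 7300 := by
        rw [div_div, mul_comm (Real.sqrt δ ^ 3) 7300, ← div_div, mul_div_assoc']
        gcongr
        norm_num
  have h := hyper_of_pc (KK_isOpen hφ') (KK_convex hφ' hp) (KK_bounded hφ' hp hpq hv')
    ⟨0, KK_zero hφ'⟩ hsy (c := 25000000 / Real.sqrt δ ^ 3 / 7300) (by positivity)
    (fun s hs hcov => by
      have h5 := body_pc hφ' hp hpq (by linarith) hv' hv0 (A := 4 / δ ^ 2)
        (fun j => A2_gen hK hsy (hv0 j) (hφ' j) hp hpq hδ0 hδp hδq) hs hcov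
      have hq1 : 0 ≤ (q - 1) / (p - 1) := div_nonneg (by linarith) (by linarith)
      exact h5.mono (by positivity) (mul_le_mul_of_nonneg_right hX hs.le))
  have e : 7300 * (25000000 / Real.sqrt δ ^ 3 / 7300) = 25000000 / Real.sqrt δ ^ 3 := by
    field_simp
  rw [e] at h
  exact h

end Pool.Agent.H73.Lp
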