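import Pool.Agent.H73.Lp.MUB

/-!
# Module MUS: the sandwich
-/

set_option autoImplicit false

open MeasureTheory Set

namespace Pool.Agent.H73.Lp

variable {E : Type*} [NormedAddCommGroup E] [InnerProductSpace ℝ E] [FiniteDimensional ℝ E]
    [MeasurableSpace E] [BorelSpace E]
variable {α : Type*} [MeasurableSpace α] {ν : Measure α} {p q : ℝ} {v : α → E} {φ : α → ℝ → ℝ}

private theorem mus_large {M : E → ℝ} (hp : 1 < p) (hcont : Continuous M)
    (hMpos : ∀ x, x ≠ 0 → 0 < M x)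
    (hMle : ∀ t : ℝ, 0 ≤ t → t ≤ 1 → ∀ x, M (t • x) ≤ t ^ p * M x) :
    ∃ R : ℝ, 0 < R ∧ ∀ x : E, R ≤ ‖x‖ → 2 ≤ M x := by
  rcases subsingleton_or_nontrivial E with hE | hE
  · refine ⟨1, one_pos, fun x hx => ?_⟩
    rw [Subsingleton.elim x 0, norm_zero] at hx
    linarith
  · obtain ⟨x0, hx0, hmin⟩ := (isCompact_sphere (0:E) 1).exists_isMinOn
      (NormedSpace.sphere_nonempty.2 zero_le_one) hcont.continuousOn
    have hx0' : ‖x0‖ = 1 := by simpa using hx0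
    have hm : 0 < M x0 := hMpos x0 (by
      intro h
      rw [h, norm_zero] at hx0'
      exact zero_ne_one hx0')
    refine ⟨max 1 (2 / M x0), lt_max_of_lt_left one_pos, fun x hx => ?_⟩
    have h1 : 1 ≤ ‖x‖ := (le_max_left _ _).trans hx
    have h2 : 2 / M x0 ≤ ‖x‖ := (le_max_right _ _).trans hx
    have h0 : 0 < ‖x‖ := by linarith
    have h3 : M x0 ≤ M (‖x‖⁻¹ • x) := by
      refine hmin ?_
      rw [mem_sphere_zero_iff_norm, norm_smul, norm_inv, norm_norm, inv_mul_cancel₀ h0.ne']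
    have h4 : ‖x‖⁻¹ ≤ 1 := inv_le_one_of_one_le₀ h1
    have h5 := hMle ‖x‖⁻¹ (by positivity) h4 x
    have h6 : ‖x‖⁻¹ ^ p ≤ ‖x‖⁻¹ := by
      calc ‖x‖⁻¹ ^ p ≤ ‖x‖⁻¹ ^ (1:ℝ) :=
            Real.rpow_le_rpow_of_exponent_ge (by positivity) h4 hp.le
        _ = ‖x‖⁻¹ := Real.rpow_one _
    have h7 : 0 ≤ M x := (hMpos x (by
      intro h
      rw [h, norm_zero] at h0
      exact lt_irrefl _ h0)).le
    have h8 : M x0 ≤ ‖x‖⁻¹ * M x :=
      (h3.trans h5).trans (mul_le_mul_of_nonneg_right h6 h7)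
    rw [inv_mul_eq_div, le_div_iff₀ h0] at h8
    rw [div_le_iff₀ hm] at h2
    linarith

/-- The sandwich. -/
theorem Mod_sandwich (hp : 1 < p) (hpq : p ≤ q) (hv : Measurable v)
    (hφm : ∀ s, Measurable (fun ω => φ ω s)) (hφ : ∀ ω, Orl p q (φ ω))
    (hi : ∀ x, Integrable (fun ω => φ ω (inner ℝ (v ω) x)) ν)
    (hne : ∀ x : E, x ≠ 0 → ¬ ∀ᵐ ω ∂ν, inner ℝ (v ω) x = (0:ℝ)) {δ : ℝ} (hδ : 0 < δ)
    (hδ1 : δ < 1) :
    ∃ (N : ℕ) (v' : Fin N → E) (φ' : Fin N → ℝ → ℝ), (∀ j, Orl p q (φ' j)) ∧ Spans v' ∧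
      (∀ j, v' j ≠ 0) ∧
      (∀ x : E, Mod ν v φ x < 1 → (1 - δ) • x ∈ KK v' φ') ∧
      (∀ x ∈ KK v' φ', Mod ν v φ ((1 + δ)⁻¹ • x) < 1) := by
  classical
  obtain ⟨hconv, hcont, hM0, hMneg, hMpos, hMle, hMge⟩ := Mod_basic hp hpq hφ hi hne
  have hMnn : ∀ x, 0 ≤ Mod ν v φ x := by
    intro x
    rcases eq_or_ne x 0 with h | h
    · rw [h, hM0]
    · exact (hMpos x h).le
  obtain ⟨R, hR, hlarge⟩ := mus_large hp hcont hMpos hMle
  obtain ⟨N0, v0, φ0, hφ0, happ⟩ := Mod_approx hp hpq hv hφm hφ hi hR hδ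
  -- drop the zero vectors
  let J := {j : Fin N0 // v0 j ≠ 0}
  let e : J ≃ Fin (Fintype.card J) := Fintype.equivFin J
  let v' : Fin (Fintype.card J) → E := fun j => v0 (e.symm j)
  let φ' : Fin (Fintype.card J) → ℝ → ℝ := fun j => φ0 (e.symm j)
  have hφ' : ∀ j, Orl p q (φ' j) := fun j => hφ0 _
  have hPh : ∀ x, Ph v' φ' x = Ph v0 φ0 x := by
    intro x
    unfold Ph
    have h1 : ∑ j : Fin (Fintype.card J), φ' j (inner ℝ (v' j) x) =
        ∑ j : J, φ0 j (inner ℝ (v0 j) x) :=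
      e.symm.sum_comp (fun j : J => φ0 j (inner ℝ (v0 j) x))
    rw [h1]
    rw [← Finset.sum_subtype (s := Finset.univ.filter (fun j : Fin N0 => v0 j ≠ 0))
      (p := fun j => v0 j ≠ 0) (by simp) (f := fun j => φ0 j (inner ℝ (v0 j) x))]
    rw [Finset.sum_filter]
    refine Finset.sum_congr rfl fun j _ => ?_
    split_ifs with h
    · rfl
    · push Not at h
      rw [h, inner_zero_left, (hφ0 j).zero]
  have happ' : ∀ x : E, ‖x‖ ≤ R → |Ph v' φ' x - Mod ν v φ x| ≤ δ := by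
    intro x hx
    rw [hPh]
    exact happ x hx
  have hsph : ∀ x : E, ‖x‖ = R → 1 ≤ Ph v' φ' x := by
    intro x hx
    have h1 := abs_le.1 (happ' x hx.le)
    have h2 := hlarge x hx.ge
    linarith [h1.1]
  have hout : ∀ x : E, R ≤ ‖x‖ → 1 ≤ Ph v' φ' x := by
    intro x hx
    have h0 : 0 < ‖x‖ := hR.trans_le hx
    have ht0 : 0 ≤ R / ‖x‖ := by positivity
    have ht1 : R / ‖x‖ ≤ 1 := (div_le_one h0).2 hx
    have h1 := Ph_scale_le (v := v') hφ' hp ht0 ht1 x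
    have h2 := hsph ((R / ‖x‖) • x) (by
      rw [norm_smul, Real.norm_of_nonneg ht0, div_mul_cancel₀ _ h0.ne'])
    have h3 : (R / ‖x‖) ^ p ≤ 1 := Real.rpow_le_one ht0 ht1 (by linarith)
    have h4 : 0 ≤ Ph v' φ' x := Ph_nonneg hφ' hp x
    nlinarith
  refine ⟨_, v', φ', hφ', ?_, fun j => (e.symm j).2, ?_, ?_⟩
  · intro x hx
    by_contra hne'
    have h0 : 0 < ‖x‖ := norm_pos_iff.2 hne'
    have h2 := hsph ((R / ‖x‖) • x) (by
      rw [norm_smul, Real.norm_of_nonneg (by positivity), div_mul_cancel₀ _ h0.ne'])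
    have h3 : Ph v' φ' ((R / ‖x‖) • x) = 0 := by
      unfold Ph
      refine Finset.sum_eq_zero fun j _ => ?_
      rw [real_inner_smul_right, hx j, mul_zero, (hφ' j).zero]
    linarith
  · intro x hx
    have hxR : ‖x‖ < R := by
      by_contra hc
      have := hlarge x (not_lt.1 hc)
      linarith
    have h1 : ‖(1 - δ) • x‖ ≤ R := by
      rw [norm_smul, Real.norm_of_nonneg (by linarith)]
      nlinarith [norm_nonneg x]
    have h2 := (abs_le.1 (happ' _ h1)).2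
    have h3 := hMle (1 - δ) (by linarith) (by linarith) x
    have h4 : (1 - δ) ^ p ≤ 1 - δ := by
      calc (1 - δ) ^ p ≤ (1 - δ) ^ (1:ℝ) :=
            Real.rpow_le_rpow_of_exponent_ge (by linarith) (by linarith) hp.le
        _ = 1 - δ := Real.rpow_one _
    show Ph v' φ' ((1 - δ) • x) < 1
    have h5 := hMnn x
    nlinarith
  · intro x hx
    have hx' : Ph v' φ' x < 1 := hx
    have hxR : ‖x‖ < R := by
      by_contra hc
      have := hout x (not_lt.1 hc)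
      linarith
    have h2 := (abs_le.1 (happ' x hxR.le)).1
    have h0 : 0 < (1 + δ)⁻¹ := by positivity
    have h1 : (1 + δ)⁻¹ ≤ 1 := inv_le_one_of_one_le₀ (by linarith)
    have h3 := hMle (1 + δ)⁻¹ h0.le h1 x
    have h4 : (1 + δ)⁻¹ ^ p ≤ (1 + δ)⁻¹ := by
      calc (1 + δ)⁻¹ ^ p ≤ (1 + δ)⁻¹ ^ (1:ℝ) :=
            Real.rpow_le_rpow_of_exponent_ge h0 h1 hp.le
        _ = (1 + δ)⁻¹ := Real.rpow_one _
    have h5 := hMnn x
    have h6 : Mod ν v φ ((1 + δ)⁻¹ • x) ≤ (1 + δ)⁻¹ * Mod ν v φ x :=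
      h3.trans (mul_le_mul_of_nonneg_right h4 h5)
    have h7 : (1 + δ)⁻¹ * Mod ν v φ x < 1 := by
      rw [inv_mul_eq_div, div_lt_one (by linarith)]
      linarith
    linarith

end Pool.Agent.H73.Lp
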