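import Pool.Agent.H73.Lp.SWP
import Pool.Agent.H73.Lp.MUS
import Pool.Agent.H73.Lp.FIN

/-!
# The hyperplane inequality for Musielak-Orlicz spaces
-/

set_option autoImplicit false

open MeasureTheory Measure Set Filter Topology
open scoped ENNReal NNReal Pointwise

namespace Pool.Agent.H73.Lp

open Pool.Agent.H84 Pool.Agent.H84.Sym

variable {α : Type*} [MeasurableSpace α] {ν : Measure α} {p q : ℝ} {φ : α → ℝ → ℝ}

section General

universe u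
variable {E : Type u} [NormedAddCommGroup E] [InnerProductSpace ℝ E]
    [FiniteDimensional ℝ E] [MeasurableSpace E] [BorelSpace E] {v : α → E}

theorem mod_bounded (hp : 1 < p) (hpq : p ≤ q)
    (hφ : ∀ ω, Orl p q (φ ω)) (hi : ∀ x, Integrable (fun ω => φ ω (inner ℝ (v ω) x)) ν)
    (hne : ∀ x : E, x ≠ 0 → ¬ ∀ᵐ ω ∂ν, inner ℝ (v ω) x = (0:ℝ)) :
    ∃ R : ℝ, {x : E | Mod ν v φ x < 1} ⊆ Metric.closedBall 0 R := by
  obtain ⟨-, hcont, h0, -, hpos, hle, -⟩ := Mod_basic hp hpq hφ hi hne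
  rcases subsingleton_or_nontrivial E with hE | hE
  · refine ⟨0, fun x _ => ?_⟩
    rw [Subsingleton.elim x 0]
    simp
  obtain ⟨y, hy, hmin⟩ := (isCompact_sphere (0:E) 1).exists_isMinOn
    (by simpa using (NormedSpace.sphere_nonempty (x := (0:E)) (r := 1)).2 zero_le_one)
    hcont.continuousOn
  have hy1 : ‖y‖ = 1 := by simpa using hy
  have hy0 : y ≠ 0 := fun h => by rw [h, norm_zero] at hy1; exact zero_ne_one hy1
  set m := Mod ν v φ y with hm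
  have hm0 : 0 < m := hpos y hy0
  refine ⟨max 1 (1 / m), fun x hx => ?_⟩
  rw [mem_closedBall_zero_iff]
  by_contra hcon
  push Not at hcon
  have h1 : 1 < ‖x‖ := (le_max_left _ _).trans_lt hcon
  have h2 : 1 / m < ‖x‖ := (le_max_right _ _).trans_lt hcon
  have hx0 : 0 < ‖x‖ := by linarith
  have h3 := hle (‖x‖⁻¹) (by positivity) (inv_le_one_of_one_le₀ h1.le) x
  have h4 : m ≤ Mod ν v φ (‖x‖⁻¹ • x) := by
    refine hmin ?_
    simp [norm_smul, hx0.ne']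
  have h5 : (‖x‖⁻¹) ^ p ≤ ‖x‖⁻¹ := by
    have := Real.rpow_le_rpow_of_exponent_ge (x := ‖x‖⁻¹) (by positivity)
      (inv_le_one_of_one_le₀ h1.le) (show (1:ℝ) ≤ p from hp.le)
    simpa using this
  have hx1 : Mod ν v φ x < 1 := hx
  have hxx : x ≠ 0 := norm_pos_iff.1 hx0
  have h6 : 0 < Mod ν v φ x := hpos x hxx
  have h7 : m ≤ ‖x‖⁻¹ := by
    calc m ≤ (‖x‖⁻¹) ^ p * Mod ν v φ x := h4.trans h3
      _ ≤ ‖x‖⁻¹ * 1 := by
        refine mul_le_mul h5 hx1.le h6.le (by positivity)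
      _ = _ := mul_one _
  rw [div_lt_iff₀ hm0] at h2
  have : ‖x‖ * m ≤ 1 := by
    calc ‖x‖ * m ≤ ‖x‖ * ‖x‖⁻¹ := by gcongr
      _ = 1 := mul_inv_cancel₀ hx0.ne'
  linarith

theorem mus_pc [Nontrivial E] (hp : 1 < p) (hpq : p ≤ q) (hv : Measurable v)
    (hφm : ∀ s, Measurable (fun ω => φ ω s)) (hφ : ∀ ω, Orl p q (φ ω))
    (hi : ∀ x, Integrable (fun ω => φ ω (inner ℝ (v ω) x)) ν)
    (hne : ∀ x : E, x ≠ 0 → ¬ ∀ᵐ ω ∂ν, inner ℝ (v ω) x = (0:ℝ)) {δ : ℝ} (hδ : 0 < δ)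
    (hδp : δ ≤ p - 1) (hδq : δ ≤ 3 - q) {s : ℝ} (hs : 0 < s)
    (hcov : ∀ w : E, ∫ x in {x : E | Mod ν v φ x < 1}, (inner ℝ w x) ^ 2 ≤
      s ^ 2 * ‖w‖ ^ 2 * volume.real {x : E | Mod ν v φ x < 1}) :
    PC {x : E | Mod ν v φ x < 1} (1200 * Real.sqrt (4 / δ ^ 2 * ((q - 1) / (p - 1))) * s) := by
  obtain ⟨hconv, hcont, h0, -, -, -, -⟩ := Mod_basic hp hpq hφ hi hne
  obtain ⟨R, hR⟩ := mod_bounded hp hpq hφ hi hne
  have ho : IsOpen {x : E | Mod ν v φ x < 1} := isOpen_lt hcont continuous_const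
  have hc : Convex ℝ {x : E | Mod ν v φ x < 1} := by
    have := hconv.convex_lt 1
    simpa using this
  refine sandwich_pc ho hc (by simp [h0]) hR (fun η hη hη1 => ?_) hs hcov
  obtain ⟨N, v', φ', hφ', hsp, hv0, h1, h2⟩ := Mod_sandwich hp hpq hv hφm hφ hi hne hη hη1
  refine ⟨KK v' φ', (KK_isOpen hφ').measurableSet, ?_, ?_, fun s hs hcov => ?_⟩
  · rintro _ ⟨x, hx, rfl⟩
    exact h1 x hx
  · intro x hx
    rw [mem_smul_set_iff_inv_smul_mem₀ (by linarith : (1 + η) ≠ 0)]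
    exact h2 x hx
  · obtain ⟨R', -, hK⟩ := KK_CB hφ' hp hpq hsp
    have hsy : ∀ x ∈ KK v' φ', -x ∈ KK v' φ' := fun x hx => KK_neg hφ' hx
    exact body_pc hφ' hp hpq (by linarith) hsp hv0 (A := 4 / δ ^ 2)
      (fun j => A2_gen hK hsy (hv0 j) (hφ' j) hp hpq hδ hδp hδq) hs hcov

end General

theorem mus_hyper {n : ℕ} {v : α → EuclideanSpace ℝ (Fin (n + 1))}
    (hp : 1 < p) (hpq : p ≤ q) (hq : q < 3) (hv : Measurable v)
    (hφm : ∀ s, Measurable (fun ω => φ ω s)) (hφ : ∀ ω, Orl p q (φ ω))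
    (hi : ∀ x, Integrable (fun ω => φ ω (inner ℝ (v ω) x)) ν)
    (hne : ∀ x, x ≠ 0 → ¬ ∀ᵐ ω ∂ν, inner ℝ (v ω) x = (0:ℝ)) :
    ({x | Mod ν v φ x < 1}.Nonempty ∧ IsOpen {x | Mod ν v φ x < 1} ∧
      Bornology.IsBounded {x | Mod ν v φ x < 1} ∧ Convex ℝ {x | Mod ν v φ x < 1} ∧
      ∀ x ∈ {x | Mod ν v φ x < 1}, -x ∈ {x | Mod ν v φ x < 1}) ∧
    (∃ a : EuclideanSpace ℝ (Fin (n + 1)), a ≠ 0 ∧ ∀ b : EuclideanSpace ℝ (Fin (n + 1)),
      ‖a‖ ^ 2 * ∫ x in {x | Mod ν v φ x < 1}, (inner ℝ b x) ^ 2 ≤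
        ‖b‖ ^ 2 * ∫ x in {x | Mod ν v φ x < 1}, (inner ℝ a x) ^ 2) ∧
    ∀ a : EuclideanSpace ℝ (Fin (n + 1)), a ≠ 0 →
      (∀ b : EuclideanSpace ℝ (Fin (n + 1)),
        ‖a‖ ^ 2 * ∫ x in {x | Mod ν v φ x < 1}, (inner ℝ b x) ^ 2 ≤
          ‖b‖ ^ 2 * ∫ x in {x | Mod ν v φ x < 1}, (inner ℝ a x) ^ 2) →
      ∀ E : Set (EuclideanSpace ℝ (Fin (n + 1))),
        MeasurableSet E → E ⊆ {x | Mod ν v φ x < 1} → volume E = volume {x | Mod ν v φ x < 1} / 2 →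
          μH[(n : ℝ)] {x | x ∈ {x | Mod ν v φ x < 1} ∧ inner ℝ a x = (0 : ℝ)}
            ≤ ENNReal.ofReal (25000000 / Real.sqrt (min (p - 1) (3 - q)) ^ 3) *
              μH[(n : ℝ)] ({x | Mod ν v φ x < 1} ∩ frontier E) := by
  obtain ⟨hconv, hcont, h0, hev, -, -, -⟩ := Mod_basic hp hpq hφ hi hne
  obtain ⟨R, hR⟩ := mod_bounded hp hpq hφ hi hne
  have ho : IsOpen {x | Mod ν v φ x < 1} := isOpen_lt hcont continuous_const
  have hc : Convex ℝ {x | Mod ν v φ x < 1} := by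
    have := hconv.convex_lt 1
    simpa using this
  have hb : Bornology.IsBounded {x | Mod ν v φ x < 1} := Metric.isBounded_closedBall.subset hR
  have hn : {x | Mod ν v φ x < 1}.Nonempty := ⟨0, by simp [h0]⟩
  have hsy : ∀ x ∈ {x | Mod ν v φ x < 1}, -x ∈ {x | Mod ν v φ x < 1} := fun x hx => by
    have : Mod ν v φ x < 1 := hx
    show Mod ν v φ (-x) < 1
    rwa [hev x]
  refine ⟨⟨hn, ho, hb, hc, hsy⟩, ?_⟩
  set δ := min (p - 1) (3 - q) with hδ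
  have hδ0 : 0 < δ := lt_min (by linarith) (by linarith)
  have hδp : δ ≤ p - 1 := min_le_left _ _
  have hδq : δ ≤ 3 - q := min_le_right _ _
  have hs0 : 0 < Real.sqrt δ := Real.sqrt_pos.2 hδ0
  have hX : 1200 * Real.sqrt (4 / δ ^ 2 * ((q - 1) / (p - 1))) ≤
      25000000 / Real.sqrt δ ^ 3 / 7300 := by
    have h1 : (q - 1) / (p - 1) ≤ 2 / δ := by
      refine div_le_div₀ (by norm_num) (by linarith) hδ0 hδp
    have h2 : 4 / δ ^ 2 * ((q - 1) / (p - 1)) ≤ 8 / δ ^ 3 := by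
      calc 4 / δ ^ 2 * ((q - 1) / (p - 1)) ≤ 4 / δ ^ 2 * (2 / δ) := by gcongr
        _ = 8 / δ ^ 3 := by field_simp; norm_num
    have h3 : 8 / δ ^ 3 ≤ (2.84 / Real.sqrt δ ^ 3) ^ 2 := by
      have : (2.84 / Real.sqrt δ ^ 3) ^ 2 = 2.84 ^ 2 / δ ^ 3 := by
        rw [div_pow, ← pow_mul, mul_comm 3 2, pow_mul, Real.sq_sqrt hδ0.le]
      rw [this]
      gcongr
      norm_num
    have h4 : Real.sqrt (4 / δ ^ 2 * ((q - 1) / (p - 1))) ≤ 2.84 / Real.sqrt δ ^ 3 := by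
      rw [← Real.sqrt_sq (by positivity : 0 ≤ 2.84 / Real.sqrt δ ^ 3)]
      exact Real.sqrt_le_sqrt (h2.trans h3)
    calc 1200 * Real.sqrt (4 / δ ^ 2 * ((q - 1) / (p - 1))) ≤ 1200 * (2.84 / Real.sqrt δ ^ 3) := by
          gcongr
      _ ≤ 25000000 / Real.sqrt δ ^ 3 / 7300 := by
        rw [div_div, mul_comm (Real.sqrt δ ^ 3) 7300, ← div_div, mul_div_assoc']
        gcongr
        norm_num
  have h := hyper_of_pc ho hc hb hn hsy (c := 25000000 / Real.sqrt δ ^ 3 / 7300) (by positivity)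
    (fun s hs hcov => by
      have h5 := mus_pc hp hpq hv hφm hφ hi hne hδ0 hδp hδq hs hcov
      have hq1 : 0 ≤ (q - 1) / (p - 1) := div_nonneg (by linarith) (by linarith)
      exact h5.mono (by positivity) (mul_le_mul_of_nonneg_right hX hs.le))
  have e : 7300 * (25000000 / Real.sqrt δ ^ 3 / 7300) = 25000000 / Real.sqrt δ ^ 3 := by
    field_simp
  rw [e] at h
  exact h

end Pool.Agent.H73.Lp
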