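import Pool.Agent.H73.Lp.SMB

/-!
# Module MOM: moments of order in `(-1, 1)`
-/

set_option autoImplicit false

open MeasureTheory Set

namespace Pool.Agent.H73.Lp

open Pool.Agent.H84

variable {E : Type*} [NormedAddCommGroup E] [InnerProductSpace ℝ E]
    [FiniteDimensional ℝ E] [MeasurableSpace E] [BorelSpace E]

theorem moment_pos {K : Set E} {R : ℝ} (hK : CB K R) {v : E}
    (hv : v ≠ 0) {a : ℝ} (ha : 0 ≤ a) (ha1 : a < 1) :
    IntegrableOn (fun x => |inner ℝ v x| ^ a) K ∧
      ∫ x in K, |inner ℝ v x| ^ a ≤ m1 K v ^ a * volume.real K := by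
  have hc1 : Continuous (fun x : E => |inner ℝ v x|) := by fun_prop
  have hc2 : Continuous (fun x : E => |inner ℝ v x| ^ a) := by
    refine continuous_iff_continuousAt.2 fun x => ?_
    exact (Real.continuousAt_rpow_const _ _ (Or.inr ha)).comp hc1.continuousAt
  have hi1 := (hK.bm_of_cont hc1).integrableOn hK
  have hi2 := (hK.bm_of_cont hc2).integrableOn hK
  refine ⟨hi2, ?_⟩
  have hgc : ContinuousOn (fun x : ℝ => x ^ a) (Ici 0) := fun x _ =>
    (Real.continuousAt_rpow_const _ _ (Or.inr ha)).continuousWithinAt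
  have hJ := (Real.concaveOn_rpow ha ha1.le).le_map_set_average (μ := volume) (t := K)
    (f := fun x : E => |inner ℝ v x|) hgc isClosed_Ici hK.vol0 hK.lt_top.ne
    (Filter.Eventually.of_forall fun x => mem_Ici.2 (abs_nonneg _)) hi1 hi2
  have hV : 0 < volume.real K := ENNReal.toReal_pos hK.vol0 hK.lt_top.ne
  rw [setAverage_eq, setAverage_eq, smul_eq_mul, smul_eq_mul] at hJ
  have hm : m1 K v = (volume.real K)⁻¹ * ∫ x in K, |inner ℝ v x| := by
    unfold m1
    rw [div_eq_inv_mul]
  rw [← hm] at hJ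
  have := mul_le_mul_of_nonneg_right hJ hV.le
  calc ∫ x in K, |inner ℝ v x| ^ a
      = (volume.real K)⁻¹ * (∫ x in K, |inner ℝ v x| ^ a) * volume.real K := by
        field_simp
    _ ≤ _ := this

theorem moment_neg {K : Set E} {R : ℝ} (hK : CB K R) (hsymm : ∀ x ∈ K, -x ∈ K) {v : E}
    (hv : v ≠ 0) {a : ℝ} (ha : 0 ≤ a) (ha1 : a < 1) :
    IntegrableOn (fun x => |inner ℝ v x| ^ (-a)) K ∧
      ∫ x in K, |inner ℝ v x| ^ (-a) ≤ (1 - a)⁻¹ * m1 K v ^ (-a) * volume.real K := by
  rcases ha.eq_or_lt with h0 | ha0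
  · subst h0
    simp only [neg_zero, Real.rpow_zero, sub_zero, inv_one, one_mul]
    have hi : IntegrableOn (fun _ : E => (1:ℝ)) K :=
      (hK.bm_of_cont continuous_const).integrableOn hK
    refine ⟨hi, ?_⟩
    simp [Measure.real]
  have hm := m1_pos hK hv
  have hV : 0 < volume.real K := ENNReal.toReal_pos hK.vol0 hK.lt_top.ne
  set m := m1 K v with hmdef
  set V := volume.real K with hVdef
  set T := m ^ (-a) with hT
  have hT0 : 0 < T := Real.rpow_pos_of_pos hm _
  have hc1 : Continuous (fun x : E => |inner ℝ v x|) := by fun_prop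
  have hmeas : Measurable (fun x : E => |inner ℝ v x| ^ (-a)) :=
    hc1.measurable.pow_const _
  have hnn : ∀ x : E, 0 ≤ |inner ℝ v x| ^ (-a) := fun x => Real.rpow_nonneg (abs_nonneg _) _
  have hKV : volume K = ENNReal.ofReal V := (ENNReal.ofReal_toReal hK.lt_top.ne).symm
  -- tail bound
  have htail : ∀ t : ℝ, 0 < t → (volume.restrict K) {x : E | t < |inner ℝ v x| ^ (-a)} ≤
      ENNReal.ofReal (V / m * t ^ (-a⁻¹)) := by
    intro t ht
    have hms : MeasurableSet {x : E | t < |inner ℝ v x| ^ (-a)} :=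
      measurableSet_lt measurable_const hmeas
    rw [Measure.restrict_apply hms]
    have hsub : {x : E | t < |inner ℝ v x| ^ (-a)} ∩ K ⊆
        K ∩ {x : E | |inner ℝ v x| < t ^ (-a⁻¹)} := by
      rintro x ⟨hx, hxK⟩
      refine ⟨hxK, ?_⟩
      simp only [mem_ofPred_eq] at hx ⊢
      have hne : 0 < |inner ℝ v x| := by
        rcases (abs_nonneg (inner ℝ v x)).eq_or_lt with h0 | h0
        · rw [← h0, Real.zero_rpow (by linarith)] at hx
          linarith
        · exact h0
      have h1 : (|inner ℝ v x| ^ (-a)) ^ (-a⁻¹) < t ^ (-a⁻¹) :=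
        Real.rpow_lt_rpow_of_neg ht hx (by simpa using ha0)
      rw [← Real.rpow_mul hne.le] at h1
      have h2 : -a * -a⁻¹ = 1 := by
        field_simp
      rwa [h2, Real.rpow_one] at h1
    have hsb := small_ball hK hsymm hv (Real.rpow_pos_of_pos ht (-a⁻¹))
    have hfin : volume (K ∩ {x : E | |inner ℝ v x| < t ^ (-a⁻¹)}) ≠ ⊤ :=
      ((measure_mono inter_subset_left).trans_lt hK.lt_top).ne
    calc volume ({x : E | t < |inner ℝ v x| ^ (-a)} ∩ K)
        ≤ volume (K ∩ {x : E | |inner ℝ v x| < t ^ (-a⁻¹)}) := measure_mono hsub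
      _ = ENNReal.ofReal (volume.real (K ∩ {x : E | |inner ℝ v x| < t ^ (-a⁻¹)})) :=
          (ENNReal.ofReal_toReal hfin).symm
      _ ≤ _ := by
          apply ENNReal.ofReal_le_ofReal
          rw [div_mul_eq_mul_div, le_div_iff₀ hm]
          linarith
  have htriv : ∀ t : ℝ, (volume.restrict K) {x : E | t < |inner ℝ v x| ^ (-a)} ≤
      ENNReal.ofReal V := by
    intro t
    rw [← hKV]
    calc (volume.restrict K) {x : E | t < |inner ℝ v x| ^ (-a)} ≤ (volume.restrict K) univ :=
          measure_mono (subset_univ _)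
      _ = volume K := by simp
  have hexp : -a⁻¹ < -1 := by
    have := (one_lt_inv₀ ha0).2 ha1
    linarith
  have hlay : ∫⁻ x in K, ENNReal.ofReal (|inner ℝ v x| ^ (-a)) ≤
      ENNReal.ofReal ((1 - a)⁻¹ * m ^ (-a) * V) := by
    rw [lintegral_eq_lintegral_meas_lt (volume.restrict K)
      (Filter.Eventually.of_forall hnn) hmeas.aemeasurable]
    rw [← Ioc_union_Ioi_eq_Ioi hT0.le]
    refine (lintegral_union_le _ _ _).trans ?_
    have hI1 : ∫⁻ t in Ioc 0 T, (volume.restrict K) {x : E | t < |inner ℝ v x| ^ (-a)} ≤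
        ENNReal.ofReal (V * T) := by
      calc ∫⁻ t in Ioc 0 T, (volume.restrict K) {x : E | t < |inner ℝ v x| ^ (-a)}
          ≤ ∫⁻ _ in Ioc 0 T, ENNReal.ofReal V := lintegral_mono fun t => htriv t
        _ = ENNReal.ofReal (V * T) := by
            rw [setLIntegral_const, Real.volume_Ioc, sub_zero, ENNReal.ofReal_mul hV.le]
    have hI2 : ∫⁻ t in Ioi T, (volume.restrict K) {x : E | t < |inner ℝ v x| ^ (-a)} ≤
        ENNReal.ofReal (V * T * (a / (1 - a))) := by
      calc ∫⁻ t in Ioi T, (volume.restrict K) {x : E | t < |inner ℝ v x| ^ (-a)}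
          ≤ ∫⁻ t in Ioi T, ENNReal.ofReal (V / m * t ^ (-a⁻¹)) := by
            refine setLIntegral_mono' measurableSet_Ioi fun t ht => htail t (hT0.trans ht)
        _ = ENNReal.ofReal (∫ t in Ioi T, V / m * t ^ (-a⁻¹)) := by
            rw [ofReal_integral_eq_lintegral_ofReal]
            · exact (integrableOn_Ioi_rpow_of_lt hexp hT0).const_mul _
            · filter_upwards [ae_restrict_mem measurableSet_Ioi] with t ht
              exact mul_nonneg (div_nonneg hV.le hm.le) (Real.rpow_nonneg (hT0.trans ht).le _)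
        _ = ENNReal.ofReal (V * T * (a / (1 - a))) := by
            congr 1
            rw [integral_const_mul, integral_Ioi_rpow_of_lt hexp hT0]
            have h1 : T ^ (-a⁻¹ + 1) = m * T := by
              rw [hT, ← Real.rpow_mul hm.le]
              have : -a * (-a⁻¹ + 1) = 1 + -a := by
                field_simp
                ring
              rw [this, Real.rpow_add hm, Real.rpow_one]
            rw [h1]
            have h2 : -a⁻¹ + 1 = -((1 - a) / a) := by
              field_simp
              ring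
            rw [h2]
            have h3 : 1 - a ≠ 0 := by linarith
            field_simp
    refine (add_le_add hI1 hI2).trans ?_
    have h1a : 0 < 1 - a := by linarith
    rw [← ENNReal.ofReal_add (by positivity) (by positivity)]
    apply ENNReal.ofReal_le_ofReal
    apply le_of_eq
    field_simp
    ring
  have hint : IntegrableOn (fun x : E => |inner ℝ v x| ^ (-a)) K := by
    refine ⟨hmeas.aestronglyMeasurable, ?_⟩
    rw [hasFiniteIntegral_iff_ofReal (Filter.Eventually.of_forall hnn)]
    exact hlay.trans_lt ENNReal.ofReal_lt_top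
  refine ⟨hint, ?_⟩
  rw [integral_eq_lintegral_of_nonneg_ae (Filter.Eventually.of_forall hnn)
    hmeas.aestronglyMeasurable]
  have h1a : 0 < 1 - a := by linarith
  have hnn2 : 0 ≤ (1 - a)⁻¹ * m ^ (-a) * V := by positivity
  exact ENNReal.toReal_le_of_le_ofReal hnn2 hlay

end Pool.Agent.H73.Lp
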