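import Pool.Agent.H73.Lp.ORL
import Pool.Agent.H73.Lp.MOM

/-!
# Module AAA: the `A₂` condition
-/

set_option autoImplicit false

open MeasureTheory Set

namespace Pool.Agent.H73.Lp

open Pool.Agent.H84

variable {E : Type*} [NormedAddCommGroup E] [InnerProductSpace ℝ E]
    [FiniteDimensional ℝ E] [MeasurableSpace E] [BorelSpace E] {p q δ : ℝ}

private theorem ae_ne {v : E} (hv : v ≠ 0) :
    ∀ᵐ x ∂(volume : Measure E), (inner ℝ v x : ℝ) ≠ 0 := by
  have h1 : (LinearMap.ker (innerₛₗ ℝ v)) ≠ ⊤ := by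
    intro h
    have h2 : v ∈ LinearMap.ker (innerₛₗ ℝ v) := by rw [h]; trivial
    have h3 : (inner ℝ v v : ℝ) = 0 := h2
    exact hv (inner_self_eq_zero.1 h3)
  have h2 := Measure.addHaar_submodule (volume : Measure E) _ h1
  rw [ae_iff]
  convert h2 using 2
  ext x
  simp

private theorem mom {K : Set E} {R : ℝ} (hK : CB K R) (hsymm : ∀ x ∈ K, -x ∈ K) {v : E}
    (hv : v ≠ 0) {e δ : ℝ} (hδ : 0 < δ) (he1 : e ≤ 1 - δ) (he2 : δ - 1 ≤ e) :
    IntegrableOn (fun x => (|inner ℝ v x| / m1 K v) ^ e) K ∧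
      ∫ x in K, (|inner ℝ v x| / m1 K v) ^ e ≤ δ⁻¹ * volume.real K := by
  have hm := m1_pos hK hv
  have hrew : (fun x : E => (|inner ℝ v x| / m1 K v) ^ e) =
      fun x => |inner ℝ v x| ^ e * (m1 K v ^ e)⁻¹ := by
    funext x
    rw [Real.div_rpow (abs_nonneg _) hm.le, div_eq_mul_inv]
  rw [hrew]
  have hme : 0 < m1 K v ^ e := Real.rpow_pos_of_pos hm _
  have hδ1 : δ ≤ 1 := by linarith
  have hV : 0 ≤ volume.real K := measureReal_nonneg
  rcases le_total 0 e with he | he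
  · obtain ⟨hi, hb⟩ := moment_pos hK hv he (by linarith : e < 1)
    refine ⟨hi.mul_const _, ?_⟩
    rw [integral_mul_const]
    have h1 : (∫ x in K, |inner ℝ v x| ^ e) * (m1 K v ^ e)⁻¹ ≤
        (m1 K v ^ e * volume.real K) * (m1 K v ^ e)⁻¹ :=
      mul_le_mul_of_nonneg_right hb (inv_nonneg.2 hme.le)
    have h2 : (m1 K v ^ e * volume.real K) * (m1 K v ^ e)⁻¹ = volume.real K := by
      field_simp
    have h3 : volume.real K ≤ δ⁻¹ * volume.real K := by
      have : 1 ≤ δ⁻¹ := (one_le_inv₀ hδ).2 hδ1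
      nlinarith
    linarith
  · obtain ⟨hi, hb⟩ := moment_neg hK hsymm hv (a := -e) (by linarith) (by linarith)
    rw [neg_neg] at hi hb
    refine ⟨hi.mul_const _, ?_⟩
    rw [integral_mul_const]
    have h1 : (∫ x in K, |inner ℝ v x| ^ e) * (m1 K v ^ e)⁻¹ ≤
        ((1 - -e)⁻¹ * m1 K v ^ e * volume.real K) * (m1 K v ^ e)⁻¹ :=
      mul_le_mul_of_nonneg_right hb (inv_nonneg.2 hme.le)
    have h2 : ((1 - -e)⁻¹ * m1 K v ^ e * volume.real K) * (m1 K v ^ e)⁻¹ =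
        (1 - -e)⁻¹ * volume.real K := by
      have : (1 - -e) ≠ 0 := by linarith
      field_simp
    have h3 : (1 - -e)⁻¹ ≤ δ⁻¹ := by
      apply inv_anti₀ hδ
      linarith
    have h4 : (1 - -e)⁻¹ * volume.real K ≤ δ⁻¹ * volume.real K :=
      mul_le_mul_of_nonneg_right h3 hV
    linarith

private theorem kap_abs (φ : ℝ → ℝ) (s : ℝ) : kap φ |s| = kap φ s := by
  unfold kap
  rw [abs_abs]

private theorem kap_le {φ : ℝ → ℝ} (hφ : Orl p q φ) {m s : ℝ} (hm : 0 < m) (hs : 0 < s) :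
    kap φ s ≤ kap φ m * ((s / m) ^ (q - 2) + (s / m) ^ (p - 2)) := by
  have hkm := hφ.kap_pos hm.ne'
  have hsm : 0 < s / m := div_pos hs hm
  have e1 : ∀ e : ℝ, (s / m) ^ (e - 2) = m ^ (2 - e) * (s ^ (2 - e))⁻¹ := by
    intro e
    rw [Real.div_rpow hs.le hm.le, show e - 2 = -(2 - e) by ring, Real.rpow_neg hs.le,
      Real.rpow_neg hm.le]
    field_simp
  have p1 : 0 < (s / m) ^ (q - 2) := Real.rpow_pos_of_pos hsm _
  have p2 : 0 < (s / m) ^ (p - 2) := Real.rpow_pos_of_pos hsm _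
  rcases le_total m s with h | h
  · have h1 := hφ.kap_up hm h
    have h2 : kap φ s ≤ kap φ m * (s / m) ^ (q - 2) := by
      rw [e1 q, ← mul_assoc, ← div_eq_mul_inv, le_div_iff₀ (Real.rpow_pos_of_pos hs _)]
      exact h1
    nlinarith [mul_pos hkm p2]
  · have h1 := hφ.kap_low hs h
    have h2 : kap φ s ≤ kap φ m * (s / m) ^ (p - 2) := by
      rw [e1 p, ← mul_assoc, ← div_eq_mul_inv, le_div_iff₀ (Real.rpow_pos_of_pos hs _)]
      exact h1
    nlinarith [mul_pos hkm p1]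

private theorem kap_inv_le {φ : ℝ → ℝ} (hφ : Orl p q φ) {m s : ℝ} (hm : 0 < m) (hs : 0 < s) :
    (kap φ s)⁻¹ ≤ (kap φ m)⁻¹ * ((s / m) ^ (2 - q) + (s / m) ^ (2 - p)) := by
  have hkm := hφ.kap_pos hm.ne'
  have hks := hφ.kap_pos hs.ne'
  have hsm : 0 < s / m := div_pos hs hm
  have p1 : 0 < (s / m) ^ (2 - q) := Real.rpow_pos_of_pos hsm _
  have p2 : 0 < (s / m) ^ (2 - p) := Real.rpow_pos_of_pos hsm _
  have key : ∀ e : ℝ, kap φ m * m ^ (2 - e) ≤ kap φ s * s ^ (2 - e) →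
      (kap φ s)⁻¹ ≤ (kap φ m)⁻¹ * (s / m) ^ (2 - e) := by
    intro e he
    rw [Real.div_rpow hs.le hm.le]
    have hme : 0 < m ^ (2 - e) := Real.rpow_pos_of_pos hm _
    rw [inv_mul_eq_div, inv_eq_one_div, div_div, div_le_div_iff₀ hks (mul_pos hme hkm)]
    nlinarith
  have hi : 0 < (kap φ m)⁻¹ := inv_pos.2 hkm
  rcases le_total m s with h | h
  · have h2 := key p (hφ.kap_low hm h)
    nlinarith [mul_pos hi p1]
  · have h2 := key q (hφ.kap_up hs h)
    nlinarith [mul_pos hi p2]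

private theorem kap_meas {φ : ℝ → ℝ} (hφ : Orl p q φ) (v : E) :
    Measurable (fun x : E => kap φ (inner ℝ v x)) := by
  have h1 : Continuous (deriv φ) := hφ.c1.continuous_deriv le_rfl
  have h2 : Continuous (fun x : E => |(inner ℝ v x : ℝ)|) :=
    (continuous_const.inner continuous_id).abs
  unfold kap
  exact ((h1.comp h2).measurable).div h2.measurable

private theorem kap_nonneg {φ : ℝ → ℝ} (hφ : Orl p q φ) (s : ℝ) : 0 ≤ kap φ s := by
  by_cases h : s = 0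
  · subst h
    simp [kap]
  · exact (hφ.kap_pos h).le

private theorem bound1 {K : Set E} {R : ℝ} (hK : CB K R) (hsymm : ∀ x ∈ K, -x ∈ K) {v : E}
    (hv : v ≠ 0) {φ : ℝ → ℝ} (hφ : Orl p q φ) (hpq : p ≤ q) (hδ : 0 < δ)
    (hδp : δ ≤ p - 1) (hδq : δ ≤ 3 - q) :
    IntegrableOn (fun x => kap φ (inner ℝ v x)) K ∧
      ∫ x in K, kap φ (inner ℝ v x) ≤ kap φ (m1 K v) * (2 / δ * volume.real K) := by
  have hm := m1_pos hK hv
  obtain ⟨i1, b1⟩ := mom hK hsymm hv (e := q - 2) hδ (by linarith) (by linarith)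
  obtain ⟨i2, b2⟩ := mom hK hsymm hv (e := p - 2) hδ (by linarith) (by linarith)
  have hle : ∀ᵐ x ∂(volume.restrict K), kap φ (inner ℝ v x) ≤
      kap φ (m1 K v) * ((|inner ℝ v x| / m1 K v) ^ (q - 2) +
        (|inner ℝ v x| / m1 K v) ^ (p - 2)) := by
    filter_upwards [ae_restrict_of_ae (ae_ne hv)] with x hx
    rw [← kap_abs]
    exact kap_le hφ hm (abs_pos.2 hx)
  have hint := ((i1.add i2).const_mul (kap φ (m1 K v)))
  have hI : IntegrableOn (fun x => kap φ (inner ℝ v x)) K := by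
    refine Integrable.mono' hint (kap_meas hφ v).aestronglyMeasurable ?_
    filter_upwards [hle] with x hx
    rw [Real.norm_of_nonneg (kap_nonneg hφ _)]
    exact hx
  refine ⟨hI, (integral_mono_ae hI hint hle).trans ?_⟩
  have : ∫ x in K, kap φ (m1 K v) * ((fun x => (|inner ℝ v x| / m1 K v) ^ (q - 2)) +
      (fun x => (|inner ℝ v x| / m1 K v) ^ (p - 2))) x =
      kap φ (m1 K v) * ((∫ x in K, (|inner ℝ v x| / m1 K v) ^ (q - 2)) +
        ∫ x in K, (|inner ℝ v x| / m1 K v) ^ (p - 2)) := by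
    rw [integral_const_mul, integral_add' i1 i2]
  rw [this]
  refine mul_le_mul_of_nonneg_left ?_ (kap_nonneg hφ _)
  have h3 : 2 / δ * volume.real K = δ⁻¹ * volume.real K + δ⁻¹ * volume.real K := by
    ring
  linarith

private theorem bound2 {K : Set E} {R : ℝ} (hK : CB K R) (hsymm : ∀ x ∈ K, -x ∈ K) {v : E}
    (hv : v ≠ 0) {φ : ℝ → ℝ} (hφ : Orl p q φ) (hpq : p ≤ q) (hδ : 0 < δ)
    (hδp : δ ≤ p - 1) (hδq : δ ≤ 3 - q) :
    IntegrableOn (fun x => (kap φ (inner ℝ v x))⁻¹) K ∧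
      ∫ x in K, (kap φ (inner ℝ v x))⁻¹ ≤ (kap φ (m1 K v))⁻¹ * (2 / δ * volume.real K) := by
  have hm := m1_pos hK hv
  obtain ⟨i1, b1⟩ := mom hK hsymm hv (e := 2 - q) hδ (by linarith) (by linarith)
  obtain ⟨i2, b2⟩ := mom hK hsymm hv (e := 2 - p) hδ (by linarith) (by linarith)
  have hle : ∀ᵐ x ∂(volume.restrict K), (kap φ (inner ℝ v x))⁻¹ ≤
      (kap φ (m1 K v))⁻¹ * ((|inner ℝ v x| / m1 K v) ^ (2 - q) +
        (|inner ℝ v x| / m1 K v) ^ (2 - p)) := by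
    filter_upwards [ae_restrict_of_ae (ae_ne hv)] with x hx
    rw [← kap_abs]
    exact kap_inv_le hφ hm (abs_pos.2 hx)
  have hint := ((i1.add i2).const_mul (kap φ (m1 K v))⁻¹)
  have hI : IntegrableOn (fun x => (kap φ (inner ℝ v x))⁻¹) K := by
    refine Integrable.mono' hint (kap_meas hφ v).inv.aestronglyMeasurable ?_
    filter_upwards [hle] with x hx
    rw [Real.norm_of_nonneg (inv_nonneg.2 (kap_nonneg hφ _))]
    exact hx
  refine ⟨hI, (integral_mono_ae hI hint hle).trans ?_⟩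
  have : ∫ x in K, (kap φ (m1 K v))⁻¹ * ((fun x => (|inner ℝ v x| / m1 K v) ^ (2 - q)) +
      (fun x => (|inner ℝ v x| / m1 K v) ^ (2 - p))) x =
      (kap φ (m1 K v))⁻¹ * ((∫ x in K, (|inner ℝ v x| / m1 K v) ^ (2 - q)) +
        ∫ x in K, (|inner ℝ v x| / m1 K v) ^ (2 - p)) := by
    rw [integral_const_mul, integral_add' i1 i2]
  rw [this]
  refine mul_le_mul_of_nonneg_left ?_ (inv_nonneg.2 (kap_nonneg hφ _))
  have h3 : 2 / δ * volume.real K = δ⁻¹ * volume.real K + δ⁻¹ * volume.real K := by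
    ring
  linarith

private theorem pos_int {K : Set E} {R : ℝ} (hK : CB K R) {f : E → ℝ} (hf0 : ∀ x, 0 ≤ f x)
    (hf : ∀ᵐ x ∂(volume : Measure E), f x ≠ 0) (hi : IntegrableOn f K) :
    0 < ∫ x in K, f x := by
  rw [setIntegral_pos_iff_support_of_nonneg_ae (Filter.Eventually.of_forall hf0) hi]
  have h1 : volume (Function.support f ∩ K) = volume K := by
    have : (Function.support f ∩ K : Set E) =ᵐ[volume] K := by
      filter_upwards [hf] with x hx
      have : (x ∈ Function.support f ∩ K) = (x ∈ K) := by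
        simp [Function.mem_support, hx]
      exact this
    exact measure_congr this
  rw [h1]
  exact pos_iff_ne_zero.2 hK.vol0

theorem kap_int {K : Set E} {R : ℝ} (hK : CB K R) (hsymm : ∀ x ∈ K, -x ∈ K) {v : E}
    (hv : v ≠ 0) {φ : ℝ → ℝ} (hφ : Orl p q φ) (hp : 1 < p) (hpq : p ≤ q) (hq : q < 3) :
    IntegrableOn (fun x => kap φ (inner ℝ v x)) K ∧
      IntegrableOn (fun x => (kap φ (inner ℝ v x))⁻¹) K ∧
      0 < ∫ x in K, kap φ (inner ℝ v x) ∧ 0 < ∫ x in K, (kap φ (inner ℝ v x))⁻¹ := by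
  have hδ : 0 < min (p - 1) (3 - q) := lt_min (by linarith) (by linarith)
  obtain ⟨i1, -⟩ := bound1 hK hsymm hv hφ hpq hδ (min_le_left _ _) (min_le_right _ _)
  obtain ⟨i2, -⟩ := bound2 hK hsymm hv hφ hpq hδ (min_le_left _ _) (min_le_right _ _)
  refine ⟨i1, i2, pos_int hK (fun x => kap_nonneg hφ _) ?_ i1,
    pos_int hK (fun x => inv_nonneg.2 (kap_nonneg hφ _)) ?_ i2⟩
  · filter_upwards [ae_ne hv] with x hx using (hφ.kap_pos hx).ne'
  · filter_upwards [ae_ne hv] with x hx using (inv_pos.2 (hφ.kap_pos hx)).ne'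

theorem A2_gen {K : Set E} {R : ℝ} (hK : CB K R) (hsymm : ∀ x ∈ K, -x ∈ K) {v : E}
    (hv : v ≠ 0) {φ : ℝ → ℝ} (hφ : Orl p q φ) (hp : 1 < p) (hpq : p ≤ q) (hδ : 0 < δ)
    (hδp : δ ≤ p - 1) (hδq : δ ≤ 3 - q) :
    (∫ x in K, kap φ (inner ℝ v x)) * (∫ x in K, (kap φ (inner ℝ v x))⁻¹) ≤
      4 / δ ^ 2 * volume.real K ^ 2 := by
  obtain ⟨i1, b1⟩ := bound1 hK hsymm hv hφ hpq hδ hδp hδq
  obtain ⟨i2, b2⟩ := bound2 hK hsymm hv hφ hpq hδ hδp hδq
  obtain ⟨-, -, p1, p2⟩ := kap_int hK hsymm hv hφ hp hpq (by linarith)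
  have hkm := hφ.kap_pos (m1_pos hK hv).ne'
  have h := mul_le_mul b1 b2 p2.le (p1.le.trans b1)
  have : kap φ (m1 K v) * (2 / δ * volume.real K) *
      ((kap φ (m1 K v))⁻¹ * (2 / δ * volume.real K)) = 4 / δ ^ 2 * volume.real K ^ 2 := by
    field_simp
    ring
  linarith

theorem A2_pow {K : Set E} {R : ℝ} (hK : CB K R) (hsymm : ∀ x ∈ K, -x ∈ K) {v : E}
    (hv : v ≠ 0) (hp : 1 < p) (hδ : 0 < δ) (hδp : δ ≤ p - 1) (hδq : δ ≤ 3 - p) :
    (∫ x in K, kap (fun s => |s| ^ p) (inner ℝ v x)) *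
        (∫ x in K, (kap (fun s => |s| ^ p) (inner ℝ v x))⁻¹) ≤
      1 / δ * volume.real K ^ 2 := by
  have hm := m1_pos hK hv
  have hp0 : (0:ℝ) < p := by linarith
  have e1 : ∫ x in K, kap (fun s => |s| ^ p) (inner ℝ v x) =
      p * ∫ x in K, |inner ℝ v x| ^ (p - 2) := by
    rw [← integral_const_mul]
    refine integral_congr_ae (ae_restrict_of_ae ?_)
    filter_upwards [ae_ne hv] with x hx
    exact kap_rpow hp hx
  have e2 : ∫ x in K, (kap (fun s => |s| ^ p) (inner ℝ v x))⁻¹ =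
      p⁻¹ * ∫ x in K, |inner ℝ v x| ^ (2 - p) := by
    rw [← integral_const_mul]
    refine integral_congr_ae (ae_restrict_of_ae ?_)
    filter_upwards [ae_ne hv] with x hx
    show (kap (fun s => |s| ^ p) (inner ℝ v x))⁻¹ = p⁻¹ * |inner ℝ v x| ^ (2 - p)
    rw [kap_rpow hp hx, mul_inv, ← Real.rpow_neg (abs_nonneg _)]
    congr 2
    ring
  rw [e1, e2]
  have hprod : p * (∫ x in K, |inner ℝ v x| ^ (p - 2)) *
      (p⁻¹ * ∫ x in K, |inner ℝ v x| ^ (2 - p)) =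
      (∫ x in K, |inner ℝ v x| ^ (p - 2)) * ∫ x in K, |inner ℝ v x| ^ (2 - p) := by
    field_simp
  rw [hprod]
  have hV : 0 ≤ volume.real K := measureReal_nonneg
  have hnn : ∀ e : ℝ, 0 ≤ ∫ x in K, |inner ℝ v x| ^ e := fun e =>
    integral_nonneg fun x => Real.rpow_nonneg (abs_nonneg _) _
  -- general estimate
  have key : ∀ a : ℝ, 0 ≤ a → a ≤ 1 - δ →
      (∫ x in K, |inner ℝ v x| ^ a) * (∫ x in K, |inner ℝ v x| ^ (-a)) ≤
        1 / δ * volume.real K ^ 2 := by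
    intro a ha ha1
    obtain ⟨-, b1⟩ := moment_pos hK hv ha (by linarith : a < 1)
    obtain ⟨-, b2⟩ := moment_neg hK hsymm hv ha (by linarith : a < 1)
    have h := mul_le_mul b1 b2 (hnn _) ((hnn _).trans b1)
    have hma : 0 < m1 K v ^ a := Real.rpow_pos_of_pos hm _
    have h2 : m1 K v ^ a * volume.real K * ((1 - a)⁻¹ * m1 K v ^ (-a) * volume.real K) =
        (1 - a)⁻¹ * volume.real K ^ 2 := by
      rw [Real.rpow_neg hm.le]
      field_simp
    have h3 : (1 - a)⁻¹ ≤ 1 / δ := by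
      rw [one_div]
      exact inv_anti₀ hδ (by linarith)
    have h4 : (1 - a)⁻¹ * volume.real K ^ 2 ≤ 1 / δ * volume.real K ^ 2 :=
      mul_le_mul_of_nonneg_right h3 (sq_nonneg _)
    linarith
  rcases le_total 2 p with h | h
  · have := key (p - 2) (by linarith) (by linarith)
    rwa [neg_sub] at this
  · have := key (2 - p) (by linarith) (by linarith)
    rw [neg_sub] at this
    rw [mul_comm]
    exact this

end Pool.Agent.H73.Lp
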