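import Pool.Agent.H73.Lp.Defs
import Pool.Agent.H91.Sym.A1

/-!
# Module CRI: the Cramér-Rao type inequality inside the body, smooth case
-/

set_option autoImplicit false

open MeasureTheory Set Filter Topology

namespace Pool.Agent.H73.Lp

open Pool.Agent.H84.Sym

private theorem hasDerivAt_q (y : ℝ) : HasDerivAt (fun y : ℝ => (max y 0) ^ 2) (2 * max y 0) y := by
  rcases lt_trichotomy y 0 with h | h | h
  · have h1 : (fun y : ℝ => (max y 0) ^ 2) =ᶠ[𝓝 y] fun _ => (0 : ℝ) := by
      filter_upwards [gt_mem_nhds h] with z hz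
      rw [max_eq_right hz.le]; simp
    rw [max_eq_right h.le, mul_zero]
    exact (hasDerivAt_const y (0 : ℝ)).congr_of_eventuallyEq h1
  · subst h
    simp only [max_self, mul_zero]
    rw [hasDerivAt_iff_isLittleO_nhds_zero]
    have : (fun h : ℝ => (max (0 + h) 0) ^ 2 - (max (0:ℝ) 0) ^ 2 - h • (0:ℝ)) =O[𝓝 0]
        fun h : ℝ => h ^ 2 := by
      refine Asymptotics.IsBigO.of_bound 1 (Eventually.of_forall fun z => ?_)
      simp only [zero_add, max_self, smul_eq_mul, mul_zero, sub_zero, one_mul]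
      rw [zero_pow two_ne_zero, sub_zero, Real.norm_eq_abs, Real.norm_eq_abs, abs_pow, abs_pow]
      refine pow_le_pow_left₀ (abs_nonneg _) ?_ 2
      rcases le_total z 0 with hz | hz
      · rw [max_eq_right hz]; simp
      · rw [max_eq_left hz]
    refine this.trans_isLittleO ?_
    exact Asymptotics.isLittleO_pow_id (by norm_num)
  · have h1 : (fun y : ℝ => (max y 0) ^ 2) =ᶠ[𝓝 y] fun y => y ^ 2 := by
      filter_upwards [lt_mem_nhds h] with z hz
      rw [max_eq_left hz.le]
    rw [max_eq_left h.le]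
    have := (hasDerivAt_pow 2 y).congr_of_eventuallyEq h1
    simpa using this

private theorem contDiff_q : ContDiff ℝ 1 (fun y : ℝ => (max y 0) ^ 2) := by
  rw [contDiff_one_iff_deriv]
  refine ⟨fun y => (hasDerivAt_q y).differentiableAt, ?_⟩
  have : deriv (fun y : ℝ => (max y 0) ^ 2) = fun y => 2 * max y 0 :=
    funext fun y => (hasDerivAt_q y).deriv
  rw [this]
  fun_prop

variable {E : Type*} [NormedAddCommGroup E] [InnerProductSpace ℝ E]
    [FiniteDimensional ℝ E] [MeasurableSpace E] [BorelSpace E]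

private theorem cs_aux {P a b : E → ℝ} (hP : Continuous P) (hPc : HasCompactSupport P)
    (hP0 : ∀ x, 0 ≤ P x) (ha : Continuous a) (hb : Continuous b) :
    (∫ x, P x * a x * b x) ^ 2 ≤ (∫ x, P x * a x ^ 2) * ∫ x, P x * b x ^ 2 := by
  have i1 : Integrable fun x => P x * a x * b x := by
    refine Continuous.integrable_of_hasCompactSupport (by fun_prop) ?_
    exact (hPc.mul_right).mul_right
  have i2 : Integrable fun x => P x * a x ^ 2 := by
    refine Continuous.integrable_of_hasCompactSupport (by fun_prop) ?_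
    exact hPc.mul_right
  have i3 : Integrable fun x => P x * b x ^ 2 := by
    refine Continuous.integrable_of_hasCompactSupport (by fun_prop) ?_
    exact hPc.mul_right
  have key : ∀ t : ℝ, 0 ≤ (∫ x, P x * b x ^ 2) * (t * t) + (2 * ∫ x, P x * a x * b x) * t +
      ∫ x, P x * a x ^ 2 := by
    intro t
    have h0 : 0 ≤ ∫ x, P x * (t * b x + a x) ^ 2 :=
      integral_nonneg fun x => mul_nonneg (hP0 x) (sq_nonneg _)
    have h1 : ∫ x, P x * (t * b x + a x) ^ 2 =
        ∫ x, ((t * t) * (P x * b x ^ 2) + (2 * t) * (P x * a x * b x)) + P x * a x ^ 2 := by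
      congr 1; ext x; ring
    have i4 : Integrable fun x => (t * t) * (P x * b x ^ 2) := i3.const_mul _
    have i5 : Integrable fun x => (2 * t) * (P x * a x * b x) := i1.const_mul _
    have i6 : Integrable fun x => (t * t) * (P x * b x ^ 2) + (2 * t) * (P x * a x * b x) :=
      i4.add i5
    rw [h1, integral_add i6 i2, integral_add i4 i5, integral_const_mul, integral_const_mul] at h0
    linarith
  have := discrim_le_zero key
  unfold discrim at this
  nlinarith

theorem cri {Ψ : E → ℝ} (hΨ : ContDiff ℝ 2 Ψ) {R : ℝ} (hR : ∀ x, R ≤ ‖x‖ → 1 ≤ Ψ x) (w : E) :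
    (‖w‖ ^ 2 * ∫ x, (max (1 - Ψ x) 0) ^ 2) ^ 2 ≤
      2 * (∫ x, max (1 - Ψ x) 0 * (inner ℝ w x) ^ 2) *
        ∫ x, (max (1 - Ψ x) 0) ^ 2 * D w (D w Ψ) x := by
  have hΨ1 : ContDiff ℝ 1 Ψ := hΨ.of_le (by norm_num)
  have hDΨ : ContDiff ℝ 1 (D w Ψ) := contDiff_D hΨ (by norm_num) w
  have hP : Continuous fun x => max (1 - Ψ x) 0 := by
    have := hΨ.continuous
    fun_prop
  have hPc : HasCompactSupport fun x => max (1 - Ψ x) 0 := by
    refine HasCompactSupport.of_support_subset_isCompact (isCompact_closedBall (0:E) R) ?_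
    intro x hx
    rw [mem_closedBall_zero_iff]
    by_contra hxR
    rw [not_le] at hxR
    have := hR x hxR.le
    exact hx (by simp [this])
  have hP2 : ContDiff ℝ 1 fun x => (max (1 - Ψ x) 0) ^ 2 :=
    contDiff_q.comp (contDiff_const.sub hΨ1)
  have hP2c : HasCompactSupport fun x => (max (1 - Ψ x) 0) ^ 2 := by
    have := hPc.mul_right (f' := fun x => max (1 - Ψ x) 0)
    have e : (fun x => (max (1 - Ψ x) 0) ^ 2) =
        ((fun x => max (1 - Ψ x) 0) * fun x => max (1 - Ψ x) 0) := by
      ext x; simp [pow_two]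
    rw [e]; exact this
  have hDP : ∀ x, D w (fun x => (max (1 - Ψ x) 0) ^ 2) x = -(2 * max (1 - Ψ x) 0 * D w Ψ x) := by
    intro x
    have hd : HasFDerivAt (fun x => 1 - Ψ x) (-(fderiv ℝ Ψ x)) x := by
      have := (hΨ1.differentiable (by norm_num) x).hasFDerivAt
      exact this.const_sub 1
    have := (hasDerivAt_q (1 - Ψ x)).comp_hasFDerivAt x hd
    unfold D
    have h2 : fderiv ℝ (fun x => (max (1 - Ψ x) 0) ^ 2) x =
      (2 * max (1 - Ψ x) 0) • (-(fderiv ℝ Ψ x)) := this.fderiv
    rw [h2]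
    simp [mul_comm, mul_assoc]
  have hin : ContDiff ℝ 1 fun x : E => (inner ℝ w x : ℝ) := by
    exact (innerSL ℝ w).contDiff
  have hDin : ∀ x, D w (fun x : E => (inner ℝ w x : ℝ)) x = ‖w‖ ^ 2 := by
    intro x
    unfold D
    have : fderiv ℝ (fun x : E => (inner ℝ w x : ℝ)) x = innerSL ℝ w := (innerSL ℝ w).fderiv
    rw [this]
    simp
  have e1 : ‖w‖ ^ 2 * ∫ x, (max (1 - Ψ x) 0) ^ 2 =
      2 * ∫ x, max (1 - Ψ x) 0 * inner ℝ w x * D w Ψ x := by
    have h := ibp (hP2.mul hin) (hP2c.mul_right) w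
    have h2 : ∀ x, D w (fun x => (max (1 - Ψ x) 0) ^ 2 * (inner ℝ w x : ℝ)) x =
        ‖w‖ ^ 2 * (max (1 - Ψ x) 0) ^ 2 - 2 * (max (1 - Ψ x) 0 * inner ℝ w x * D w Ψ x) := by
      intro x
      rw [D_mul (hP2.differentiable (by norm_num) x) (hin.differentiable (by norm_num) x),
        hDP, hDin]
      ring
    simp_rw [h2] at h
    rw [integral_sub, integral_const_mul, integral_const_mul] at h
    · linarith
    · refine Integrable.const_mul ?_ _
      exact hP2.continuous.integrable_of_hasCompactSupport hP2c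
    · refine Integrable.const_mul ?_ _
      refine Continuous.integrable_of_hasCompactSupport ?_ ((hPc.mul_right).mul_right)
      have := hDΨ.continuous
      have := hin.continuous
      fun_prop
  have e2 : ∫ x, (max (1 - Ψ x) 0) ^ 2 * D w (D w Ψ) x =
      2 * ∫ x, max (1 - Ψ x) 0 * D w Ψ x ^ 2 := by
    have h := ibp (hP2.mul hDΨ) (hP2c.mul_right) w
    have h2 : ∀ x, D w (fun x => (max (1 - Ψ x) 0) ^ 2 * D w Ψ x) x =
        (max (1 - Ψ x) 0) ^ 2 * D w (D w Ψ) x - 2 * (max (1 - Ψ x) 0 * D w Ψ x ^ 2) := by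
      intro x
      rw [D_mul (hP2.differentiable (by norm_num) x) (hDΨ.differentiable (by norm_num) x), hDP]
      ring
    simp_rw [h2] at h
    have hc2 : Continuous (D w (D w Ψ)) :=
      (contDiff_D (m := 0) hDΨ (by norm_num) w).continuous
    rw [integral_sub, integral_const_mul] at h
    · linarith
    · refine Continuous.integrable_of_hasCompactSupport ?_ (hP2c.mul_right)
      exact hP2.continuous.mul hc2
    · refine Integrable.const_mul ?_ _
      refine Continuous.integrable_of_hasCompactSupport ?_ (hPc.mul_right)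
      have := hDΨ.continuous
      fun_prop
  have cs := cs_aux (a := fun x => inner ℝ w x) (b := D w Ψ) hP hPc (fun x => le_max_right _ _)
    hin.continuous hDΨ.continuous
  rw [e1, e2]
  nlinarith [cs]

end Pool.Agent.H73.Lp
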