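import Pool.Agent.H73.Lp.ORL

/-!
# Module PRF: regularisation of the profile functions
-/

set_option autoImplicit false

open MeasureTheory Set

namespace Pool.Agent.H73.Lp

open Pool.Agent.H84.Sym

variable {p q ε R : ℝ} {φ : ℝ → ℝ}

theorem psi_zero (g : ℝ → ℝ) : psi g 0 = 0 := by
  simp [psi]

private theorem psi_eq {g : ℝ → ℝ} (hg : Continuous g) (s : ℝ) :
    psi g s = s * (∫ u in (0:ℝ)..s, g u) - ∫ u in (0:ℝ)..s, u * g u := by
  unfold psi
  rw [← intervalIntegral.integral_const_mul, ← intervalIntegral.integral_sub]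
  · congr 1
    ext u
    ring
  · exact (continuous_const.mul hg).intervalIntegrable _ _
  · exact (continuous_id.mul hg).intervalIntegrable _ _

private theorem hasDerivAt_prim {g : ℝ → ℝ} (hg : Continuous g) (s : ℝ) :
    HasDerivAt (fun t => ∫ u in (0:ℝ)..t, g u) (g s) s :=
  intervalIntegral.integral_hasDerivAt_right (hg.intervalIntegrable _ _)
    (hg.stronglyMeasurableAtFilter _ _) hg.continuousAt

private theorem hasDerivAt_psi {g : ℝ → ℝ} (hg : Continuous g) (s : ℝ) :
    HasDerivAt (psi g) (∫ u in (0:ℝ)..s, g u) s := by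
  have h1 := hasDerivAt_prim hg s
  have h2 := hasDerivAt_prim (continuous_id.mul hg) s
  have h3 := ((hasDerivAt_id s).mul h1).sub h2
  have h4 : psi g = fun t => t * (∫ u in (0:ℝ)..t, g u) - ∫ u in (0:ℝ)..t, u * g u := by
    ext t
    exact psi_eq hg t
  rw [h4]
  refine h3.congr_deriv ?_
  simp only [id, Pi.mul_apply]
  ring

theorem psi_spec {g : ℝ → ℝ} (hg : Continuous g) :
    ContDiff ℝ 2 (psi g) ∧ (∀ s, deriv (psi g) s = ∫ u in (0:ℝ)..s, g u) ∧
      ∀ s, deriv (deriv (psi g)) s = g s := by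
  have h1 : deriv (psi g) = fun s => ∫ u in (0:ℝ)..s, g u := by
    ext s
    exact (hasDerivAt_psi hg s).deriv
  have h2 : deriv (deriv (psi g)) = g := by
    rw [h1]
    ext s
    exact (hasDerivAt_prim hg s).deriv
  refine ⟨?_, fun s => congrFun h1 s, fun s => congrFun h2 s⟩
  have e2 : (2 : WithTop ℕ∞) = 1 + 1 := by norm_num
  rw [e2, contDiff_succ_iff_deriv]
  refine ⟨fun s => (hasDerivAt_psi hg s).differentiableAt, by simp, ?_⟩
  have e1 : (1 : WithTop ℕ∞) = 0 + 1 := by norm_num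
  rw [e1, contDiff_succ_iff_deriv]
  refine ⟨?_, by simp, ?_⟩
  · rw [h1]
    exact fun s => (hasDerivAt_prim hg s).differentiableAt
  · rw [h2]
    exact contDiff_zero.2 hg

theorem psi_deriv_bound {g : ℝ → ℝ} (hg : Continuous g) {M : ℝ} (hM : ∀ s, |g s| ≤ M) (s : ℝ) :
    |deriv (psi g) s| ≤ M * |s| := by
  rw [(psi_spec hg).2.1 s]
  have := intervalIntegral.norm_integral_le_of_norm_le_const (a := (0:ℝ)) (b := s) (f := g) (C := M)
    (fun x _ => by simpa using hM x)
  simpa using this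

theorem psi_lower {g : ℝ → ℝ} (hg : Continuous g) {m : ℝ} (hm : ∀ s, m ≤ g s) (s : ℝ) :
    m / 2 * s ^ 2 ≤ psi g s := by
  have hint : ∫ u in (0:ℝ)..s, (s - u) * m = m / 2 * s ^ 2 := by
    rw [intervalIntegral.integral_mul_const, intervalIntegral.integral_sub (by simp) (by simp)]
    simp
    ring
  have hi1 : IntervalIntegrable (fun u => (s - u) * m) volume 0 s :=
    (by fun_prop : Continuous fun u : ℝ => (s - u) * m).intervalIntegrable _ _
  have hi2 : IntervalIntegrable (fun u => (s - u) * g u) volume 0 s :=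
    (by fun_prop : Continuous fun u : ℝ => (s - u) * g u).intervalIntegrable _ _
  rw [← hint]
  unfold psi
  rcases le_total 0 s with hs | hs
  · apply intervalIntegral.integral_mono_on hs hi1 hi2
    intro u hu
    exact mul_le_mul_of_nonneg_left (hm u) (by linarith [hu.2])
  · rw [intervalIntegral.integral_symm s 0, intervalIntegral.integral_symm s 0]
    have : ∫ u in s..0, (s - u) * g u ≤ ∫ u in s..0, (s - u) * m := by
      apply intervalIntegral.integral_mono_on hs hi2.symm hi1.symm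
      intro u hu
      exact mul_le_mul_of_nonpos_left (hm u) (by linarith [hu.1])
    linarith

private theorem dd_cont (h : Orl p q φ) : ContinuousOn (deriv (deriv φ)) (Ioi 0) := by
  have h1 : ContDiffOn ℝ 1 (deriv φ) (Ioi 0) := by
    have e2 : (2 : WithTop ℕ∞) = 1 + 1 := by norm_num
    have := h.c2
    rw [e2, contDiffOn_succ_iff_deriv_of_isOpen isOpen_Ioi] at this
    exact this.2.2
  have e1 : (1 : WithTop ℕ∞) = 0 + 1 := by norm_num
  rw [e1, contDiffOn_succ_iff_deriv_of_isOpen isOpen_Ioi] at h1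
  exact contDiffOn_zero.1 h1.2.2

private theorem d_diff (h : Orl p q φ) {s : ℝ} (hs : 0 < s) :
    HasDerivAt (deriv φ) (deriv (deriv φ) s) s := by
  have e2 : (2 : WithTop ℕ∞) = 1 + 1 := by norm_num
  have h1 := h.c2
  rw [e2, contDiffOn_succ_iff_deriv_of_isOpen isOpen_Ioi] at h1
  have h2 : DifferentiableOn ℝ (deriv φ) (Ioi 0) := h1.2.2.differentiableOn (by norm_num)
  exact ((h2 s hs).differentiableAt (Ioi_mem_nhds hs)).hasDerivAt

private theorem dd_pos (h : Orl p q φ) (hp : 1 < p) {s : ℝ} (hs : 0 < s) :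
    0 < deriv (deriv φ) s := by
  have h1 := h.lower s hs
  have h2 : 0 < (p - 1) * deriv φ s := mul_pos (by linarith) (h.pos s hs)
  exact pos_of_mul_pos_right (h2.trans_le h1) hs.le

theorem gg_continuous (h : Orl p q φ) (hε : 0 < ε) (hR : ε < R) : Continuous (gg φ ε R) := by
  unfold gg
  refine ContinuousOn.comp_continuous (dd_cont h) (by fun_prop) ?_
  intro s
  exact lt_min (lt_max_of_lt_right hε) (hε.trans hR)

private theorem clamp_mem (hR : ε < R) (s : ℝ) : min (max |s| ε) R ∈ Icc ε R :=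
  ⟨le_min (le_max_right _ _) hR.le, min_le_right _ _⟩

theorem gg_bounds (h : Orl p q φ) (hp : 1 < p) (hε : 0 < ε) (hR : ε < R) :
    ∃ m M : ℝ, 0 < m ∧ ∀ s, m ≤ gg φ ε R s ∧ gg φ ε R s ≤ M := by
  have hc : ContinuousOn (deriv (deriv φ)) (Icc ε R) :=
    (dd_cont h).mono (fun s hs => hε.trans_le hs.1)
  have hne : (Icc ε R).Nonempty := ⟨ε, le_refl _, hR.le⟩
  obtain ⟨a, ha, ha2⟩ := isCompact_Icc.exists_isMinOn hne hc
  obtain ⟨b, hb, hb2⟩ := isCompact_Icc.exists_isMaxOn hne hc
  refine ⟨deriv (deriv φ) a, deriv (deriv φ) b, dd_pos h hp (hε.trans_le ha.1), fun s => ?_⟩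
  exact ⟨ha2 (clamp_mem hR s), hb2 (clamp_mem hR s)⟩

private theorem psi_even {g : ℝ → ℝ} (hge : ∀ s, g (-s) = g s) (s : ℝ) :
    psi g (-s) = psi g s := by
  unfold psi
  have : ∫ u in (0:ℝ)..(-s), (-s - u) * g u = ∫ u in (-0:ℝ)..(-s), (-s - u) * g u := by simp
  rw [this, ← intervalIntegral.integral_comp_neg (fun u => (-s - u) * g u)]
  rw [intervalIntegral.integral_symm]
  rw [← intervalIntegral.integral_neg]
  congr 1
  ext u
  rw [hge]
  ring

theorem psi_gg_close (h : Orl p q φ) (hp : 1 < p) (hpq : p ≤ q) (hq : q < 3) (hε : 0 < ε)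
    (hR : ε < R) {s : ℝ} (hs : |s| ≤ R) : |psi (gg φ ε R) s - φ s| ≤ 2 * R * deriv φ ε := by
  have hg := gg_continuous h hε hR
  -- reduction to nonnegative arguments
  have key : ∀ s : ℝ, 0 ≤ s → s ≤ R → |psi (gg φ ε R) s - φ s| ≤ 2 * R * deriv φ ε := by
    intro s hs0 hsR
    have hdpos : 0 < deriv φ ε := h.pos ε hε
    have hdφ : ∀ x, HasDerivAt φ (deriv φ x) x := fun x =>
      ((h.c1.differentiable (by norm_num)) x).hasDerivAt
    have hder : ∀ x, HasDerivAt (fun t => psi (gg φ ε R) t - φ t)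
        ((∫ u in (0:ℝ)..x, gg φ ε R u) - deriv φ x) x := fun x =>
      (hasDerivAt_psi hg x).sub (hdφ x)
    -- the derivative on `[0, ε]`
    have hsmall : ∀ x, 0 ≤ x → x ≤ ε → (∫ u in (0:ℝ)..x, gg φ ε R u) = x * deriv (deriv φ) ε := by
      intro x hx0 hx
      have : ∫ u in (0:ℝ)..x, gg φ ε R u = ∫ u in (0:ℝ)..x, deriv (deriv φ) ε := by
        apply intervalIntegral.integral_congr
        intro u hu
        rw [uIcc_of_le hx0] at hu
        unfold gg
        rw [abs_of_nonneg hu.1, max_eq_right (hu.2.trans hx), min_eq_left hR.le]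
      rw [this]
      simp
    have hD1 : ∀ x, 0 ≤ x → x ≤ ε →
        |(∫ u in (0:ℝ)..x, gg φ ε R u) - deriv φ x| ≤ 2 * deriv φ ε := by
      intro x hx0 hx
      rw [hsmall x hx0 hx]
      have e1 : 0 ≤ x * deriv (deriv φ) ε := mul_nonneg hx0 (dd_pos h hp hε).le
      have e2 : x * deriv (deriv φ) ε ≤ ε * deriv (deriv φ) ε :=
        mul_le_mul_of_nonneg_right hx (dd_pos h hp hε).le
      have e3 := h.upper ε hε
      have e4 : (q - 1) * deriv φ ε ≤ 2 * deriv φ ε :=
        mul_le_mul_of_nonneg_right (by linarith) hdpos.le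
      have e5 : deriv φ x ≤ deriv φ ε := h.deriv_mono hp hx0 hx
      have e6 : 0 ≤ deriv φ x := by
        have := h.deriv_mono hp (le_refl 0) hx0
        rwa [h.deriv_zero] at this
      rw [abs_le]
      constructor <;> linarith
    have hD2 : ∀ x, ε ≤ x → x ≤ R →
        (∫ u in (0:ℝ)..x, gg φ ε R u) - deriv φ x = (∫ u in (0:ℝ)..ε, gg φ ε R u) - deriv φ ε := by
      intro x hx hxR
      have h1 : ∫ u in ε..x, gg φ ε R u = deriv φ x - deriv φ ε := by
        have h2 : ∫ u in ε..x, gg φ ε R u = ∫ u in ε..x, deriv (deriv φ) u := by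
          apply intervalIntegral.integral_congr
          intro u hu
          rw [uIcc_of_le hx] at hu
          have hu0 : 0 < u := hε.trans_le hu.1
          change gg φ ε R u = _
          unfold gg
          rw [abs_of_nonneg hu0.le, max_eq_left hu.1, min_eq_left (hu.2.trans hxR)]
        rw [h2]
        apply intervalIntegral.integral_eq_sub_of_hasDerivAt
        · intro u hu
          rw [uIcc_of_le hx] at hu
          exact d_diff h (hε.trans_le hu.1)
        · apply ContinuousOn.intervalIntegrable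
          apply (dd_cont h).mono
          intro u hu
          rw [uIcc_of_le hx] at hu
          exact hε.trans_le hu.1
      have h3 : (∫ u in (0:ℝ)..ε, gg φ ε R u) + ∫ u in ε..x, gg φ ε R u
          = ∫ u in (0:ℝ)..x, gg φ ε R u :=
        intervalIntegral.integral_add_adjacent_intervals (hg.intervalIntegrable _ _)
          (hg.intervalIntegrable _ _)
      linarith
    have hD : ∀ x ∈ Icc (0:ℝ) R, ‖(∫ u in (0:ℝ)..x, gg φ ε R u) - deriv φ x‖ ≤ 2 * deriv φ ε := by
      intro x hx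
      rw [Real.norm_eq_abs]
      rcases le_total x ε with hxe | hxe
      · exact hD1 x hx.1 hxe
      · rw [hD2 x hxe hx.2]
        exact hD1 ε hε.le le_rfl
    have := Convex.norm_image_sub_le_of_norm_hasDerivWithin_le (s := Icc (0:ℝ) R)
      (f := fun t => psi (gg φ ε R) t - φ t)
      (f' := fun x => (∫ u in (0:ℝ)..x, gg φ ε R u) - deriv φ x) (C := 2 * deriv φ ε)
      (fun x _ => (hder x).hasDerivWithinAt) hD (convex_Icc _ _)
      (left_mem_Icc.2 (hε.trans hR).le) (⟨hs0, hsR⟩ : s ∈ Icc (0:ℝ) R)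
    simp only [psi_zero, h.zero, sub_zero, Real.norm_eq_abs] at this
    rw [abs_of_nonneg hs0] at this
    calc |psi (gg φ ε R) s - φ s| ≤ 2 * deriv φ ε * s := this
      _ ≤ 2 * deriv φ ε * R := mul_le_mul_of_nonneg_left hsR (by linarith)
      _ = 2 * R * deriv φ ε := by ring
  rcases le_total 0 s with h0 | h0
  · exact key s h0 (by rwa [abs_of_nonneg h0] at hs)
  · have h1 := key (-s) (by linarith) (by rwa [abs_of_nonpos h0] at hs)
    rw [psi_even (fun t => by unfold gg; rw [abs_neg]), h.even] at h1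
    exact h1

theorem gg_eq {s : ℝ} (hs1 : ε ≤ |s|) (hs2 : |s| ≤ R) : gg φ ε R s = deriv (deriv φ) |s| := by
  unfold gg
  rw [max_eq_left hs1, min_eq_left hs2]

/-- Both estimates in terms of the clamped point. -/
private theorem gg_clamp (hR : ε < R) {s : ℝ} (hs1 : |s| ≤ R) :
    gg φ ε R s = deriv (deriv φ) (max |s| ε) := by
  unfold gg
  rw [min_eq_left (max_le hs1 hR.le)]

theorem gg_up (h : Orl p q φ) (hp : 1 < p) (hpq : p ≤ q) (hε : 0 < ε) (hR : ε < R) {s : ℝ}
    (hs : s ≠ 0) (hs1 : |s| ≤ R) :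
    gg φ ε R s ≤ (q - 1) * kap φ R * ((|s| / R) ^ (p - 2) + 1) := by
  rw [gg_clamp hR hs1]
  set u := max |s| ε with hu
  have hs0 : 0 < |s| := abs_pos.2 hs
  have hu0 : 0 < u := lt_max_of_lt_right hε
  have huR : u ≤ R := max_le hs1 hR.le
  have hR0 : 0 < R := hε.trans hR
  have hsu : |s| ≤ u := le_max_left _ _
  have hkR : 0 < kap φ R := h.kap_pos hR0.ne'
  have h1 : deriv (deriv φ) u ≤ (q - 1) * kap φ u := by
    have h2 := h.upper u hu0
    unfold kap
    rw [abs_of_pos hu0, ← mul_div_assoc, le_div_iff₀ hu0]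
    linarith
  have h2 : kap φ u ≤ kap φ R * (u / R) ^ (p - 2) := by
    have h3 := h.kap_low hu0 huR
    have h4 : (u / R) ^ (p - 2) = R ^ (2 - p) / u ^ (2 - p) := by
      rw [Real.div_rpow hu0.le hR0.le, show p - 2 = -(2 - p) by ring, Real.rpow_neg hu0.le,
        Real.rpow_neg hR0.le]
      field_simp
    rw [h4, ← mul_div_assoc, le_div_iff₀ (Real.rpow_pos_of_pos hu0 _)]
    exact h3
  have h3 : (u / R) ^ (p - 2) ≤ (|s| / R) ^ (p - 2) + 1 := by
    rcases le_total 0 (p - 2) with hp2 | hp2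
    · have : (u / R) ^ (p - 2) ≤ 1 :=
        Real.rpow_le_one (by positivity) ((div_le_one hR0).2 huR) hp2
      have h5 : 0 ≤ (|s| / R) ^ (p - 2) := Real.rpow_nonneg (by positivity) _
      linarith
    · have : (u / R) ^ (p - 2) ≤ (|s| / R) ^ (p - 2) :=
        Real.rpow_le_rpow_of_nonpos (by positivity) (by gcongr) hp2
      linarith
  calc deriv (deriv φ) u ≤ (q - 1) * kap φ u := h1
    _ ≤ (q - 1) * (kap φ R * ((|s| / R) ^ (p - 2) + 1)) := by
        apply mul_le_mul_of_nonneg_left _ (by linarith)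
        exact h2.trans (mul_le_mul_of_nonneg_left h3 hkR.le)
    _ = _ := by ring

theorem gg_inv (h : Orl p q φ) (hp : 1 < p) (hpq : p ≤ q) (hε : 0 < ε) (hR : ε < R) {s : ℝ}
    (hs : s ≠ 0) (hs1 : |s| ≤ R) :
    (gg φ ε R s)⁻¹ ≤ ((p - 1) * kap φ R)⁻¹ * ((|s| / R) ^ (2 - q) + 1) := by
  rw [gg_clamp hR hs1]
  set u := max |s| ε with hu
  have hs0 : 0 < |s| := abs_pos.2 hs
  have hu0 : 0 < u := lt_max_of_lt_right hε
  have huR : u ≤ R := max_le hs1 hR.le
  have hR0 : 0 < R := hε.trans hR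
  have hsu : |s| ≤ u := le_max_left _ _
  have hkR : 0 < kap φ R := h.kap_pos hR0.ne'
  have hku : 0 < kap φ u := h.kap_pos hu0.ne'
  have h1 : (p - 1) * kap φ u ≤ deriv (deriv φ) u := by
    have h2 := h.lower u hu0
    unfold kap
    rw [abs_of_pos hu0, ← mul_div_assoc, div_le_iff₀ hu0]
    linarith
  have h2 : (kap φ u)⁻¹ ≤ (kap φ R)⁻¹ * (u / R) ^ (2 - q) := by
    have h3 := h.kap_up hu0 huR
    have h4 : (u / R) ^ (2 - q) = u ^ (2 - q) / R ^ (2 - q) := Real.div_rpow hu0.le hR0.le _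
    have hRq : 0 < R ^ (2 - q) := Real.rpow_pos_of_pos hR0 _
    rw [h4, inv_eq_one_div, inv_eq_one_div, div_mul_div_comm, one_mul, div_le_div_iff₀ hku
      (mul_pos hkR hRq), one_mul]
    linarith
  have h3 : (u / R) ^ (2 - q) ≤ (|s| / R) ^ (2 - q) + 1 := by
    rcases le_total 0 (2 - q) with hp2 | hp2
    · have : (u / R) ^ (2 - q) ≤ 1 :=
        Real.rpow_le_one (by positivity) ((div_le_one hR0).2 huR) hp2
      have h5 : 0 ≤ (|s| / R) ^ (2 - q) := Real.rpow_nonneg (by positivity) _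
      linarith
    · have : (u / R) ^ (2 - q) ≤ (|s| / R) ^ (2 - q) :=
        Real.rpow_le_rpow_of_nonpos (by positivity) (by gcongr) hp2
      linarith
  have hp1 : 0 < p - 1 := by linarith
  calc (deriv (deriv φ) u)⁻¹ ≤ ((p - 1) * kap φ u)⁻¹ := by
        apply inv_anti₀ (mul_pos hp1 hku) h1
    _ = (p - 1)⁻¹ * (kap φ u)⁻¹ := by rw [mul_inv]
    _ ≤ (p - 1)⁻¹ * ((kap φ R)⁻¹ * ((|s| / R) ^ (2 - q) + 1)) := by
        apply mul_le_mul_of_nonneg_left _ (by positivity)
        exact h2.trans (mul_le_mul_of_nonneg_left h3 (by positivity))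
    _ = _ := by rw [mul_inv]; ring

variable {E : Type*} [NormedAddCommGroup E] [InnerProductSpace ℝ E]
variable {ι : Type*} [Fintype ι] {v : ι → E}

private theorem hasFDerivAt_inner_left (v x : E) :
    HasFDerivAt (fun y : E => inner ℝ v y) (innerSL ℝ v) x := by
  have := (innerSL ℝ v).hasFDerivAt (x := x)
  simpa using this

theorem Ph_psi {g : ι → ℝ → ℝ} (hg : ∀ j, Continuous (g j)) :
    ContDiff ℝ 2 (Ph v (fun j => psi (g j))) ∧
    (∀ w x, D w (Ph v (fun j => psi (g j))) x =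
      ∑ j, deriv (psi (g j)) (inner ℝ (v j) x) * inner ℝ (v j) w) ∧
    (∀ w x, D w (D w (Ph v (fun j => psi (g j)))) x =
      ∑ j, g j (inner ℝ (v j) x) * (inner ℝ (v j) w) ^ 2) := by
  have hPh : Ph v (fun j => psi (g j)) = fun x => ∑ j, psi (g j) (inner ℝ (v j) x) := rfl
  have h1 : ∀ w x, D w (Ph v (fun j => psi (g j))) x =
      ∑ j, deriv (psi (g j)) (inner ℝ (v j) x) * inner ℝ (v j) w := by
    intro w x
    have hd : HasFDerivAt (Ph v (fun j => psi (g j)))
        (∑ j, deriv (psi (g j)) (inner ℝ (v j) x) • innerSL ℝ (v j)) x := by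
      rw [hPh]
      apply HasFDerivAt.fun_sum
      intro j _
      have := (hasDerivAt_psi (hg j) (inner ℝ (v j) x)).comp_hasFDerivAt x
        (hasFDerivAt_inner_left (v j) x)
      rw [(psi_spec (hg j)).2.1]
      exact this
    unfold D
    rw [hd.fderiv]
    simp
  refine ⟨?_, h1, ?_⟩
  · rw [hPh]
    apply ContDiff.sum
    intro j _
    exact (psi_spec (hg j)).1.comp (contDiff_const.inner ℝ contDiff_id)
  · intro w x
    have hD : D w (Ph v (fun j => psi (g j))) = fun x =>
      ∑ j, (∫ u in (0:ℝ)..(inner ℝ (v j) x), g j u) * inner ℝ (v j) w := by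
      ext y
      rw [h1 w y]
      apply Finset.sum_congr rfl
      intro j _
      rw [(psi_spec (hg j)).2.1]
    have hd : HasFDerivAt (D w (Ph v (fun j => psi (g j))))
        (∑ j, (inner ℝ (v j) w) • (g j (inner ℝ (v j) x) • innerSL ℝ (v j))) x := by
      rw [hD]
      apply HasFDerivAt.fun_sum
      intro j _
      have h2 := (hasDerivAt_prim (hg j) (inner ℝ (v j) x)).comp_hasFDerivAt x
        (hasFDerivAt_inner_left (v j) x)
      exact h2.mul_const (inner ℝ (v j) w)
    conv_lhs => unfold D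
    change fderiv ℝ (D w (Ph v (fun j => psi (g j)))) x w = _
    rw [hd.fderiv]
    simp only [sum_apply, smul_apply, smul_eq_mul,
      innerSL_apply_apply]
    apply Finset.sum_congr rfl
    intro j _
    ring

end Pool.Agent.H73.Lp
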