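import Pool.Agent.H73.Lp.BAS

/-!
# Module HOM: integrals of `(1 - Φ)^k h` over the body
-/

set_option autoImplicit false

open MeasureTheory Set
open scoped Pointwise

namespace Pool.Agent.H73.Lp

open Pool.Agent.H84

private lemma hom_int1 {m : ℝ} (hm : 0 ≤ m) :
    ∫ t in Ioc (0:ℝ) 1, (1 - t) ^ m = 1 / (m + 1) := by
  rw [← intervalIntegral.integral_of_le zero_le_one]
  have h1 : (∫ t in (0:ℝ)..1, (1 - t) ^ m) = ∫ t in (0:ℝ)..1, t ^ m := by
    have := intervalIntegral.integral_comp_sub_left (fun t : ℝ => t ^ m) (1:ℝ) (a := 0) (b := 1)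
    simpa using this
  rw [h1, integral_rpow (Or.inl (by linarith))]
  simp [Real.zero_rpow (by linarith : m + 1 ≠ 0)]

private lemma hom_int2 {m : ℝ} (hm : 0 ≤ m) :
    ∫ t in Ioc (0:ℝ) 1, (1 - Real.sqrt t) ^ m = 2 / ((m + 1) * (m + 2)) := by
  rw [← intervalIntegral.integral_of_le zero_le_one]
  have hc : Continuous fun t : ℝ => (1 - Real.sqrt t) ^ m :=
    (Real.continuous_rpow_const hm).comp (continuous_const.sub Real.continuous_sqrt)
  have key := intervalIntegral.integral_eq_sub_of_hasDerivAt_of_le (a := (0:ℝ)) (b := 1)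
    (f := fun t : ℝ => -2 * (1 - Real.sqrt t) ^ (m + 1) / (m + 1)
      + 2 * (1 - Real.sqrt t) ^ (m + 2) / (m + 2))
    (f' := fun t : ℝ => (1 - Real.sqrt t) ^ m) zero_le_one ?_ ?_ ?_
  · rw [key]
    have h1 : m + 1 ≠ 0 := by linarith
    have h2 : m + 2 ≠ 0 := by linarith
    simp only [Real.sqrt_one, sub_self, Real.sqrt_zero, sub_zero, Real.one_rpow,
      Real.zero_rpow h1, Real.zero_rpow h2]
    field_simp
    ring
  · apply Continuous.continuousOn
    have e1 : Continuous fun t : ℝ => (1 - Real.sqrt t) ^ (m + 1) :=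
      (Real.continuous_rpow_const (by linarith)).comp (continuous_const.sub Real.continuous_sqrt)
    have e2 : Continuous fun t : ℝ => (1 - Real.sqrt t) ^ (m + 2) :=
      (Real.continuous_rpow_const (by linarith)).comp (continuous_const.sub Real.continuous_sqrt)
    exact ((continuous_const.mul e1).div_const _).add ((continuous_const.mul e2).div_const _)
  · intro t ht
    have ht0 : t ≠ 0 := ht.1.ne'
    have hs : HasDerivAt (fun t : ℝ => 1 - Real.sqrt t) (-(1 / (2 * Real.sqrt t))) t := by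
      simpa using (Real.hasDerivAt_sqrt ht0).const_sub 1
    have hs1 : 0 < 1 - Real.sqrt t := by
      have : Real.sqrt t < 1 := by
        rw [Real.sqrt_lt' zero_lt_one]; simpa using ht.2
      linarith
    have hst : 0 < Real.sqrt t := Real.sqrt_pos.2 ht.1
    have d1 := hs.rpow_const (p := m + 1) (Or.inl hs1.ne')
    have d2 := hs.rpow_const (p := m + 2) (Or.inl hs1.ne')
    have d := ((d1.const_mul (-2)).div_const (m + 1)).add ((d2.const_mul 2).div_const (m + 2))
    refine d.congr_deriv ?_ |>.congr_of_eventuallyEq (Filter.EventuallyEq.of_eq rfl)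
    have e1 : m + 1 - 1 = m := by ring
    have e2 : (1 - Real.sqrt t) ^ (m + 2 - 1) = (1 - Real.sqrt t) ^ m * (1 - Real.sqrt t) := by
      rw [show m + 2 - 1 = m + 1 by ring, Real.rpow_add hs1, Real.rpow_one]
    rw [e1, e2]
    have h1 : m + 1 ≠ 0 := by linarith
    have h2 : m + 2 ≠ 0 := by linarith
    field_simp
    ring
  · exact hc.intervalIntegrable _ _

variable {X : Type*} [MeasurableSpace X]

private lemma hom_layer (μ : Measure X) [IsFiniteMeasure μ] {F : X → ℝ} (hF : Measurable F)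
    (h0 : ∀ x, 0 ≤ F x) (h1 : ∀ x, F x ≤ 1) :
    ∫ x, F x ∂μ = ∫ t in Ioc (0:ℝ) 1, μ.real {x | t < F x} := by
  have hi : Integrable F μ := by
    refine Integrable.mono' (integrable_const (1:ℝ)) hF.aestronglyMeasurable ?_
    filter_upwards with x
    rw [Real.norm_of_nonneg (h0 x)]; exact h1 x
  rw [hi.integral_eq_integral_meas_lt (Filter.Eventually.of_forall h0)]
  apply setIntegral_eq_of_subset_of_forall_sdiff_eq_zero measurableSet_Ioi
  · exact Ioc_subset_Ioi_self
  · intro t ht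
    have ht1 : 1 < t := by
      by_contra hc
      exact ht.2 ⟨ht.1, not_lt.1 hc⟩
    have : {x | t < F x} = (∅ : Set X) := by
      ext x
      simp only [mem_ofPred_eq, mem_empty_iff_false, iff_false, not_lt]
      linarith [h1 x]
    simp only [this, measureReal_empty]

private lemma hom_layer2 (μ : Measure X) [IsFiniteMeasure μ] {F : X → ℝ} (hF : Measurable F)
    (h0 : ∀ x, 0 ≤ F x) (h1 : ∀ x, F x ≤ 1) :
    ∫ x, F x ^ 2 ∂μ = ∫ t in Ioc (0:ℝ) 1, μ.real {x | Real.sqrt t < F x} := by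
  rw [hom_layer μ (hF.pow_const 2) (fun x => sq_nonneg _)
    (fun x => pow_le_one₀ (h0 x) (h1 x))]
  apply setIntegral_congr_fun measurableSet_Ioc
  intro t ht
  have : {x | t < F x ^ 2} = {x | Real.sqrt t < F x} := by
    ext x
    simp only [mem_ofPred_eq]
    rw [← Real.sqrt_lt_sqrt_iff ht.1.le, Real.sqrt_sq (h0 x)]
  simp only [this]

/-- The measure with density `h` on the body. -/
private noncomputable def hmu {E : Type*} [NormedAddCommGroup E] [InnerProductSpace ℝ E]
    [FiniteDimensional ℝ E] [MeasurableSpace E] [BorelSpace E] (K : Set E) (h : E → ℝ) :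
    Measure E :=
  (volume.restrict K).withDensity fun x => ((Real.toNNReal (h x) : NNReal) : ENNReal)

section

variable {E : Type*} [NormedAddCommGroup E] [InnerProductSpace ℝ E]
    [FiniteDimensional ℝ E] [MeasurableSpace E] [BorelSpace E] {K : Set E} {h : E → ℝ}

private lemma hmu_integral (hm : Measurable h) (h0 : ∀ x, 0 ≤ h x) (F : E → ℝ) :
    ∫ x, F x ∂(hmu K h) = ∫ x in K, F x * h x := by
  unfold hmu
  rw [integral_withDensity_eq_integral_smul hm.real_toNNReal]
  apply integral_congr_ae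
  filter_upwards with x
  rw [NNReal.smul_def, Real.coe_toNNReal _ (h0 x), smul_eq_mul, mul_comm]

private lemma hmu_finite (hi : IntegrableOn h K) : IsFiniteMeasure (hmu K h) := by
  unfold hmu
  apply isFiniteMeasure_withDensity
  have := hi.lintegral_lt_top
  refine ne_of_lt ?_
  simpa [ENNReal.ofReal] using this

private lemma hmu_real (hm : Measurable h) (h0 : ∀ x, 0 ≤ h x)
    {A : Set E} (hA : MeasurableSet A) : (hmu K h).real A = ∫ x in A ∩ K, h x := by
  have e1 : (hmu K h).real A = ∫ x, A.indicator (fun _ => (1:ℝ)) x ∂(hmu K h) := by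
    rw [integral_indicator_const _ hA]; simp
  rw [e1, hmu_integral hm h0, ← Measure.restrict_restrict hA, ← integral_indicator hA]
  apply integral_congr_ae
  filter_upwards with x
  by_cases hx : x ∈ A <;> simp [hx]

end

variable {E : Type*} [NormedAddCommGroup E] [InnerProductSpace ℝ E]
    [FiniteDimensional ℝ E] [MeasurableSpace E] [BorelSpace E] {p q : ℝ}
variable {ι : Type*} [Fintype ι] {v : ι → E} {φ : ι → ℝ → ℝ}

private lemma hom_sub_up (hφ : ∀ j, Orl p q (φ j)) (hp : 1 < p) (hpq : p ≤ q) {r : ℝ}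
    (hr : 0 < r) (hr1 : r ≤ 1) : {x | Ph v φ x < r} ⊆ (r ^ (1 / q)) • KK v φ := by
  intro x hx
  have hq : 0 < q := by linarith
  have ht : 0 < r ^ (1 / q) := Real.rpow_pos_of_pos hr _
  have ht1 : r ^ (1 / q) ≤ 1 := Real.rpow_le_one hr.le hr1 (by positivity)
  rw [mem_smul_set_iff_inv_smul_mem₀ ht.ne']
  have h1 := Ph_scale_ge hφ hp hpq ht.le ht1 ((r ^ (1 / q))⁻¹ • x) (v := v)
  rw [smul_inv_smul₀ ht.ne', ← Real.rpow_mul hr.le, one_div_mul_cancel hq.ne', Real.rpow_one] at h1
  have hx' : Ph v φ x < r := hx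
  show Ph v φ _ < 1
  by_contra hc
  have := mul_le_mul_of_nonneg_left (not_lt.1 hc) hr.le
  linarith

private lemma hom_sub_low (hφ : ∀ j, Orl p q (φ j)) (hp : 1 < p) {r : ℝ}
    (hr : 0 < r) (hr1 : r ≤ 1) : (r ^ (1 / p)) • KK v φ ⊆ {x | Ph v φ x < r} := by
  intro x hx
  have hp0 : 0 < p := by linarith
  have ht : 0 < r ^ (1 / p) := Real.rpow_pos_of_pos hr _
  have ht1 : r ^ (1 / p) ≤ 1 := Real.rpow_le_one hr.le hr1 (by positivity)
  obtain ⟨y, hy, rfl⟩ := hx
  have h1 := Ph_scale_le hφ hp ht.le ht1 y (v := v)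
  rw [← Real.rpow_mul hr.le, one_div_mul_cancel hp0.ne', Real.rpow_one] at h1
  have hy' : Ph v φ y < 1 := hy
  show Ph v φ _ < r
  have h2 : r * Ph v φ y < r * 1 := mul_lt_mul_of_pos_left hy' hr
  simp only at h1 ⊢
  linarith

private lemma hom_star (hφ : ∀ j, Orl p q (φ j)) (hp : 1 < p) {t : ℝ}
    (ht : 0 < t) (ht1 : t ≤ 1) : t • KK v φ ⊆ KK v φ := by
  rintro x ⟨y, hy, rfl⟩
  have h1 := Ph_scale_le hφ hp ht.le ht1 y (v := v)
  have hy' : Ph v φ y < 1 := hy
  have hn := Ph_nonneg hφ hp y (v := v)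
  have : t ^ p ≤ 1 := Real.rpow_le_one ht.le ht1 (by linarith)
  show Ph v φ _ < 1
  have h2 : t ^ p * Ph v φ y ≤ 1 * Ph v φ y := mul_le_mul_of_nonneg_right this hn
  simp only at h1 ⊢
  linarith

private lemma hom_level (hφ : ∀ j, Orl p q (φ j)) (hp : 1 < p) (hpq : p ≤ q) {h : E → ℝ}
    (hm : Measurable h) (h0 : ∀ x, 0 ≤ h x) {α : ℝ} (hα : 0 < Module.finrank ℝ E + α)
    (hs : ∀ t : ℝ, 0 < t → t ≤ 1 → ∀ x, h (t • x) ≤ t ^ α * h x) (hi : IntegrableOn h (KK v φ))
    {r : ℝ} (hr : 0 ≤ r) (hr1 : r ≤ 1) :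
    (hmu (KK v φ) h).real {x | Ph v φ x < r} ≤
      r ^ ((Module.finrank ℝ E + α) / q) * ∫ x in KK v φ, h x := by
  have hI : 0 ≤ ∫ x in KK v φ, h x := integral_nonneg h0
  rcases hr.eq_or_lt with rfl | hr
  · have : {x : E | Ph v φ x < 0} = ∅ := by
      ext x
      simp only [mem_ofPred_eq, mem_empty_iff_false, iff_false, not_lt]
      exact Ph_nonneg hφ hp x
    rw [this, measureReal_empty]
    exact mul_nonneg (Real.rpow_nonneg le_rfl _) hI
  have hq : 0 < q := by linarith
  set t := r ^ (1 / q) with htdef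
  have ht : 0 < t := Real.rpow_pos_of_pos hr _
  have ht1 : t ≤ 1 := Real.rpow_le_one hr.le hr1 (by positivity)
  have hopen : MeasurableSet {x : E | Ph v φ x < r} :=
    (isOpen_lt (Ph_continuous hφ) continuous_const).measurableSet
  have hK : MeasurableSet (KK v φ) := (KK_isOpen hφ).measurableSet
  rw [hmu_real hm h0 hopen]
  have hit : IntegrableOn h (t • KK v φ) := hi.mono_set (hom_star hφ hp ht ht1)
  have s1 : ∫ x in {x | Ph v φ x < r} ∩ KK v φ, h x ≤ ∫ x in t • KK v φ, h x := by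
    apply setIntegral_mono_set hit (Filter.Eventually.of_forall h0)
    exact (inter_subset_left.trans (hom_sub_up hφ hp hpq hr hr1)).eventuallyLE
  have s2 : ∫ x in t • KK v φ, h x = t ^ (Module.finrank ℝ E) * ∫ x in KK v φ, h (t • x) := by
    rw [Measure.setIntegral_comp_smul_of_pos volume h _ ht, smul_eq_mul, ← mul_assoc,
      mul_inv_cancel₀ (pow_pos ht _).ne', one_mul]
  have s3 : ∫ x in KK v φ, h (t • x) ≤ ∫ x in KK v φ, t ^ α * h x := by
    apply setIntegral_mono _ (hi.const_mul _) (fun x => hs t ht ht1 x)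
    refine Integrable.mono' (hi.const_mul (t ^ α)) ?_ ?_
    · exact (hm.comp (measurable_const_smul t)).aestronglyMeasurable
    · filter_upwards with x
      rw [Real.norm_of_nonneg (h0 _)]
      exact hs t ht ht1 x
  rw [integral_const_mul] at s3
  calc ∫ x in {x | Ph v φ x < r} ∩ KK v φ, h x
      ≤ t ^ (Module.finrank ℝ E) * ∫ x in KK v φ, h (t • x) := s1.trans s2.le
    _ ≤ t ^ (Module.finrank ℝ E) * (t ^ α * ∫ x in KK v φ, h x) :=
        mul_le_mul_of_nonneg_left s3 (pow_nonneg ht.le _)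
    _ = r ^ ((Module.finrank ℝ E + α) / q) * ∫ x in KK v φ, h x := by
        rw [← mul_assoc, ← Real.rpow_natCast, ← Real.rpow_add ht, htdef, ← Real.rpow_mul hr.le]
        congr 2
        ring

private lemma hom_cut (hφ : ∀ j, Orl p q (φ j)) (hp : 1 < p) :
    Measurable (fun x => max (1 - Ph v φ x) 0) ∧ (∀ x, 0 ≤ max (1 - Ph v φ x) 0) ∧
      (∀ x, max (1 - Ph v φ x) 0 ≤ 1) ∧
      ∀ t : ℝ, 0 ≤ t → {x | t < max (1 - Ph v φ x) 0} = {x | Ph v φ x < 1 - t} := by
  refine ⟨?_, fun x => le_max_right _ _, fun x => ?_, fun t ht => ?_⟩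
  · exact ((continuous_const.sub (Ph_continuous hφ)).max continuous_const).measurable
  · have := Ph_nonneg hφ hp x (v := v)
    exact max_le (by linarith) zero_le_one
  · ext x
    simp only [mem_ofPred_eq, lt_max_iff]
    constructor
    · rintro (h | h) <;> linarith
    · intro h
      left; linarith

theorem hom_one (hφ : ∀ j, Orl p q (φ j)) (hp : 1 < p) (hpq : p ≤ q) (hv : Spans v) {h : E → ℝ}
    (hm : Measurable h) (h0 : ∀ x, 0 ≤ h x) {α : ℝ} (hα : 0 < Module.finrank ℝ E + α)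
    (hs : ∀ t : ℝ, 0 < t → t ≤ 1 → ∀ x, h (t • x) ≤ t ^ α * h x) (hi : IntegrableOn h (KK v φ)) :
    ∫ x in KK v φ, (1 - Ph v φ x) * h x ≤
      q / (Module.finrank ℝ E + α + q) * ∫ x in KK v φ, h x := by
  have hq : 0 < q := by linarith
  have hfin := hmu_finite hi
  obtain ⟨c1, c2, c3, c4⟩ := hom_cut (v := v) hφ hp
  have hm0 : 0 ≤ (Module.finrank ℝ E + α) / q := by positivity
  have e1 : ∫ x in KK v φ, (1 - Ph v φ x) * h x = ∫ x, max (1 - Ph v φ x) 0 ∂(hmu (KK v φ) h) := by
    rw [hmu_integral hm h0]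
    apply setIntegral_congr_fun (KK_isOpen hφ).measurableSet
    intro x hx
    have hx' : Ph v φ x < 1 := hx
    simp only
    rw [max_eq_left (by linarith)]
  rw [e1, hom_layer _ c1 c2 c3]
  have hanti : AntitoneOn (fun t => (hmu (KK v φ) h).real {x | t < max (1 - Ph v φ x) 0})
      (Icc (0:ℝ) 1) := by
    intro s _ t _ hst
    apply measureReal_mono _ (measure_ne_top _ _)
    intro x hx
    exact lt_of_le_of_lt hst hx
  have i1 : IntegrableOn (fun t => (hmu (KK v φ) h).real {x | t < max (1 - Ph v φ x) 0})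
      (Ioc (0:ℝ) 1) :=
    (hanti.integrableOn_isCompact isCompact_Icc).mono_set Ioc_subset_Icc_self
  have i2 : IntegrableOn (fun t : ℝ => (1 - t) ^ ((Module.finrank ℝ E + α) / q) *
      ∫ x in KK v φ, h x) (Ioc (0:ℝ) 1) := by
    apply Integrable.mul_const
    have : Continuous fun t : ℝ => (1 - t) ^ ((Module.finrank ℝ E + α) / q) :=
      (Real.continuous_rpow_const hm0).comp (continuous_const.sub continuous_id)
    exact (this.continuousOn.integrableOn_compact isCompact_Icc).mono_set Ioc_subset_Icc_self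
  refine (setIntegral_mono_on i1 i2 measurableSet_Ioc fun t ht => ?_).trans (le_of_eq ?_)
  · rw [c4 t ht.1.le]
    exact hom_level hφ hp hpq hm h0 hα hs hi (by linarith [ht.2]) (by linarith [ht.1])
  · rw [integral_mul_const, hom_int1 hm0]
    congr 1
    field_simp

theorem hom_two (hφ : ∀ j, Orl p q (φ j)) (hp : 1 < p) (hpq : p ≤ q) (hv : Spans v) {h : E → ℝ}
    (hm : Measurable h) (h0 : ∀ x, 0 ≤ h x) {α : ℝ} (hα : 0 < Module.finrank ℝ E + α)
    (hs : ∀ t : ℝ, 0 < t → t ≤ 1 → ∀ x, h (t • x) ≤ t ^ α * h x) (hi : IntegrableOn h (KK v φ)) :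
    ∫ x in KK v φ, (1 - Ph v φ x) ^ 2 * h x ≤
      2 * q ^ 2 / ((Module.finrank ℝ E + α + q) * (Module.finrank ℝ E + α + 2 * q)) *
        ∫ x in KK v φ, h x := by
  have hq : 0 < q := by linarith
  have hfin := hmu_finite hi
  obtain ⟨c1, c2, c3, c4⟩ := hom_cut (v := v) hφ hp
  have hm0 : 0 ≤ (Module.finrank ℝ E + α) / q := by positivity
  have e1 : ∫ x in KK v φ, (1 - Ph v φ x) ^ 2 * h x =
      ∫ x, (max (1 - Ph v φ x) 0) ^ 2 ∂(hmu (KK v φ) h) := by
    rw [hmu_integral hm h0]
    apply setIntegral_congr_fun (KK_isOpen hφ).measurableSet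
    intro x hx
    have hx' : Ph v φ x < 1 := hx
    simp only
    rw [max_eq_left (by linarith)]
  rw [e1, hom_layer2 _ c1 c2 c3]
  have hanti : AntitoneOn
      (fun t => (hmu (KK v φ) h).real {x | Real.sqrt t < max (1 - Ph v φ x) 0})
      (Icc (0:ℝ) 1) := by
    intro s _ t _ hst
    apply measureReal_mono _ (measure_ne_top _ _)
    intro x hx
    exact lt_of_le_of_lt (Real.sqrt_le_sqrt hst) hx
  have i1 : IntegrableOn
      (fun t => (hmu (KK v φ) h).real {x | Real.sqrt t < max (1 - Ph v φ x) 0})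
      (Ioc (0:ℝ) 1) :=
    (hanti.integrableOn_isCompact isCompact_Icc).mono_set Ioc_subset_Icc_self
  have i2 : IntegrableOn (fun t : ℝ => (1 - Real.sqrt t) ^ ((Module.finrank ℝ E + α) / q) *
      ∫ x in KK v φ, h x) (Ioc (0:ℝ) 1) := by
    apply Integrable.mul_const
    have : Continuous fun t : ℝ => (1 - Real.sqrt t) ^ ((Module.finrank ℝ E + α) / q) :=
      (Real.continuous_rpow_const hm0).comp (continuous_const.sub Real.continuous_sqrt)
    exact (this.continuousOn.integrableOn_compact isCompact_Icc).mono_set Ioc_subset_Icc_self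
  refine (setIntegral_mono_on i1 i2 measurableSet_Ioc fun t ht => ?_).trans (le_of_eq ?_)
  · rw [c4 _ (Real.sqrt_nonneg t)]
    have hs1 : Real.sqrt t ≤ 1 := Real.sqrt_le_one.2 ht.2
    exact hom_level hφ hp hpq hm h0 hα hs hi (by linarith) (by linarith [Real.sqrt_nonneg t])
  · rw [integral_mul_const, hom_int2 hm0]
    congr 1
    field_simp

theorem hom_low (hφ : ∀ j, Orl p q (φ j)) (hp : 1 < p) (hpq : p ≤ q) (hv : Spans v) :
    2 * p ^ 2 / ((Module.finrank ℝ E + p) * (Module.finrank ℝ E + 2 * p)) *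
        volume.real (KK v φ) ≤ ∫ x in KK v φ, (1 - Ph v φ x) ^ 2 := by
  have hp0 : 0 < p := by linarith
  have hKfin : volume (KK v φ) < ⊤ := (KK_bounded hφ hp hpq hv).measure_lt_top
  have : IsFiniteMeasure (volume.restrict (KK v φ)) := ⟨by simpa using hKfin⟩
  obtain ⟨c1, c2, c3, c4⟩ := hom_cut (v := v) hφ hp
  have hm0 : 0 ≤ (Module.finrank ℝ E : ℝ) / p := by positivity
  have e1 : ∫ x in KK v φ, (1 - Ph v φ x) ^ 2 =
      ∫ x in KK v φ, (max (1 - Ph v φ x) 0) ^ 2 := by
    apply setIntegral_congr_fun (KK_isOpen hφ).measurableSet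
    intro x hx
    have hx' : Ph v φ x < 1 := hx
    simp only
    rw [max_eq_left (by linarith)]
  rw [e1, hom_layer2 _ c1 c2 c3]
  have hanti : AntitoneOn
      (fun t => (volume.restrict (KK v φ)).real {x | Real.sqrt t < max (1 - Ph v φ x) 0})
      (Icc (0:ℝ) 1) := by
    intro s _ t _ hst
    apply measureReal_mono _ (measure_ne_top _ _)
    intro x hx
    exact lt_of_le_of_lt (Real.sqrt_le_sqrt hst) hx
  have i1 : IntegrableOn
      (fun t => (volume.restrict (KK v φ)).real {x | Real.sqrt t < max (1 - Ph v φ x) 0})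
      (Ioo (0:ℝ) 1) :=
    (hanti.integrableOn_isCompact isCompact_Icc).mono_set Ioo_subset_Icc_self
  have i2 : IntegrableOn (fun t : ℝ => (1 - Real.sqrt t) ^ ((Module.finrank ℝ E : ℝ) / p) *
      volume.real (KK v φ)) (Ioo (0:ℝ) 1) := by
    apply Integrable.mul_const
    have : Continuous fun t : ℝ => (1 - Real.sqrt t) ^ ((Module.finrank ℝ E : ℝ) / p) :=
      (Real.continuous_rpow_const hm0).comp (continuous_const.sub Real.continuous_sqrt)
    exact (this.continuousOn.integrableOn_compact isCompact_Icc).mono_set Ioo_subset_Icc_self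
  have e3 : 2 * p ^ 2 / ((Module.finrank ℝ E + p) * (Module.finrank ℝ E + 2 * p)) *
        volume.real (KK v φ) = ∫ t in Ioo (0:ℝ) 1,
          (1 - Real.sqrt t) ^ ((Module.finrank ℝ E : ℝ) / p) * volume.real (KK v φ) := by
    rw [integral_mul_const, ← integral_Ioc_eq_integral_Ioo, hom_int2 hm0]
    congr 1
    field_simp
  rw [integral_Ioc_eq_integral_Ioo, e3]
  refine setIntegral_mono_on i2 i1 measurableSet_Ioo fun t ht => ?_
  rw [c4 _ (Real.sqrt_nonneg t)]
  have hs1 : Real.sqrt t < 1 := by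
    rw [Real.sqrt_lt' zero_lt_one]; simpa using ht.2
  have hr : 0 < 1 - Real.sqrt t := by linarith
  have hr1 : 1 - Real.sqrt t ≤ 1 := by linarith [Real.sqrt_nonneg t]
  have hopen : MeasurableSet {x : E | Ph v φ x < 1 - Real.sqrt t} :=
    (isOpen_lt (Ph_continuous hφ) continuous_const).measurableSet
  set s := (1 - Real.sqrt t) ^ (1 / p) with hsdef
  have hspos : 0 < s := Real.rpow_pos_of_pos hr _
  have hsle : s ≤ 1 := Real.rpow_le_one hr.le hr1 (by positivity)
  have hsub : s • KK v φ ⊆ {x | Ph v φ x < 1 - Real.sqrt t} ∩ KK v φ :=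
    subset_inter (hom_sub_low hφ hp hr hr1) (hom_star hφ hp hspos hsle)
  rw [measureReal_restrict_apply hopen]
  have hle : volume.real (s • KK v φ) ≤
      volume.real ({x | Ph v φ x < 1 - Real.sqrt t} ∩ KK v φ) :=
    measureReal_mono hsub (ne_of_lt (lt_of_le_of_lt (measure_mono inter_subset_right) hKfin))
  refine le_trans (le_of_eq ?_) hle
  rw [measureReal_def, measureReal_def, Measure.addHaar_smul, ENNReal.toReal_mul,
    ENNReal.toReal_ofReal (abs_nonneg _), abs_of_nonneg (pow_nonneg hspos.le _)]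
  congr 1
  rw [← Real.rpow_natCast, hsdef, ← Real.rpow_mul hr.le]
  congr 1
  ring

end Pool.Agent.H73.Lp
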