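import Pool.Agent.H73.Lp.Defs

/-!
# Module HES: the tilting potential `√(G² + 1) - G`
-/

set_option autoImplicit false

open MeasureTheory Set

namespace Pool.Agent.H73.Lp

open Pool.Agent.H84.Sym

variable {E : Type*} [NormedAddCommGroup E] [InnerProductSpace ℝ E]

/-- The tilting potential. -/
noncomputable def tw (a : ℝ) (Ψ : E → ℝ) (x : E) : ℝ :=
  Real.sqrt ((a * (1 - Ψ x)) ^ 2 + 1) - a * (1 - Ψ x)

private theorem sq_pos1 (u : ℝ) : 0 < Real.sqrt (u ^ 2 + 1) := Real.sqrt_pos.2 (by positivity)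

private theorem sq_sq1 (u : ℝ) : Real.sqrt (u ^ 2 + 1) ^ 2 = u ^ 2 + 1 :=
  Real.sq_sqrt (by positivity)

private theorem abs_lt_sq1 (u : ℝ) : |u| < Real.sqrt (u ^ 2 + 1) := by
  apply Real.lt_sqrt_of_sq_lt
  rw [sq_abs]; linarith

private theorem hd1 (u : ℝ) :
    HasDerivAt (fun u : ℝ => Real.sqrt (u ^ 2 + 1) - u) (u / Real.sqrt (u ^ 2 + 1) - 1) u := by
  have h1 : HasDerivAt (fun u : ℝ => u ^ 2 + 1) (2 * u) u := by
    simpa using (hasDerivAt_pow 2 u).add_const (1 : ℝ)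
  have h2 := h1.sqrt (by positivity)
  have h3 := h2.sub (hasDerivAt_id u)
  refine h3.congr_deriv ?_
  have := (sq_pos1 u).ne'
  field_simp

private theorem hd2 (u : ℝ) :
    HasDerivAt (fun u : ℝ => u / Real.sqrt (u ^ 2 + 1) - 1) ((Real.sqrt (u ^ 2 + 1) ^ 3)⁻¹) u := by
  have h1 : HasDerivAt (fun u : ℝ => u ^ 2 + 1) (2 * u) u := by
    simpa using (hasDerivAt_pow 2 u).add_const (1 : ℝ)
  have h2 := h1.sqrt (by positivity)
  have h0 := (sq_pos1 u).ne'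
  have h3 := ((hasDerivAt_id u).div h2 h0).sub_const (1 : ℝ)
  refine h3.congr_deriv ?_
  have h4 := sq_sq1 u
  set s := Real.sqrt (u ^ 2 + 1) with hs
  simp only [id]
  field_simp
  nlinarith [h4]

theorem tw_contDiff {Ψ : E → ℝ} (hΨ : ContDiff ℝ 2 Ψ) (a : ℝ) : ContDiff ℝ 2 (tw a Ψ) := by
  have h1 : ContDiff ℝ 2 (fun x => a * (1 - Ψ x)) := contDiff_const.mul (contDiff_const.sub hΨ)
  exact ((h1.pow 2).add contDiff_const).sqrt (fun x => by positivity) |>.sub h1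

omit [NormedAddCommGroup E] [InnerProductSpace ℝ E] in
theorem tw_pos (a : ℝ) (Ψ : E → ℝ) (x : E) : 0 < tw a Ψ x := by
  unfold tw
  have := abs_lt_sq1 (a * (1 - Ψ x))
  have := le_abs_self (a * (1 - Ψ x))
  linarith

omit [NormedAddCommGroup E] [InnerProductSpace ℝ E] in
/-- `tw ≤ 2` when `G ≥ -1/2`. -/
theorem tw_le {a : ℝ} {Ψ : E → ℝ} {x : E} (h : -(1/2) ≤ a * (1 - Ψ x)) : tw a Ψ x ≤ 2 := by
  unfold tw
  set G := a * (1 - Ψ x)
  have : Real.sqrt (G ^ 2 + 1) ≤ 2 + G := by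
    apply Real.sqrt_le_iff.2
    constructor
    · linarith
    · nlinarith
  linarith

private theorem hasF {Ψ : E → ℝ} (hΨ : Differentiable ℝ Ψ) (a : ℝ) (x : E) :
    HasFDerivAt (fun x => a * (1 - Ψ x)) (-(a • fderiv ℝ Ψ x)) x := by
  have h1 := ((hΨ x).hasFDerivAt.const_sub (1 : ℝ)).const_mul a
  rw [smul_neg] at h1
  exact h1

private theorem tw_fderiv {Ψ : E → ℝ} (hΨ : Differentiable ℝ Ψ) (a : ℝ) (x : E) :
    fderiv ℝ (tw a Ψ) x = (a * (1 - (a * (1 - Ψ x)) / Real.sqrt ((a * (1 - Ψ x)) ^ 2 + 1))) •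
      fderiv ℝ Ψ x := by
  have h1 := (hd1 (a * (1 - Ψ x))).comp_hasFDerivAt x (hasF hΨ a x)
  have h2 : fderiv ℝ (tw a Ψ) x = _ := h1.fderiv
  rw [h2, smul_neg, smul_smul, ← neg_smul]
  congr 1
  ring

private theorem fac_bd (u : ℝ) : 0 ≤ 1 - u / Real.sqrt (u ^ 2 + 1) ∧
    1 - u / Real.sqrt (u ^ 2 + 1) ≤ 2 ∧
    1 / (2 * (1 + u ^ 2)) ≤ 1 - u / Real.sqrt (u ^ 2 + 1) := by
  have h0 := sq_pos1 u
  have h1 := abs_lt_sq1 u
  have h2 := sq_sq1 u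
  set s := Real.sqrt (u ^ 2 + 1)
  have h3 := (abs_lt.1 h1).1
  have h4 := (abs_lt.1 h1).2
  refine ⟨?_, ?_, ?_⟩
  · have : u / s ≤ 1 := (div_le_one h0).2 h4.le
    linarith
  · have : -1 ≤ u / s := by
      rw [le_div_iff₀ h0]; linarith
    linarith
  · have e : 1 - u / s = (s - u) / s := by field_simp
    rw [e, show 1 + u ^ 2 = s ^ 2 by rw [h2]; ring, div_le_div_iff₀ (by positivity) h0]
    have h5 : (s - u) * (s + u) = 1 := by nlinarith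
    have h6 : 0 < s - u := by linarith
    have h7 : 1 ≤ (s - u) * (2 * s) := by
      rw [← h5]
      exact mul_le_mul_of_nonneg_left (by linarith) h6.le
    nlinarith

theorem tw_grad {Ψ : E → ℝ} (hΨ : ContDiff ℝ 2 Ψ) {a : ℝ} (ha : 0 < a) (x : E) :
    ‖fderiv ℝ (tw a Ψ) x‖ ≤ 2 * a * ‖fderiv ℝ Ψ x‖ := by
  rw [tw_fderiv (hΨ.differentiable (by norm_num)), norm_smul]
  apply mul_le_mul_of_nonneg_right _ (norm_nonneg _)
  obtain ⟨b1, b2, -⟩ := fac_bd (a * (1 - Ψ x))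
  rw [Real.norm_eq_abs, abs_of_nonneg (mul_nonneg ha.le b1)]
  nlinarith

theorem tw_hess {Ψ : E → ℝ} (hΨ : ContDiff ℝ 2 Ψ) {a : ℝ} (ha : 0 < a) {x w : E}
    (hc : 0 ≤ D w (D w Ψ) x) :
    a / (2 * (1 + (a * (1 - Ψ x)) ^ 2)) * D w (D w Ψ) x ≤
      fderiv ℝ (fderiv ℝ (tw a Ψ)) x w w := by
  have hd : Differentiable ℝ Ψ := hΨ.differentiable (by norm_num)
  have htw : ContDiff ℝ 2 (tw a Ψ) := tw_contDiff hΨ a
  have hsec : fderiv ℝ (fderiv ℝ (tw a Ψ)) x w w = fderiv ℝ (fun y => fderiv ℝ (tw a Ψ) y w) x w := by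
    have h1 : Differentiable ℝ (fderiv ℝ (tw a Ψ)) :=
      (htw.fderiv_right (m := 1) (by norm_num)).differentiable one_ne_zero
    rw [fderiv_clm_apply (h1 x) (differentiableAt_const w)]
    simp
  have hDd : DifferentiableAt ℝ (D w Ψ) x := by
    have h1 : ContDiff ℝ 1 (fun y => fderiv ℝ Ψ y w) :=
      (hΨ.fderiv_right (m := 1) (by norm_num)).clm_apply contDiff_const
    exact (h1.differentiable one_ne_zero) x
  have e : (fun y => fderiv ℝ (tw a Ψ) y w) =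
      fun y => (a * (-((a * (1 - Ψ y)) / Real.sqrt ((a * (1 - Ψ y)) ^ 2 + 1) - 1))) * D w Ψ y := by
    ext y
    rw [tw_fderiv hd]
    simp only [FunLike.coe_smul, Pi.smul_apply, smul_eq_mul, D]
    ring
  have h2 := (hd2 (a * (1 - Ψ x))).comp_hasFDerivAt x (hasF hd a x)
  have h3 := (h2.neg.const_mul a).mul hDd.hasFDerivAt
  rw [hsec, e]
  have h4 : fderiv ℝ (fun y => (a * (-((a * (1 - Ψ y)) / Real.sqrt ((a * (1 - Ψ y)) ^ 2 + 1) - 1))) *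
      D w Ψ y) x = _ := h3.fderiv
  rw [h4]
  obtain ⟨b1, b2, b3⟩ := fac_bd (a * (1 - Ψ x))
  have h5 := sq_pos1 (a * (1 - Ψ x))
  simp only [add_apply, smul_apply, neg_apply, smul_eq_mul]
  set G := a * (1 - Ψ x)
  set s := Real.sqrt (G ^ 2 + 1)
  have e5 : fderiv ℝ (D w Ψ) x w = D w (D w Ψ) x := rfl
  have e6 : fderiv ℝ Ψ x w = D w Ψ x := rfl
  rw [e5, e6]
  have h6 : a / (2 * (1 + G ^ 2)) * D w (D w Ψ) x ≤ a * (1 - G / s) * D w (D w Ψ) x := by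
    apply mul_le_mul_of_nonneg_right _ hc
    have := mul_le_mul_of_nonneg_left b3 ha.le
    calc a / (2 * (1 + G ^ 2)) = a * (1 / (2 * (1 + G ^ 2))) := by ring
      _ ≤ _ := this
  have h7 : 0 ≤ (s ^ 3)⁻¹ * (a * D w Ψ x) ^ 2 := by positivity
  have e8 : a * (-(fun u : ℝ => u / Real.sqrt (u ^ 2 + 1) - 1) ∘ fun x => a * (1 - Ψ x)) x *
      D w (D w Ψ) x + D w Ψ x * (a * -((s ^ 3)⁻¹ * -(a * D w Ψ x))) =
      a * (1 - G / s) * D w (D w Ψ) x + (s ^ 3)⁻¹ * (a * D w Ψ x) ^ 2 := by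
    change a * (-(G / s - 1)) * D w (D w Ψ) x + D w Ψ x * (a * -((s ^ 3)⁻¹ * -(a * D w Ψ x))) = _
    ring
  rw [e8]
  linarith

end Pool.Agent.H73.Lp
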