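import Pool.Agent.H73.Lp.AAA
import Pool.Agent.H73.Lp.HOM
import Pool.Agent.H73.Lp.PRF
import Pool.Agent.H73.Lp.HES

/-!
# Module TLT: existence of the tilting potential
-/

set_option autoImplicit false

open MeasureTheory Set

namespace Pool.Agent.H73.Lp

open Pool.Agent.H84 Pool.Agent.H84.Sym

variable {E : Type*} [NormedAddCommGroup E] [InnerProductSpace ℝ E]
    [FiniteDimensional ℝ E] [MeasurableSpace E] [BorelSpace E] {p q : ℝ}
variable {ι : Type*} [Fintype ι] {v : ι → E} {φ : ι → ℝ → ℝ}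

open Filter Topology in
private theorem inner_ne_ae {w : E} (hw : w ≠ 0) : ∀ᵐ x : E, (inner ℝ w x : ℝ) ≠ 0 := by
  have h1 : LinearMap.ker (innerSL ℝ w : E →L[ℝ] ℝ).toLinearMap ≠ ⊤ := by
    intro h
    have : w ∈ LinearMap.ker (innerSL ℝ w : E →L[ℝ] ℝ).toLinearMap := by rw [h]; trivial
    rw [LinearMap.mem_ker] at this
    have h2 : (inner ℝ w w : ℝ) = 0 := this
    exact hw (inner_self_eq_zero.1 h2)
  have h2 := Measure.addHaar_submodule (volume : Measure E) _ h1
  rw [ae_iff]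
  convert h2 using 2
  ext x
  simp only [ne_eq, not_not, mem_ofPred_eq, SetLike.mem_coe, LinearMap.mem_ker]
  rfl

private theorem psi_bd {g : ℝ → ℝ} {M : ℝ} (hM : ∀ s, |g s| ≤ M) (s : ℝ) :
    |psi g s| ≤ M * s ^ 2 := by
  unfold psi
  have hM0 : 0 ≤ M := (abs_nonneg _).trans (hM 0)
  have h := intervalIntegral.norm_integral_le_of_norm_le_const (a := 0) (b := s)
    (f := fun u => (s - u) * g u) (C := |s| * M) (by
      intro u hu
      rw [Real.norm_eq_abs, abs_mul]
      apply mul_le_mul _ (hM u) (abs_nonneg _) (abs_nonneg _)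
      rcases le_total 0 s with h0 | h0
      · rw [uIoc_of_le h0] at hu
        rw [abs_of_nonneg (by linarith [hu.2]), abs_of_nonneg h0]
        linarith [hu.1]
      · rw [uIoc_of_ge h0] at hu
        rw [abs_of_nonpos (by linarith [hu.1]), abs_of_nonpos h0]
        linarith [hu.2])
  rw [Real.norm_eq_abs, sub_zero] at h
  calc _ ≤ |s| * M * |s| := h
    _ = M * (|s| * |s|) := by ring
    _ = M * s ^ 2 := by rw [abs_mul_abs_self]; ring

omit [InnerProductSpace ℝ E] [FiniteDimensional ℝ E] [MeasurableSpace E] [BorelSpace E] in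
private theorem Gr_aux {B a m : ℝ} (hB : 0 ≤ B) (ha : 0 < a) (hm : 0 < m) {P g : E → ℝ}
    (hP : ∀ x, |P x| ≤ B * ‖x‖ ^ 2) (hg : ∀ x, m ≤ g x) :
    Gr (fun x => (a / (2 * (1 + (a * (1 - P x)) ^ 2)) * g x)⁻¹) := by
  refine ⟨2 / a * (1 + 4 * a ^ 2 * (1 + B) ^ 2) * m⁻¹, 2, fun x => ?_⟩
  have h1 : 1 + ‖x‖ ^ 2 ≤ 2 * Real.exp ‖x‖ := by
    have := Real.quadratic_le_exp_of_nonneg (norm_nonneg x)
    nlinarith [norm_nonneg x]
  have h2 : |1 - P x| ≤ (1 + B) * (2 * Real.exp ‖x‖) := by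
    calc |1 - P x| ≤ |1| + |P x| := abs_sub _ _
      _ ≤ 1 + B * ‖x‖ ^ 2 := by rw [abs_one]; linarith [hP x]
      _ ≤ (1 + B) * (1 + ‖x‖ ^ 2) := by nlinarith [sq_nonneg ‖x‖]
      _ ≤ _ := mul_le_mul_of_nonneg_left h1 (by linarith)
  have h3 : (1 - P x) ^ 2 ≤ ((1 + B) * (2 * Real.exp ‖x‖)) ^ 2 := by
    rw [← sq_abs]
    exact pow_le_pow_left₀ (abs_nonneg _) h2 2
  have he : Real.exp (2 * ‖x‖) = Real.exp ‖x‖ ^ 2 := by
    rw [← Real.exp_nat_mul]; norm_num
  have he1 : 1 ≤ Real.exp (2 * ‖x‖) := Real.one_le_exp (by positivity)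
  have h4 : 1 + (a * (1 - P x)) ^ 2 ≤ (1 + 4 * a ^ 2 * (1 + B) ^ 2) * Real.exp (2 * ‖x‖) := by
    have : (a * (1 - P x)) ^ 2 ≤ a ^ 2 * ((1 + B) * (2 * Real.exp ‖x‖)) ^ 2 := by
      rw [mul_pow]
      exact mul_le_mul_of_nonneg_left h3 (sq_nonneg a)
    calc 1 + (a * (1 - P x)) ^ 2 ≤ Real.exp (2 * ‖x‖) + a ^ 2 * ((1 + B) * (2 * Real.exp ‖x‖)) ^ 2 := by
          linarith
      _ = _ := by rw [he]; ring
  have hg0 : 0 < g x := hm.trans_le (hg x)
  have h5 : (g x)⁻¹ ≤ m⁻¹ := inv_anti₀ hm (hg x)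
  have e1 : (a / (2 * (1 + (a * (1 - P x)) ^ 2)) * g x)⁻¹ =
      2 / a * (1 + (a * (1 - P x)) ^ 2) * (g x)⁻¹ := by
    have : 0 < 1 + (a * (1 - P x)) ^ 2 := by positivity
    field_simp
  change |(a / (2 * (1 + (a * (1 - P x)) ^ 2)) * g x)⁻¹| ≤ _
  rw [e1, abs_of_nonneg (by positivity)]
  calc 2 / a * (1 + (a * (1 - P x)) ^ 2) * (g x)⁻¹
      ≤ 2 / a * ((1 + 4 * a ^ 2 * (1 + B) ^ 2) * Real.exp (2 * ‖x‖)) * m⁻¹ := by
        apply mul_le_mul _ h5 (by positivity) (by positivity)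
        exact mul_le_mul_of_nonneg_left h4 (by positivity)
    _ = _ := by ring

omit [FiniteDimensional ℝ E] in
private theorem kap_meas {ψ : ℝ → ℝ} (h : Orl p q ψ) (w : E) :
    Measurable (fun x : E => (kap ψ (inner ℝ w x))⁻¹) := by
  have h1 : Continuous (deriv ψ) := h.c1.continuous_deriv le_rfl
  have h2 : Continuous (fun x : E => (inner ℝ w x : ℝ)) := continuous_const.inner continuous_id
  exact ((h1.comp h2.abs).measurable.div h2.abs.measurable).inv

omit [FiniteDimensional ℝ E] [MeasurableSpace E] [BorelSpace E] in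
private theorem kap_hom {ψ : ℝ → ℝ} (h : Orl p q ψ) (w : E) {t : ℝ} (ht : 0 < t) (ht1 : t ≤ 1)
    (x : E) : (kap ψ (inner ℝ w (t • x)))⁻¹ ≤ t ^ (2 - q) * (kap ψ (inner ℝ w x))⁻¹ := by
  rw [inner_smul_right]
  set s : ℝ := inner ℝ w x
  have hk : ∀ r : ℝ, kap ψ r = kap ψ |r| := fun r => by simp [kap]
  rcases eq_or_ne s 0 with h0 | h0
  · rw [h0]; simp [kap]
  · rw [hk (t * s), hk s, abs_mul, abs_of_pos ht]
    have hs : 0 < |s| := abs_pos.2 h0
    have h1 := h.kap_up (s := t * |s|) (t := |s|) (mul_pos ht hs) (by nlinarith)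
    rw [Real.mul_rpow ht.le hs.le] at h1
    have h2 : 0 < kap ψ |s| := h.kap_pos hs.ne'
    have h3 : 0 < kap ψ (t * |s|) := h.kap_pos (mul_pos ht hs).ne'
    have h4 : 0 < |s| ^ (2 - q) := Real.rpow_pos_of_pos hs _
    have h5 : kap ψ |s| ≤ kap ψ (t * |s|) * t ^ (2 - q) := by
      have : kap ψ |s| * |s| ^ (2 - q) ≤ kap ψ (t * |s|) * t ^ (2 - q) * |s| ^ (2 - q) := by
        linarith
      exact le_of_mul_le_mul_right this h4
    rw [← div_eq_mul_inv, le_div_iff₀ h2, inv_mul_le_iff₀ h3]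
    exact h5

open Filter Topology in
theorem tilt [Nontrivial E] (hφ : ∀ j, Orl p q (φ j)) (hp : 1 < p) (hpq : p ≤ q) (hq : q < 3)
    (hv : Spans v) (hv0 : ∀ j, v j ≠ 0) :
    ∃ (W : E → ℝ) (c : ι → E → ℝ), ContDiff ℝ 2 W ∧ (∀ x, 0 ≤ W x) ∧ (∀ x ∈ KK v φ, W x ≤ 2) ∧
      (∃ C : ℝ, ∀ x, ‖fderiv ℝ W x‖ ≤ C * (1 + ‖x‖)) ∧ (∀ j, Continuous (c j)) ∧
      (∀ j x, 0 < c j x) ∧ (∀ j, Gr (fun x => (c j x)⁻¹)) ∧
      (∀ x w, ∑ j, c j x * (inner ℝ (v j) w) ^ 2 ≤ fderiv ℝ (fderiv ℝ W) x w w) ∧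
      ∀ j, ∫ x in KK v φ, (c j x)⁻¹ ≤ 7 * q / (Module.finrank ℝ E * (p - 1)) *
        ∫ x in KK v φ, (kap (φ j) (inner ℝ (v j) x))⁻¹ := by
  classical
  obtain ⟨R0, hR0, hCB⟩ := KK_CB hφ hp hpq hv
  have hsym : ∀ x ∈ KK v φ, -x ∈ KK v φ := fun x hx => KK_neg hφ hx
  set d : ℝ := (Module.finrank ℝ E : ℝ) with hd
  have hd1 : 1 ≤ d := by
    have : 0 < Module.finrank ℝ E := Module.finrank_pos
    rw [hd]
    exact_mod_cast this
  have hq0 : 0 < q := by linarith
  have hd0 : 0 < d := by linarith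
  have hp1 : 0 < p - 1 := by linarith
  set a : ℝ := d / q with ha_def
  have ha : 0 < a := by positivity
  set R : ℝ := 1 + ∑ j, ‖v j‖ * R0 with hR_def
  have hR : 1 ≤ R := by
    have : 0 ≤ ∑ j, ‖v j‖ * R0 := Finset.sum_nonneg fun j _ => by positivity
    linarith
  have hR1 : 0 < R := by linarith
  have hsR : ∀ x ∈ KK v φ, ∀ j, |inner ℝ (v j) x| ≤ R := by
    intro x hx j
    have h1 : ‖x‖ ≤ R0 := by
      have := hCB.sub hx
      rwa [mem_closedBall_zero_iff] at this
    calc |inner ℝ (v j) x| ≤ ‖v j‖ * ‖x‖ := abs_real_inner_le_norm _ _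
      _ ≤ ‖v j‖ * R0 := mul_le_mul_of_nonneg_left h1 (norm_nonneg _)
      _ ≤ ∑ j, ‖v j‖ * R0 :=
        Finset.single_le_sum (f := fun j => ‖v j‖ * R0) (fun j _ => by positivity)
          (Finset.mem_univ j)
      _ ≤ R := by linarith
  let e : ℕ → ℝ := fun k => 1 / ((k:ℝ) + 1 + 1)
  have he0 : ∀ k, 0 < e k := fun k => by positivity
  have heR : ∀ k, e k < R := by
    intro k
    have : e k < 1 := by
      rw [div_lt_one (by positivity)]
      have : (0:ℝ) ≤ k := Nat.cast_nonneg k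
      linarith
    linarith
  have hlim : Tendsto e atTop (𝓝 0) := by
    have h1 := (tendsto_add_atTop_iff_nat 1).2 (tendsto_one_div_add_atTop_nhds_zero_nat (𝕜 := ℝ))
    refine h1.congr fun k => ?_
    simp [e]
  let g : ℕ → ι → ℝ → ℝ := fun k j => gg (φ j) (e k) R
  have hgc : ∀ k j, Continuous (g k j) := fun k j => gg_continuous (hφ j) (he0 k) (heR k)
  let P : ℕ → E → ℝ := fun k => Ph v (fun j => psi (g k j))
  have hPs : ∀ k, ContDiff ℝ 2 (P k) := fun k => (Ph_psi (hgc k)).1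
  -- closeness
  let η : ℕ → ℝ := fun k => ∑ j, 2 * R * deriv (φ j) (e k)
  have hη : Tendsto η atTop (𝓝 0) := by
    have h1 : Tendsto η atTop (𝓝 (∑ j : ι, 2 * R * 0)) := by
      apply tendsto_finsetSum
      intro j _
      apply Tendsto.const_mul
      have h2 : Continuous (deriv (φ j)) := (hφ j).c1.continuous_deriv le_rfl
      have h3 := (h2.tendsto 0).comp hlim
      rwa [(hφ j).deriv_zero] at h3
    simpa using h1
  have hclose : ∀ k, ∀ x ∈ KK v φ, |P k x - Ph v φ x| ≤ η k := by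
    intro k x hx
    simp only [P, Ph, η]
    rw [← Finset.sum_sub_distrib]
    refine (Finset.abs_sum_le_sum_abs _ _).trans (Finset.sum_le_sum fun j _ => ?_)
    exact psi_gg_close (hφ j) hp hpq hq (he0 k) (heR k) (hsR x hx j)
  have hPh0 : ∀ x ∈ KK v φ, |1 - Ph v φ x| ≤ 1 := by
    intro x hx
    have h1 : 0 ≤ Ph v φ x := Ph_nonneg hφ hp x
    have h2 : Ph v φ x < 1 := hx
    rw [abs_of_nonneg (by linarith)]
    linarith
  let c : ℕ → ι → E → ℝ := fun k j x =>
    a / (2 * (1 + (a * (1 - P k x)) ^ 2)) * g k j (inner ℝ (v j) x)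
  have hinner : ∀ j, Continuous (fun x : E => (inner ℝ (v j) x : ℝ)) := fun j =>
    continuous_const.inner continuous_id
  have hcc : ∀ k j, Continuous (c k j) := by
    intro k j
    have h1 : Continuous (P k) := (hPs k).continuous
    have h2 : Continuous (fun x => (2 * (1 + (a * (1 - P k x)) ^ 2))) := by fun_prop
    exact (continuous_const.div h2 (fun x => by positivity)).mul ((hgc k j).comp (hinner j))
  have hbd : ∀ k j, ∃ m M : ℝ, 0 < m ∧ ∀ s, m ≤ g k j s ∧ g k j s ≤ M := fun k j =>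
    gg_bounds (hφ j) hp (he0 k) (heR k)
  have hgpos : ∀ k j s, 0 < g k j s := by
    intro k j s
    obtain ⟨m, M, hm, h⟩ := hbd k j
    exact hm.trans_le (h s).1
  have hcpos : ∀ k j x, 0 < c k j x := by
    intro k j x
    exact mul_pos (by positivity) (hgpos k j _)
  have hcinv : ∀ k j x, (c k j x)⁻¹ = 2 / a * (1 + (a * (1 - P k x)) ^ 2) *
      (g k j (inner ℝ (v j) x))⁻¹ := by
    intro k j x
    have h1 : 0 < 1 + (a * (1 - P k x)) ^ 2 := by positivity
    have h2 := hgpos k j (inner ℝ (v j) x)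
    simp only [c]
    field_simp
  have hkR : ∀ j, 0 < kap (φ j) R := fun j => (hφ j).kap_pos hR1.ne'
  -- the limit
  let L : ι → ℝ := fun j => ∫ x in KK v φ, 2 / a * (1 + (a * (1 - Ph v φ x)) ^ 2) *
    (deriv (deriv (φ j)) |inner ℝ (v j) x|)⁻¹
  have hmom : ∀ j, IntegrableOn (fun x => |inner ℝ (v j) x| ^ (2 - q)) (KK v φ) := by
    intro j
    rcases le_total q 2 with h | h
    · exact (moment_pos hCB (hv0 j) (a := 2 - q) (by linarith) (by linarith)).1
    · have := (moment_neg hCB hsym (hv0 j) (a := q - 2) (by linarith) (by linarith)).1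
      refine this.congr_fun (fun x _ => ?_) hCB.meas
      change |inner ℝ (v j) x| ^ (-(q - 2)) = |inner ℝ (v j) x| ^ (2 - q)
      congr 1; ring
  have htend : ∀ j, Tendsto (fun k => ∫ x in KK v φ, (c k j x)⁻¹) atTop (𝓝 (L j)) := by
    intro j
    apply tendsto_integral_filter_of_dominated_convergence
      (fun x => 2 / a * (1 + (a * 2) ^ 2) *
        (((p - 1) * kap (φ j) R)⁻¹ * ((|inner ℝ (v j) x| / R) ^ (2 - q) + 1)))
    · exact Eventually.of_forall fun k =>
        ((hcc k j).inv₀ (fun x => (hcpos k j x).ne')).aestronglyMeasurable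
    · have h1 : ∀ᶠ k in atTop, η k < 1 := hη.eventually_lt_const zero_lt_one
      filter_upwards [h1] with k hk
      filter_upwards [ae_restrict_mem hCB.meas, ae_restrict_of_ae (inner_ne_ae (hv0 j))] with x hx hs
      rw [Real.norm_eq_abs, abs_of_pos (inv_pos.2 (hcpos k j x)), hcinv]
      have h2 : |1 - P k x| ≤ 2 := by
        have e2 : 1 - P k x = (1 - Ph v φ x) - (P k x - Ph v φ x) := by ring
        rw [e2]
        have := abs_sub (1 - Ph v φ x) (P k x - Ph v φ x)
        linarith [hPh0 x hx, hclose k x hx]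
      have h3 : (a * (1 - P k x)) ^ 2 ≤ (a * 2) ^ 2 := by
        rw [mul_pow, mul_pow]
        apply mul_le_mul_of_nonneg_left _ (sq_nonneg a)
        rw [← sq_abs (1 - P k x)]
        exact pow_le_pow_left₀ (abs_nonneg _) h2 2
      have h4 := gg_inv (hφ j) hp hpq (he0 k) (heR k) hs (hsR x hx j)
      apply mul_le_mul _ h4 (inv_nonneg.2 (hgpos k j _).le) (by positivity)
      exact mul_le_mul_of_nonneg_left (by linarith) (by positivity)
    · apply Integrable.const_mul
      apply Integrable.const_mul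
      have hfin : IntegrableOn (fun _ : E => (1:ℝ)) (KK v φ) :=
        integrableOn_const hCB.lt_top.ne
      have h1 : IntegrableOn (fun x => (|inner ℝ (v j) x| / R) ^ (2 - q)) (KK v φ) := by
        have h2 := (hmom j).div_const (R ^ (2 - q))
        refine h2.congr (Eventually.of_forall fun x => ?_)
        change |inner ℝ (v j) x| ^ (2 - q) / R ^ (2 - q) = (|inner ℝ (v j) x| / R) ^ (2 - q)
        rw [Real.div_rpow (abs_nonneg _) hR1.le]
      exact h1.add hfin
    · filter_upwards [ae_restrict_mem hCB.meas, ae_restrict_of_ae (inner_ne_ae (hv0 j))] with x hx hs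
      have h1 : Tendsto (fun k => P k x) atTop (𝓝 (Ph v φ x)) := by
        rw [tendsto_iff_norm_sub_tendsto_zero]
        refine squeeze_zero (fun k => norm_nonneg _) (fun k => ?_) hη
        rw [Real.norm_eq_abs]
        exact hclose k x hx
      have h2 : Tendsto (fun k => (g k j (inner ℝ (v j) x))⁻¹) atTop
          (𝓝 (deriv (deriv (φ j)) |inner ℝ (v j) x|)⁻¹) := by
        apply tendsto_const_nhds.congr'
        have h3 : ∀ᶠ k in atTop, e k < |inner ℝ (v j) x| :=
          hlim.eventually_lt_const (abs_pos.2 hs)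
        filter_upwards [h3] with k hk
        rw [show g k j (inner ℝ (v j) x) = _ from gg_eq hk.le (hsR x hx j)]
      have h4 : Tendsto (fun k => 2 / a * (1 + (a * (1 - P k x)) ^ 2)) atTop
          (𝓝 (2 / a * (1 + (a * (1 - Ph v φ x)) ^ 2))) := by
        have hc : Continuous (fun y : ℝ => 2 / a * (1 + (a * (1 - y)) ^ 2)) := by fun_prop
        exact (hc.tendsto _).comp h1
      refine (h4.mul h2).congr fun k => ?_
      rw [hcinv]
  have hLbd : ∀ j, L j < 7 * q / (d * (p - 1)) * ∫ x in KK v φ, (kap (φ j) (inner ℝ (v j) x))⁻¹ := by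
    intro j
    obtain ⟨-, hint, -, hpos⟩ := kap_int hCB hsym (hv0 j) (hφ j) hp hpq hq
    set I := ∫ x in KK v φ, (kap (φ j) (inner ℝ (v j) x))⁻¹ with hI
    have hPc : Continuous (Ph v φ) := Ph_continuous hφ
    have hint2 : IntegrableOn (fun x => (1 - Ph v φ x) ^ 2 * (kap (φ j) (inner ℝ (v j) x))⁻¹)
        (KK v φ) := by
      refine Integrable.mono' hint
        (((continuous_const.sub hPc).pow 2).measurable.mul (kap_meas (hφ j) (v j))).aestronglyMeasurable ?_
      filter_upwards [ae_restrict_mem hCB.meas] with x hx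
      have h1 : 0 ≤ (kap (φ j) (inner ℝ (v j) x))⁻¹ := by
        rcases eq_or_ne (inner ℝ (v j) x : ℝ) 0 with h | h
        · rw [h]; simp [kap]
        · exact inv_nonneg.2 ((hφ j).kap_pos h).le
      rw [Real.norm_eq_abs, abs_of_nonneg (mul_nonneg (sq_nonneg _) h1)]
      have h2 : (1 - Ph v φ x) ^ 2 ≤ 1 := by
        rw [← sq_abs]
        have := hPh0 x hx
        nlinarith [abs_nonneg (1 - Ph v φ x)]
      nlinarith
    have h2 := hom_two hφ hp hpq hv (h := fun x => (kap (φ j) (inner ℝ (v j) x))⁻¹)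
      (kap_meas (hφ j) (v j)) (by
        intro x
        rcases eq_or_ne (inner ℝ (v j) x : ℝ) 0 with h | h
        · simp [h, kap]
        · exact inv_nonneg.2 ((hφ j).kap_pos h).le) (α := 2 - q) (by
        change 0 < d + (2 - q)
        linarith) (fun t ht ht1 x => kap_hom (hφ j) (v j) ht ht1 x) hint
    have h3 : L j ≤ ∫ x in KK v φ, (2 / a * (p - 1)⁻¹) *
        ((kap (φ j) (inner ℝ (v j) x))⁻¹ +
          a ^ 2 * ((1 - Ph v φ x) ^ 2 * (kap (φ j) (inner ℝ (v j) x))⁻¹)) := by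
      apply integral_mono_of_nonneg
      · filter_upwards [ae_restrict_of_ae (inner_ne_ae (hv0 j))] with x hs
        have hs' : 0 < |(inner ℝ (v j) x : ℝ)| := abs_pos.2 hs
        have h4 : 0 ≤ deriv (deriv (φ j)) |inner ℝ (v j) x| := by
          have := (hφ j).lower _ hs'
          have h5 := (hφ j).pos _ hs'
          by_contra hneg
          push Not at hneg
          nlinarith
        exact mul_nonneg (by positivity) (inv_nonneg.2 h4)
      · exact (hint.add (hint2.const_mul _)).const_mul _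
      · filter_upwards [ae_restrict_of_ae (inner_ne_ae (hv0 j))] with x hs
        have hs' : 0 < |(inner ℝ (v j) x : ℝ)| := abs_pos.2 hs
        have h5 := (hφ j).pos _ hs'
        have hk := (hφ j).kap_pos hs
        have h4 : (p - 1) * kap (φ j) (inner ℝ (v j) x) ≤ deriv (deriv (φ j)) |inner ℝ (v j) x| := by
          unfold kap
          rw [← mul_div_assoc, div_le_iff₀ hs']
          have := (hφ j).lower _ hs'
          linarith
        have h6 : (deriv (deriv (φ j)) |inner ℝ (v j) x|)⁻¹ ≤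
            ((p - 1) * kap (φ j) (inner ℝ (v j) x))⁻¹ := inv_anti₀ (by positivity) h4
        calc 2 / a * (1 + (a * (1 - Ph v φ x)) ^ 2) * (deriv (deriv (φ j)) |inner ℝ (v j) x|)⁻¹
            ≤ 2 / a * (1 + (a * (1 - Ph v φ x)) ^ 2) *
              ((p - 1) * kap (φ j) (inner ℝ (v j) x))⁻¹ :=
              mul_le_mul_of_nonneg_left h6 (by positivity)
          _ = _ := by rw [mul_inv]; ring
    rw [integral_const_mul, integral_add hint (hint2.const_mul _), integral_const_mul, ← hI] at h3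
    have h4 : a ^ 2 * ∫ x in KK v φ, (1 - Ph v φ x) ^ 2 * (kap (φ j) (inner ℝ (v j) x))⁻¹ ≤ 2 * I := by
      calc _ ≤ a ^ 2 * (2 * q ^ 2 / ((d + (2 - q) + q) * (d + (2 - q) + 2 * q)) * I) :=
            mul_le_mul_of_nonneg_left h2 (sq_nonneg a)
        _ ≤ 2 * I := by
          rw [← mul_assoc]
          apply mul_le_mul_of_nonneg_right _ hpos.le
          have e5 : a ^ 2 * (2 * q ^ 2 / ((d + (2 - q) + q) * (d + (2 - q) + 2 * q))) =
              2 * d ^ 2 / ((d + 2) * (d + 2 + q)) := by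
            rw [ha_def]
            have : d + (2 - q) + q = d + 2 := by ring
            rw [this, show d + (2 - q) + 2 * q = d + 2 + q by ring]
            field_simp
          rw [e5, div_le_iff₀ (by positivity)]
          nlinarith
    have h5 : L j ≤ 2 / a * (p - 1)⁻¹ * (3 * I) := by
      refine h3.trans (mul_le_mul_of_nonneg_left (by linarith) (by positivity))
    have e6 : 2 / a * (p - 1)⁻¹ * (3 * I) = 6 * q / (d * (p - 1)) * I := by
      rw [ha_def]
      field_simp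
      ring
    rw [e6] at h5
    refine h5.trans_lt (mul_lt_mul_of_pos_right ?_ hpos)
    rw [div_lt_div_iff_of_pos_right (by positivity)]
    linarith
  -- choice of k
  have hev : ∀ᶠ k in atTop, (∀ j, ∫ x in KK v φ, (c k j x)⁻¹ < 7 * q / (d * (p - 1)) *
      ∫ x in KK v φ, (kap (φ j) (inner ℝ (v j) x))⁻¹) ∧ η k < 1 / (2 * a) := by
    apply Eventually.and
    · rw [eventually_all]
      exact fun j => (htend j).eventually_lt_const (hLbd j)
    · exact hη.eventually_lt_const (by positivity)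
  obtain ⟨k, hk1, hk2⟩ := hev.exists
  choose m M hm hmM using hbd k
  have hgM : ∀ j s, |g k j s| ≤ M j := by
    intro j s
    rw [abs_of_pos (hgpos k j s)]
    exact (hmM j s).2
  refine ⟨tw a (P k), c k, tw_contDiff (hPs k) a, fun x => (tw_pos a (P k) x).le, ?_, ?_, hcc k,
    hcpos k, ?_, ?_, fun j => (hk1 j).le⟩
  · intro x hx
    apply tw_le
    have h1 := hclose k x hx
    have h2 : Ph v φ x < 1 := hx
    have h3 : P k x ≤ 1 + 1 / (2 * a) := by
      have := le_abs_self (P k x - Ph v φ x)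
      linarith
    have h4 : a * (1 / (2 * a)) = 1 / 2 := by field_simp
    nlinarith
  · refine ⟨2 * a * ∑ j, M j * ‖v j‖ ^ 2, fun x => ?_⟩
    refine (tw_grad (hPs k) ha x).trans ?_
    rw [mul_assoc (2 * a)]
    apply mul_le_mul_of_nonneg_left _ (by positivity)
    have hM0 : ∀ j, 0 ≤ M j := fun j => (abs_nonneg _).trans (hgM j 0)
    have hS0 : 0 ≤ ∑ j, M j * ‖v j‖ ^ 2 :=
      Finset.sum_nonneg fun j _ => mul_nonneg (hM0 j) (by positivity)
    apply ContinuousLinearMap.opNorm_le_bound _ (mul_nonneg hS0 (by positivity))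
    intro w
    have h1 : fderiv ℝ (P k) x w = _ := (Ph_psi (v := v) (hgc k)).2.1 w x
    rw [h1, Real.norm_eq_abs]
    refine (Finset.abs_sum_le_sum_abs _ _).trans ?_
    rw [mul_assoc (∑ j, M j * ‖v j‖ ^ 2), Finset.sum_mul]
    apply Finset.sum_le_sum
    intro j _
    rw [abs_mul]
    have h2 := psi_deriv_bound (hgc k j) (hgM j) (inner ℝ (v j) x)
    have h3 : |inner ℝ (v j) x| ≤ ‖v j‖ * ‖x‖ := abs_real_inner_le_norm _ _
    have h4 : |inner ℝ (v j) w| ≤ ‖v j‖ * ‖w‖ := abs_real_inner_le_norm _ _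
    calc |deriv (psi (g k j)) (inner ℝ (v j) x)| * |inner ℝ (v j) w|
        ≤ (M j * (‖v j‖ * ‖x‖)) * (‖v j‖ * ‖w‖) := by
          apply mul_le_mul _ h4 (abs_nonneg _)
            (mul_nonneg (hM0 j) (by positivity))
          exact h2.trans (mul_le_mul_of_nonneg_left h3 (hM0 j))
      _ = M j * ‖v j‖ ^ 2 * (‖x‖ * ‖w‖) := by ring
      _ ≤ M j * ‖v j‖ ^ 2 * ((1 + ‖x‖) * ‖w‖) := by
          apply mul_le_mul_of_nonneg_left _ (mul_nonneg (hM0 j) (by positivity))
          exact mul_le_mul_of_nonneg_right (by linarith) (norm_nonneg _)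
  · intro j
    have hM0 : ∀ j, 0 ≤ M j := fun j => (abs_nonneg _).trans (hgM j 0)
    apply Gr_aux (B := ∑ i, M i * ‖v i‖ ^ 2) (Finset.sum_nonneg fun i _ =>
      mul_nonneg (hM0 i) (by positivity)) ha (hm j) _ (fun x => (hmM j _).1)
    intro x
    simp only [P, Ph]
    refine (Finset.abs_sum_le_sum_abs _ _).trans ?_
    rw [Finset.sum_mul]
    apply Finset.sum_le_sum
    intro i _
    refine (psi_bd (hgM i) _).trans ?_
    rw [mul_assoc]
    apply mul_le_mul_of_nonneg_left _ (hM0 i)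
    rw [← mul_pow, ← sq_abs]
    exact pow_le_pow_left₀ (abs_nonneg _) (abs_real_inner_le_norm _ _) 2
  · intro x w
    have h1 := (Ph_psi (v := v) (hgc k)).2.2 w x
    have h0 : 0 ≤ D w (D w (P k)) x := by
      have : D w (D w (P k)) x = _ := h1
      rw [this]
      exact Finset.sum_nonneg fun j _ => mul_nonneg (hgpos k j _).le (sq_nonneg _)
    have h2 := tw_hess (hPs k) ha h0
    refine le_trans (le_of_eq ?_) h2
    have : D w (D w (P k)) x = _ := h1
    rw [this, Finset.mul_sum]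
    apply Finset.sum_congr rfl
    intro j _
    simp only [c]
    ring

end Pool.Agent.H73.Lp
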