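import Pool.Agent.H73.Lp.BAS
import Pool.Agent.H73.Lp.AAA
import Pool.Agent.H73.Lp.HOM
import Pool.Agent.H73.Lp.CRL
import Pool.Agent.H73.Lp.TLT
import Pool.Agent.H73.Lp.BDY

/-!
# Assembly: the Poincaré inequality for the body
-/

set_option autoImplicit false

open MeasureTheory Set

namespace Pool.Agent.H73.Lp

open Pool.Agent.H84 Pool.Agent.H84.Sym

universe u
variable {E : Type u} [NormedAddCommGroup E] [InnerProductSpace ℝ E]
    [FiniteDimensional ℝ E] [MeasurableSpace E] [BorelSpace E] {p q : ℝ}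
variable {ι : Type*} [Fintype ι] {v : ι → E} {φ : ι → ℝ → ℝ}

theorem exp_two_lt : Real.exp 2 < 7.39 := by
  have h := Real.exp_one_lt_d9
  have h2 : Real.exp 2 = Real.exp 1 * Real.exp 1 := by rw [← Real.exp_add]; norm_num
  have h0 := Real.exp_pos 1
  rw [h2]
  nlinarith

omit [Fintype ι] in
theorem kap_measurable (hφ : ∀ j, Orl p q (φ j)) (j : ι) :
    Measurable (fun x : E => kap (φ j) (inner ℝ (v j) x)) := by
  unfold kap
  have h1 : Continuous (deriv (φ j)) := (hφ j).c1.continuous_deriv le_rfl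
  have h2 : Measurable (fun x : E => |(inner ℝ (v j) x : ℝ)|) := by fun_prop
  exact (h1.measurable.comp h2).div h2

theorem kap_scale {φ : ℝ → ℝ} (hφ : Orl p q φ) {t s : ℝ} (ht : 0 < t) (ht1 : t ≤ 1) :
    kap φ (t * s) ≤ t ^ (p - 2) * kap φ s := by
  rcases eq_or_ne s 0 with rfl | hs
  · simp [kap]
  have habs : ∀ r, kap φ |r| = kap φ r := fun r => by simp [kap]
  rw [← habs (t * s), ← habs s, abs_mul, abs_of_pos ht]
  have hs' : 0 < |s| := abs_pos.2 hs
  have h := hφ.kap_low (s := t * |s|) (t := |s|) (by positivity)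
    (by nlinarith)
  rw [Real.mul_rpow ht.le hs'.le] at h
  have h1 : 0 < |s| ^ (2 - p) := Real.rpow_pos_of_pos hs' _
  have h2 : kap φ (t * |s|) * t ^ (2 - p) ≤ kap φ |s| := by
    have : kap φ (t * |s|) * t ^ (2 - p) * |s| ^ (2 - p) ≤ kap φ |s| * |s| ^ (2 - p) := by
      calc _ = kap φ (t * |s|) * (t ^ (2 - p) * |s| ^ (2 - p)) := by ring
        _ ≤ _ := h
    exact le_of_mul_le_mul_right this h1
  have h3 : t ^ (p - 2) * t ^ (2 - p) = 1 := by
    rw [← Real.rpow_add ht]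
    simp
  have h4 : 0 < t ^ (p - 2) := Real.rpow_pos_of_pos ht _
  calc kap φ (t * |s|) = (t ^ (p - 2) * t ^ (2 - p)) * kap φ (t * |s|) := by rw [h3, one_mul]
    _ = t ^ (p - 2) * (kap φ (t * |s|) * t ^ (2 - p)) := by ring
    _ ≤ t ^ (p - 2) * kap φ |s| := mul_le_mul_of_nonneg_left h2 h4.le

theorem kap_nonneg {φ : ℝ → ℝ} (hφ : Orl p q φ) (s : ℝ) : 0 ≤ kap φ s := by
  rcases eq_or_ne s 0 with rfl | hs
  · simp [kap]
  · exact (hφ.kap_pos hs).le

/-- The Cramér-Rao bound in its final form. -/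
theorem cov_lower [Nontrivial E] (hφ : ∀ j, Orl p q (φ j)) (hp : 1 < p) (hpq : p ≤ q) (hq : q < 3)
    (hv : Spans v) (hv0 : ∀ j, v j ≠ 0) {s : ℝ}
    (hcov : ∀ w, ∫ x in KK v φ, (inner ℝ w x) ^ 2 ≤ s ^ 2 * ‖w‖ ^ 2 * volume.real (KK v φ))
    (w : E) :
    ‖w‖ ^ 2 * volume.real (KK v φ) ≤ 972 * (q - 1) * Module.finrank ℝ E * s ^ 2 *
      ∑ j, (∫ x in KK v φ, kap (φ j) (inner ℝ (v j) x)) * (inner ℝ (v j) w) ^ 2 := by
  obtain ⟨R, hR0, hK⟩ := KK_CB hφ hp hpq hv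
  have hsymm : ∀ x ∈ KK v φ, -x ∈ KK v φ := fun x hx => KK_neg hφ hx
  set d : ℝ := (Module.finrank ℝ E : ℝ) with hd
  have hd1 : 1 ≤ d := by
    rw [hd]
    exact_mod_cast Module.finrank_pos (R := ℝ) (M := E)
  set V := volume.real (KK v φ) with hVdef
  have hV : 0 < V := ENNReal.toReal_pos hK.vol0 hK.lt_top.ne
  have hq0 : 0 < q := by linarith
  have h1 := hom_low hφ hp hpq hv
  have h2 := hom_one hφ hp hpq hv (h := fun x => (inner ℝ w x) ^ 2) (α := 2)
    (by fun_prop) (fun x => sq_nonneg _) (by rw [← hd]; linarith)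
    (fun t ht _ x => by
      simp only [inner_smul_right]
      rw [Real.rpow_two, mul_pow]) (by
      refine Measure.integrableOn_of_bounded (M := (‖w‖ * R) ^ 2) hK.lt_top.ne
        (by fun_prop) ?_
      refine (ae_restrict_iff' hK.meas).2 (Filter.Eventually.of_forall fun x hx => ?_)
      have hxR : ‖x‖ ≤ R := by simpa using hK.sub hx
      rw [norm_pow]
      refine pow_le_pow_left₀ (norm_nonneg _) ?_ 2
      exact (norm_inner_le_norm w x).trans (by gcongr))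
  have h3 : ∀ j, ∫ x in KK v φ, (1 - Ph v φ x) ^ 2 * kap (φ j) (inner ℝ (v j) x) ≤
      2 * q ^ 2 / d ^ 2 * ∫ x in KK v φ, kap (φ j) (inner ℝ (v j) x) := by
    intro j
    obtain ⟨i1, -, -, -⟩ := kap_int hK hsymm (hv0 j) (hφ j) hp hpq hq
    have h := hom_two hφ hp hpq hv (h := fun x => kap (φ j) (inner ℝ (v j) x)) (α := p - 2)
      (kap_measurable hφ j) (fun x => kap_nonneg (hφ j) _) (by rw [← hd]; linarith)
      (fun t ht ht1 x => by
        simp only [inner_smul_right]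
        exact kap_scale (hφ j) ht ht1) i1
    refine h.trans ?_
    have hnn : 0 ≤ ∫ x in KK v φ, kap (φ j) (inner ℝ (v j) x) :=
      integral_nonneg fun x => kap_nonneg (hφ j) _
    refine mul_le_mul_of_nonneg_right ?_ hnn
    rw [← hd]
    refine div_le_div_of_nonneg_left (by positivity) (by positivity) ?_
    nlinarith
  have hcr := cramer hφ hp hpq hq hv hv0 w
  set A := ∫ x in KK v φ, (1 - Ph v φ x) ^ 2 with hA
  set B := ∫ x in KK v φ, (1 - Ph v φ x) * (inner ℝ w x) ^ 2 with hB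
  set S := ∑ j, (∫ x in KK v φ, kap (φ j) (inner ℝ (v j) x)) * (inner ℝ (v j) w) ^ 2 with hS
  have hS0 : 0 ≤ S := Finset.sum_nonneg fun j _ =>
    mul_nonneg (integral_nonneg fun x => kap_nonneg (hφ j) _) (sq_nonneg _)
  -- lower bound of A
  have hAl : V / (3 * d ^ 2) ≤ A := by
    refine le_trans ?_ h1
    rw [← hd]
    have : 1 / (3 * d ^ 2) ≤ 2 * p ^ 2 / ((d + p) * (d + 2 * p)) := by
      rw [div_le_div_iff₀ (by positivity) (by positivity)]
      nlinarith [mul_pos (by linarith : (0:ℝ) < p) (by linarith : (0:ℝ) < d),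
        mul_nonneg (by linarith : (0:ℝ) ≤ p - 1) (by linarith : (0:ℝ) ≤ d - 1),
        mul_nonneg (mul_nonneg (by linarith : (0:ℝ) ≤ p - 1) (by linarith : (0:ℝ) ≤ p + 1))
          (sq_nonneg d), mul_nonneg (mul_nonneg (by linarith : (0:ℝ) ≤ d - 1)
          (by linarith : (0:ℝ) ≤ d + 1)) (sq_nonneg p),
        mul_nonneg (mul_pos (by linarith : (0:ℝ) < p) (by linarith : (0:ℝ) < d)).le
          (by nlinarith : (0:ℝ) ≤ p * d - 1)]
    calc V / (3 * d ^ 2) = 1 / (3 * d ^ 2) * V := by ring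
      _ ≤ _ := mul_le_mul_of_nonneg_right this hV.le
  -- upper bound of B
  have hBu : B ≤ q / d * (s ^ 2 * ‖w‖ ^ 2 * V) := by
    refine h2.trans ?_
    have hi0 : 0 ≤ ∫ x in KK v φ, (inner ℝ w x : ℝ) ^ 2 := integral_nonneg fun x => sq_nonneg _
    rw [← hd]
    refine mul_le_mul ?_ (hcov w) hi0 (by positivity)
    refine div_le_div_of_nonneg_left (by linarith) (by linarith) (by linarith)
  -- upper bound of the sum
  have hSu : ∑ j, (q - 1) * (inner ℝ (v j) w) ^ 2 *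
      ∫ x in KK v φ, (1 - Ph v φ x) ^ 2 * kap (φ j) (inner ℝ (v j) x) ≤
      (q - 1) * (2 * q ^ 2 / d ^ 2) * S := by
    rw [hS, Finset.mul_sum]
    refine Finset.sum_le_sum fun j _ => ?_
    calc _ ≤ (q - 1) * (inner ℝ (v j) w) ^ 2 *
          (2 * q ^ 2 / d ^ 2 * ∫ x in KK v φ, kap (φ j) (inner ℝ (v j) x)) :=
          mul_le_mul_of_nonneg_left (h3 j) (mul_nonneg (by linarith) (sq_nonneg _))
      _ = _ := by ring
  have hB0 : 0 ≤ q / d * (s ^ 2 * ‖w‖ ^ 2 * V) := by positivity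
  have hsum0 : 0 ≤ ∑ j, (q - 1) * (inner ℝ (v j) w) ^ 2 *
      ∫ x in KK v φ, (1 - Ph v φ x) ^ 2 * kap (φ j) (inner ℝ (v j) x) := by
    refine Finset.sum_nonneg fun j _ => mul_nonneg (mul_nonneg (by linarith) (sq_nonneg _)) ?_
    exact integral_nonneg fun x => mul_nonneg (sq_nonneg _) (kap_nonneg (hφ j) _)
  have hmain : (‖w‖ ^ 2 * (V / (3 * d ^ 2))) ^ 2 ≤
      2 * (q / d * (s ^ 2 * ‖w‖ ^ 2 * V)) * ((q - 1) * (2 * q ^ 2 / d ^ 2) * S) := by
    calc _ ≤ (‖w‖ ^ 2 * A) ^ 2 := by gcongr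
      _ ≤ _ := hcr
      _ ≤ _ := by
        refine mul_le_mul (by linarith) hSu hsum0 (by positivity)
  rcases eq_or_ne w 0 with rfl | hw
  · simp only [norm_zero]
    have : 0 ≤ 972 * (q - 1) * d * s ^ 2 * S := by
      have : 0 ≤ q - 1 := by linarith
      positivity
    simpa using this
  have hw2 : 0 < ‖w‖ ^ 2 := by positivity
  have hq3 : q ^ 3 ≤ 27 := by nlinarith [sq_nonneg q]
  have e1 : (‖w‖ ^ 2 * (V / (3 * d ^ 2))) ^ 2 = (‖w‖ ^ 2 * V / (9 * d ^ 4)) * (‖w‖ ^ 2 * V) := by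
    field_simp
    ring
  have e2 : 2 * (q / d * (s ^ 2 * ‖w‖ ^ 2 * V)) * ((q - 1) * (2 * q ^ 2 / d ^ 2) * S) =
      (‖w‖ ^ 2 * V / (9 * d ^ 4)) * (36 * q ^ 3 * (q - 1) * d * s ^ 2 * S) := by
    field_simp
    ring
  rw [e1, e2] at hmain
  have h5 : ‖w‖ ^ 2 * V ≤ 36 * q ^ 3 * (q - 1) * d * s ^ 2 * S :=
    le_of_mul_le_mul_left hmain (by positivity)
  refine h5.trans ?_
  have hq1 : 0 ≤ (q - 1) * d * s ^ 2 * S := by
    have : 0 ≤ q - 1 := by linarith
    positivity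
  calc 36 * q ^ 3 * (q - 1) * d * s ^ 2 * S = (36 * q ^ 3) * ((q - 1) * d * s ^ 2 * S) := by ring
    _ ≤ (36 * 27) * ((q - 1) * d * s ^ 2 * S) := by gcongr
    _ = _ := by ring

theorem body_pc [Nontrivial E] (hφ : ∀ j, Orl p q (φ j)) (hp : 1 < p) (hpq : p ≤ q) (hq : q < 3)
    (hv : Spans v) (hv0 : ∀ j, v j ≠ 0) {A : ℝ}
    (hA : ∀ j, (∫ x in KK v φ, kap (φ j) (inner ℝ (v j) x)) *
      (∫ x in KK v φ, (kap (φ j) (inner ℝ (v j) x))⁻¹) ≤ A * volume.real (KK v φ) ^ 2)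
    {s : ℝ} (hs : 0 < s)
    (hcov : ∀ w, ∫ x in KK v φ, (inner ℝ w x) ^ 2 ≤ s ^ 2 * ‖w‖ ^ 2 * volume.real (KK v φ)) :
    PC (KK v φ) (1200 * Real.sqrt (A * ((q - 1) / (p - 1))) * s) := by
  obtain ⟨R, hR0, hK⟩ := KK_CB hφ hp hpq hv
  have hsymm : ∀ x ∈ KK v φ, -x ∈ KK v φ := fun x hx => KK_neg hφ hx
  set d : ℝ := (Module.finrank ℝ E : ℝ) with hd
  have hd1 : 1 ≤ d := by
    rw [hd]
    exact_mod_cast Module.finrank_pos (R := ℝ) (M := E)
  set V := volume.real (KK v φ) with hVdef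
  have hV : 0 < V := ENNReal.toReal_pos hK.vol0 hK.lt_top.ne
  have hint := fun j => kap_int hK hsymm (hv0 j) (hφ j) hp hpq hq
  obtain ⟨W, c, hW, hW0, hW2, hWg, hc, hc0, hcg, hH, hcint⟩ := tilt hφ hp hpq hq hv hv0
  set a : ι → ℝ := fun j => ∫ x in KK v φ, kap (φ j) (inner ℝ (v j) x) with ha
  set r : ι → ℝ := fun j => ∫ x in KK v φ, (kap (φ j) (inner ℝ (v j) x))⁻¹ with hr
  have ha0 : ∀ j, 0 < a j := fun j => (hint j).2.2.1
  have hr0 : ∀ j, 0 < r j := fun j => (hint j).2.2.2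
  obtain ⟨w0, hw0⟩ := exists_ne (0 : E)
  have hne : Nonempty ι := by
    by_contra h
    rw [not_nonempty_iff] at h
    exact hw0 (hv w0 fun j => (h.false j).elim)
  have hA0 : 0 < A := by
    obtain ⟨j⟩ := hne
    have h1 := hA j
    have h2 : 0 < a j * r j := mul_pos (ha0 j) (hr0 j)
    have h3 : 0 < A * V ^ 2 := h2.trans_le h1
    exact (mul_pos_iff_of_pos_right (by positivity)).1 h3
  have hp1 : 0 < p - 1 := by linarith
  have hq1 : 0 < q - 1 := by linarith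
  have he := exp_two_lt
  have he0 := Real.exp_pos 2
  set β : ι → ℝ := fun j => d * (p - 1) * V / (8 * q * Real.exp 2 * r j) with hβdef
  have hβ0 : ∀ j, 0 < β j := fun j => by
    have := hr0 j
    have : 0 < q := by linarith
    simp only [hβdef]
    positivity
  have hβ : ∀ j, β j * (Real.exp 2 * ∫ x in KK v φ, (c j x)⁻¹) < V := by
    intro j
    have hrj := hr0 j
    have hq0 : 0 < q := by linarith
    calc β j * (Real.exp 2 * ∫ x in KK v φ, (c j x)⁻¹)
        ≤ β j * (Real.exp 2 * (7 * q / (d * (p - 1)) * r j)) := by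
          have := hcint j
          have hb := hβ0 j
          gcongr
      _ = 7 / 8 * V := by
          simp only [hβdef]
          field_simp
      _ < V := by linarith
  set L : ℝ := 23328 * Real.exp 2 * (A * ((q - 1) / (p - 1))) * s ^ 2 with hL
  have hL0 : 0 < L := by positivity
  have hAw : ∀ w, ‖w‖ ^ 2 ≤ L * ∑ j, β j * (inner ℝ (v j) w) ^ 2 := by
    intro w
    have h1 := cov_lower hφ hp hpq hq hv hv0 hcov w
    have h2 : ∑ j, a j * (inner ℝ (v j) w) ^ 2 ≤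
        8 * q * Real.exp 2 * A * V / (d * (p - 1)) * ∑ j, β j * (inner ℝ (v j) w) ^ 2 := by
      rw [Finset.mul_sum]
      refine Finset.sum_le_sum fun j _ => ?_
      have hrj := hr0 j
      have hq0 : 0 < q := by linarith
      have h3 : a j ≤ A * V ^ 2 / r j := by
        rw [le_div_iff₀ hrj]
        exact hA j
      have h4 : 8 * q * Real.exp 2 * A * V / (d * (p - 1)) * (β j * (inner ℝ (v j) w) ^ 2) =
          A * V ^ 2 / r j * (inner ℝ (v j) w) ^ 2 := by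
        simp only [hβdef]
        field_simp
      rw [h4]
      exact mul_le_mul_of_nonneg_right h3 (sq_nonneg _)
    have hT0 : 0 ≤ ∑ j, β j * (inner ℝ (v j) w) ^ 2 :=
      Finset.sum_nonneg fun j _ => mul_nonneg (hβ0 j).le (sq_nonneg _)
    have h5 : ‖w‖ ^ 2 * V ≤ (L * ∑ j, β j * (inner ℝ (v j) w) ^ 2) * V := by
      calc ‖w‖ ^ 2 * V ≤ 972 * (q - 1) * d * s ^ 2 * ∑ j, a j * (inner ℝ (v j) w) ^ 2 := h1
        _ ≤ 972 * (q - 1) * d * s ^ 2 * (8 * q * Real.exp 2 * A * V / (d * (p - 1)) *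
              ∑ j, β j * (inner ℝ (v j) w) ^ 2) := by gcongr
        _ = (7776 * q * Real.exp 2 * (A * ((q - 1) / (p - 1))) * s ^ 2 *
              ∑ j, β j * (inner ℝ (v j) w) ^ 2) * V := by
            field_simp
            ring
        _ ≤ (L * ∑ j, β j * (inner ℝ (v j) w) ^ 2) * V := by
            rw [hL]
            gcongr
            linarith
    exact le_of_mul_le_mul_right h5 hV
  have hfin := pc_tilt hK hW hW0 hW2 hWg hc hc0 hcg hH (fun j => (hβ0 j).le) hβ hL0 hAw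
  refine hfin.mono (Real.sqrt_nonneg _) ?_
  set X := A * ((q - 1) / (p - 1)) with hX
  have hX0 : 0 < X := by positivity
  have e1 : Real.exp 2 * L ≤ (1200 * Real.sqrt X * s) ^ 2 := by
    rw [mul_pow, mul_pow, Real.sq_sqrt hX0.le, hL]
    have : Real.exp 2 * (23328 * Real.exp 2 * X * s ^ 2) =
        (23328 * Real.exp 2 ^ 2) * (X * s ^ 2) := by ring
    rw [this]
    have h6 : 23328 * Real.exp 2 ^ 2 ≤ 1200 ^ 2 := by nlinarith
    calc (23328 * Real.exp 2 ^ 2) * (X * s ^ 2) ≤ 1200 ^ 2 * (X * s ^ 2) := by gcongr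
      _ = _ := by ring
  exact (Real.sqrt_le_sqrt e1).trans (by rw [Real.sqrt_sq (by positivity)])

end Pool.Agent.H73.Lp
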