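import Pool.Agent.H73.Lp.ORL

/-!
# Module BAS: elementary properties of the body
-/

set_option autoImplicit false

open MeasureTheory Set

namespace Pool.Agent.H73.Lp

open Pool.Agent.H84

variable {p q : ℝ}
variable {E : Type*} [NormedAddCommGroup E] [InnerProductSpace ℝ E]
variable {ι : Type*} [Fintype ι] {v : ι → E} {φ : ι → ℝ → ℝ}

theorem Ph_continuous (hφ : ∀ j, Orl p q (φ j)) : Continuous (Ph v φ) := by
  unfold Ph
  refine continuous_finsetSum _ fun j _ => ?_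
  exact (hφ j).c1.continuous.comp (continuous_const.inner continuous_id)

theorem Ph_nonneg (hφ : ∀ j, Orl p q (φ j)) (hp : 1 < p) (x : E) : 0 ≤ Ph v φ x := by
  unfold Ph
  refine Finset.sum_nonneg fun j _ => ?_
  by_cases h : (inner ℝ (v j) x : ℝ) = 0
  · rw [h, (hφ j).zero]
  · exact ((hφ j).pos_of_ne hp h).le

theorem Ph_scale_le (hφ : ∀ j, Orl p q (φ j)) (hp : 1 < p) {t : ℝ} (ht : 0 ≤ t) (ht1 : t ≤ 1)
    (x : E) : Ph v φ (t • x) ≤ t ^ p * Ph v φ x := by
  unfold Ph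
  rw [Finset.mul_sum]
  refine Finset.sum_le_sum fun j _ => ?_
  rw [real_inner_smul_right]
  exact (hφ j).scale_le hp ht ht1 _

theorem Ph_scale_ge (hφ : ∀ j, Orl p q (φ j)) (hp : 1 < p) (hpq : p ≤ q) {t : ℝ} (ht : 0 ≤ t)
    (ht1 : t ≤ 1) (x : E) : t ^ q * Ph v φ x ≤ Ph v φ (t • x) := by
  unfold Ph
  rw [Finset.mul_sum]
  refine Finset.sum_le_sum fun j _ => ?_
  rw [real_inner_smul_right]
  exact (hφ j).scale_ge hp hpq ht ht1 _

theorem KK_isOpen (hφ : ∀ j, Orl p q (φ j)) : IsOpen (KK v φ) :=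
  isOpen_lt (Ph_continuous hφ) continuous_const

theorem KK_neg (hφ : ∀ j, Orl p q (φ j)) {x : E} (hx : x ∈ KK v φ) : -x ∈ KK v φ := by
  have h : Ph v φ (-x) = Ph v φ x := by
    unfold Ph
    refine Finset.sum_congr rfl fun j _ => ?_
    rw [inner_neg_right, (hφ j).even]
  show Ph v φ (-x) < 1
  rw [h]
  exact hx

theorem KK_zero (hφ : ∀ j, Orl p q (φ j)) : (0 : E) ∈ KK v φ := by
  show Ph v φ 0 < 1
  unfold Ph
  have : ∀ j, φ j 0 = 0 := fun j => (hφ j).zero
  simp [this]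

theorem KK_convex (hφ : ∀ j, Orl p q (φ j)) (hp : 1 < p) : Convex ℝ (KK v φ) := by
  have hconv : ConvexOn ℝ univ (Ph v φ) := by
    have h1 : ∀ j ∈ (Finset.univ : Finset ι),
        ConvexOn ℝ univ (fun x : E => φ j (inner ℝ (v j) x)) := by
      intro j _
      have := ((hφ j).conv hp).comp_linearMap (innerₛₗ ℝ (v j))
      simpa [Function.comp_def] using this
    have h2 : ConvexOn ℝ univ (fun x : E => ∑ j, φ j (inner ℝ (v j) x)) := by
      have : ∀ s : Finset ι, ConvexOn ℝ univ (fun x : E => ∑ j ∈ s, φ j (inner ℝ (v j) x)) := by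
        intro s
        classical
        induction s using Finset.induction_on with
        | empty => simpa using convexOn_const (0:ℝ) convex_univ
        | insert a s ha ih =>
          simp_rw [Finset.sum_insert ha]
          exact (h1 a (Finset.mem_univ _)).add ih
      exact this _
    exact h2
  have := hconv.convex_lt 1
  simpa [KK] using this

variable [FiniteDimensional ℝ E]

/-- Neighbourhoods of the closure: `Φ ≥ 2` outside of a ball. -/
private theorem Ph_large' (hφ : ∀ j, Orl p q (φ j)) (hp : 1 < p)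
    (hv : Spans v) :
    ∃ R : ℝ, 0 < R ∧ ∀ x : E, R ≤ ‖x‖ → 2 ≤ Ph v φ x := by
  have hpos : ∀ x : E, x ≠ 0 → 0 < Ph v φ x := by
    intro x hx
    have : ∃ j, (inner ℝ (v j) x : ℝ) ≠ 0 := by
      by_contra hcon
      push Not at hcon
      exact hx (hv x hcon)
    obtain ⟨j, hj⟩ := this
    refine lt_of_lt_of_le ((hφ j).pos_of_ne hp hj) ?_
    refine Finset.single_le_sum (f := fun j => φ j (inner ℝ (v j) x)) (fun i _ => ?_)
      (Finset.mem_univ j)
    by_cases h : (inner ℝ (v i) x : ℝ) = 0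
    · show 0 ≤ φ i (inner ℝ (v i) x)
      rw [h, (hφ i).zero]
    · exact ((hφ i).pos_of_ne hp h).le
  rcases (Metric.sphere (0:E) 1).eq_empty_or_nonempty with he | hne
  · refine ⟨1, one_pos, fun x hx => ?_⟩
    exfalso
    have hx0 : ‖x‖ ≠ 0 := by linarith
    have : (‖x‖⁻¹ • x) ∈ Metric.sphere (0:E) 1 := by
      rw [mem_sphere_zero_iff_norm, norm_smul, norm_inv, norm_norm, inv_mul_cancel₀ hx0]
    rw [he] at this
    exact this
  · obtain ⟨y, hy, hmin⟩ := (isCompact_sphere (0:E) 1).exists_isMinOn hne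
      (Ph_continuous hφ (v := v)).continuousOn
    have hy0 : y ≠ 0 := by
      rintro rfl
      simp at hy
    have hm : 0 < Ph v φ y := hpos y hy0
    set m := Ph v φ y with hmdef
    refine ⟨max 1 (2 / m), lt_max_of_lt_left one_pos, fun x hx => ?_⟩
    have hx1 : 1 ≤ ‖x‖ := (le_max_left _ _).trans hx
    have hx2 : 2 / m ≤ ‖x‖ := (le_max_right _ _).trans hx
    have hx0 : 0 < ‖x‖ := by linarith
    have hs : (‖x‖⁻¹ • x) ∈ Metric.sphere (0:E) 1 := by
      rw [mem_sphere_zero_iff_norm, norm_smul, norm_inv, norm_norm, inv_mul_cancel₀ hx0.ne']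
    have h1 : m ≤ Ph v φ (‖x‖⁻¹ • x) := hmin hs
    have h2 : Ph v φ (‖x‖⁻¹ • x) ≤ (‖x‖⁻¹) ^ p * Ph v φ x :=
      Ph_scale_le hφ hp (inv_nonneg.2 hx0.le) (inv_le_one_of_one_le₀ hx1) x
    have h3 : (‖x‖⁻¹) ^ p ≤ ‖x‖⁻¹ := by
      have := Real.rpow_le_rpow_of_exponent_ge (inv_pos.2 hx0) (inv_le_one_of_one_le₀ hx1) hp.le
      simpa using this
    have h4 : m ≤ ‖x‖⁻¹ * Ph v φ x :=
      h1.trans (h2.trans (mul_le_mul_of_nonneg_right h3 (Ph_nonneg hφ hp x)))
    have h5 : ‖x‖ * m ≤ Ph v φ x := by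
      rw [inv_mul_eq_div, le_div_iff₀ hx0] at h4
      linarith
    have h6 : 2 ≤ ‖x‖ * m := by
      rwa [div_le_iff₀ hm] at hx2
    linarith

theorem KK_bounded (hφ : ∀ j, Orl p q (φ j)) (hp : 1 < p) (hpq : p ≤ q) (hv : Spans v) :
    Bornology.IsBounded (KK v φ) := by
  obtain ⟨R, -, hR⟩ := Ph_large' hφ hp hv
  refine (Metric.isBounded_closedBall (x := (0:E)) (r := R)).subset fun x hx => ?_
  rw [mem_closedBall_zero_iff]
  by_contra hcon
  push Not at hcon
  have h1 := hR x hcon.le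
  have h2 : Ph v φ x < 1 := hx
  linarith

/-- Neighbourhoods of the closure: `Φ ≥ 2` outside of a ball. -/
theorem Ph_large (hφ : ∀ j, Orl p q (φ j)) (hp : 1 < p) (hpq : p ≤ q) (hv : Spans v) :
    ∃ R : ℝ, 0 < R ∧ ∀ x : E, R ≤ ‖x‖ → 2 ≤ Ph v φ x := Ph_large' hφ hp hv

variable [MeasurableSpace E] [BorelSpace E]

theorem KK_CB (hφ : ∀ j, Orl p q (φ j)) (hp : 1 < p) (hpq : p ≤ q) (hv : Spans v) :
    ∃ R : ℝ, 0 < R ∧ CB (KK v φ) R := by
  obtain ⟨R, hR0, hR⟩ := Ph_large' hφ hp hv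
  refine ⟨R, hR0, KK_convex hφ hp, (KK_isOpen hφ).measurableSet, fun x hx => ?_, ?_⟩
  · rw [mem_closedBall_zero_iff]
    by_contra hcon
    push Not at hcon
    have h1 := hR x hcon.le
    have h2 : Ph v φ x < 1 := hx
    linarith
  · exact ((KK_isOpen hφ).measure_pos volume ⟨0, KK_zero hφ⟩).ne'

end Pool.Agent.H73.Lp
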