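import Pool.Agent.H84.Sym.Defs2
import Pool.Agent.H84.Unc.Reduce

/-!
# Sections of generalised Orlicz balls: shared definitions
-/

set_option autoImplicit false

open MeasureTheory Set

namespace Pool.Agent.H73.Lp

/-- Even functions `φ`, `C¹` on `ℝ` and `C²` on `(0,∞)`, with `φ 0 = 0`, `φ' > 0` and
`(p - 1) φ' ≤ s φ'' ≤ (q - 1) φ'` on `(0,∞)`. -/
structure Orl (p q : ℝ) (φ : ℝ → ℝ) : Prop where
  zero : φ 0 = 0
  even : ∀ s, φ (-s) = φ s
  c1 : ContDiff ℝ 1 φ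
  c2 : ContDiffOn ℝ 2 φ (Ioi 0)
  pos : ∀ s, 0 < s → 0 < deriv φ s
  lower : ∀ s, 0 < s → (p - 1) * deriv φ s ≤ s * deriv (deriv φ) s
  upper : ∀ s, 0 < s → s * deriv (deriv φ) s ≤ (q - 1) * deriv φ s

/-- `φ'(|s|)/|s|`. -/
noncomputable def kap (φ : ℝ → ℝ) (s : ℝ) : ℝ := deriv φ |s| / |s|

/-- The regularised second derivative. -/
noncomputable def gg (φ : ℝ → ℝ) (ε R s : ℝ) : ℝ := deriv (deriv φ) (min (max |s| ε) R)

/-- The function with second derivative `g` and value and first derivative zero at the origin. -/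
noncomputable def psi (g : ℝ → ℝ) (s : ℝ) : ℝ := ∫ u in (0:ℝ)..s, (s - u) * g u

variable {E : Type*} [NormedAddCommGroup E] [InnerProductSpace ℝ E]
variable {ι : Type*} [Fintype ι]

/-- `Φ(x) = ∑ φ_j(⟨v_j, x⟩)`. -/
noncomputable def Ph (v : ι → E) (φ : ι → ℝ → ℝ) (x : E) : ℝ := ∑ j, φ j (inner ℝ (v j) x)

/-- The body `{Φ < 1}`. -/
def KK (v : ι → E) (φ : ι → ℝ → ℝ) : Set E := {x | Ph v φ x < 1}

/-- No nonzero vector is orthogonal to all `v_j`. -/
def Spans (v : ι → E) : Prop := ∀ x : E, (∀ j, inner ℝ (v j) x = (0:ℝ)) → x = 0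

/-- The mean of `|⟨v, x⟩|` over `K`. -/
noncomputable def m1 [MeasurableSpace E] [BorelSpace E] [FiniteDimensional ℝ E] (K : Set E) (v : E) : ℝ :=
  (∫ x in K, |inner ℝ v x|) / volume.real K

end Pool.Agent.H73.Lp
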