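import Pool.Agent.H73.Lp.Defs

/-!
# Module LIM: limits of Poincaré inequalities
-/

set_option autoImplicit false

open MeasureTheory Set Filter Topology

namespace Pool.Agent.H73.Lp

open Pool.Agent.H84

variable {E : Type*} [NormedAddCommGroup E] [InnerProductSpace ℝ E]
    [FiniteDimensional ℝ E] [MeasurableSpace E] [BorelSpace E]

private theorem tendsto_aux {K : Set E} {Kn : ℕ → Set E} {R : ℝ} (hKm : MeasurableSet K)
    (hnm : ∀ n, MeasurableSet (Kn n))
    (hnR : ∀ n, Kn n ⊆ Metric.closedBall 0 R)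
    (hlim : ∀ᵐ x ∂(volume : Measure E), ∀ᶠ n in atTop, (x ∈ Kn n ↔ x ∈ K))
    {f : E → ℝ} (hf : Continuous f) :
    Tendsto (fun n => ∫ x in Kn n, f x) atTop (𝓝 (∫ x in K, f x)) := by
  obtain ⟨M, hM⟩ :=
    (isCompact_closedBall (0:E) R).exists_bound_of_continuousOn hf.continuousOn
  have h1 : ∀ n, ∫ x in Kn n, f x = ∫ x, (Kn n).indicator f x :=
    fun n => (integral_indicator (hnm n)).symm
  simp_rw [h1, ← integral_indicator hKm]
  refine tendsto_integral_of_dominated_convergence
    ((Metric.closedBall (0:E) R).indicator (fun _ => M)) ?_ ?_ ?_ ?_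
  · intro n
    exact (hf.measurable.indicator (hnm n)).aestronglyMeasurable
  · rw [integrable_indicator_iff Metric.isClosed_closedBall.measurableSet]
    exact integrableOn_const (isCompact_closedBall (0:E) R).measure_lt_top.ne
  · intro n
    refine Filter.Eventually.of_forall fun x => ?_
    by_cases hx : x ∈ Kn n
    · rw [indicator_of_mem hx, indicator_of_mem (hnR n hx)]
      exact hM x (hnR n hx)
    · rw [indicator_of_notMem hx, norm_zero]
      by_cases hx2 : x ∈ Metric.closedBall (0:E) R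
      · rw [indicator_of_mem hx2]
        exact (norm_nonneg _).trans (hM x hx2)
      · rw [indicator_of_notMem hx2]
  · filter_upwards [hlim] with x hx
    refine tendsto_const_nhds.congr' ?_
    filter_upwards [hx] with n hn
    by_cases hK : x ∈ K
    · rw [indicator_of_mem hK, indicator_of_mem (hn.2 hK)]
    · rw [indicator_of_notMem hK, indicator_of_notMem (fun h => hK (hn.1 h))]

/-- Poincaré inequalities pass to the limit. -/
theorem pc_limit {K : Set E} {Kn : ℕ → Set E} {R : ℝ} (hKm : MeasurableSet K)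
    (hKR : K ⊆ Metric.closedBall 0 R) (hnm : ∀ n, MeasurableSet (Kn n))
    (hnR : ∀ n, Kn n ⊆ Metric.closedBall 0 R)
    (hlim : ∀ᵐ x ∂(volume : Measure E), ∀ᶠ n in atTop, (x ∈ Kn n ↔ x ∈ K))
    {Λn : ℕ → ℝ} {Λ : ℝ} (hΛ : Tendsto Λn atTop (𝓝 Λ)) (hPC : ∀ n, PC (Kn n) (Λn n)) :
    PC K Λ := by
  intro g hg
  have hv : Tendsto (fun n => volume.real (Kn n)) atTop (𝓝 (volume.real K)) := by
    have := tendsto_aux hKm hnm hnR hlim (f := fun _ => (1:ℝ)) continuous_const
    simpa using this
  have h2 := ((hv.mul (tendsto_aux hKm hnm hnR hlim (hg.continuous.pow 2))).sub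
    ((tendsto_aux hKm hnm hnR hlim hg.continuous).pow 2))
  have h3 := (hΛ.pow 2).mul (hv.mul (tendsto_aux hKm hnm hnR hlim
    (f := fun x => ‖fderiv ℝ g x‖ ^ 2) ((hg.continuous_fderiv one_ne_zero).norm.pow 2)))
  exact le_of_tendsto_of_tendsto' h2 h3 (fun n => hPC n g hg)

end Pool.Agent.H73.Lp
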