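import Pool.Agent.H73.Lp.BAS

/-!
# Module LPA: approximation of finite-dimensional subspaces of `L_p`
-/

set_option autoImplicit false

open MeasureTheory Set

namespace Pool.Agent.H73.Lp

variable {E : Type*} [NormedAddCommGroup E] [InnerProductSpace ℝ E] [FiniteDimensional ℝ E]

private theorem coe_sum {α : Type*} [MeasurableSpace α] {ν : Measure α} {P : ENNReal}
    {κ : Type*} (s : Finset κ) (c : κ → ℝ) (f : κ → Lp ℝ P ν) :
    (⇑(∑ i ∈ s, c i • f i) : α → ℝ) =ᵐ[ν] fun a => ∑ i ∈ s, c i * f i a := by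
  classical
  induction s using Finset.induction_on with
  | empty =>
    simp only [Finset.sum_empty]
    exact Lp.coeFn_zero _ _ _
  | insert i s hi ih =>
    rw [Finset.sum_insert hi]
    filter_upwards [Lp.coeFn_add (c i • f i) (∑ j ∈ s, c j • f j), ih,
      Lp.coeFn_smul (c i) (f i)] with a h1 h2 h3
    rw [h1, Finset.sum_insert hi, Pi.add_apply, h2, h3, Pi.smul_apply, smul_eq_mul]

private theorem rep {α : Type*} [MeasurableSpace α] {ν : Measure α} {P : ENNReal}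
    (T : E →ₗ[ℝ] Lp ℝ P ν) :
    ∃ g : α → E, MemLp g P ν ∧ ∀ x : E, (⇑(T x) : α → ℝ) =ᵐ[ν] fun a => inner ℝ (g a) x := by
  let b := stdOrthonormalBasis ℝ E
  refine ⟨fun a => ∑ i, (T (b i) : α → ℝ) a • b i, ?_, ?_⟩
  · apply memLp_finset_sum
    intro i _
    have h := (Lp.memLp (T (b i)))
    refine MemLp.of_le (g := fun a => (T (b i) : α → ℝ) a) h
      (h.1.smul_const _) (Filter.Eventually.of_forall fun a => ?_)
    rw [norm_smul, b.orthonormal.1 i, mul_one]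
  · intro x
    have hx : T x = ∑ i, (inner ℝ (b i) x : ℝ) • T (b i) := by
      conv_lhs => rw [← b.sum_repr' x]
      rw [map_sum]
      simp only [map_smul]
    rw [hx]
    filter_upwards [coe_sum Finset.univ (fun i => (inner ℝ (b i) x : ℝ)) (fun i => T (b i))]
      with a ha
    rw [ha, sum_inner]
    refine Finset.sum_congr rfl fun i _ => ?_
    rw [real_inner_smul_left, mul_comm]

private theorem lp_approx_aux {α : Type*} [MeasurableSpace α] {ν : Measure α} {p : ℝ}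
    (hp0 : 0 < p) {P : ENNReal} (hPt : P ≠ ⊤) (hP0 : P ≠ 0) (hPr : P.toReal = p)
    [Fact (1 ≤ P)] (T : E →ₗ[ℝ] Lp ℝ P ν)
    (hT : Function.Injective T) {δ : ℝ} (hδ : 0 < δ) (hδ1 : δ < 1) :
    ∃ (N : ℕ) (v : Fin N → E), Spans v ∧ (∀ j, v j ≠ 0) ∧
      (∀ x : E, ‖T x‖ < 1 - δ → x ∈ KK v (fun _ s => |s| ^ p)) ∧
      (∀ x ∈ KK v (fun _ s => |s| ^ p), ‖T x‖ < 1 + δ) := by
  classical
  obtain ⟨g, hg, hgT⟩ := rep T
  obtain ⟨K, hK0, hK⟩ := LinearMap.exists_antilipschitzWith T (LinearMap.ker_eq_bot.2 hT)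
  have hKx : ∀ x, ‖x‖ ≤ K * ‖T x‖ := by
    intro x
    have h := hK.le_mul_dist x 0
    simpa [dist_zero_right] using h
  have hK0' : (0:ℝ) < K := hK0
  set η : ℝ := δ / (2 * K) with hη
  have hη0 : 0 < η := by positivity
  obtain ⟨F, hF1, hF2⟩ := hg.exists_simpleFunc_eLpNorm_sub_lt hPt
    (ε := ENNReal.ofReal η) (ENNReal.ofReal_pos.2 hη0).ne'
  -- the approximating map
  have hmem : ∀ x : E, MemLp (fun a => (inner ℝ (F a) x : ℝ)) P ν := fun x =>
    hF2.inner_const x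
  have hclose : ∀ x : E, ‖T x - (hmem x).toLp _‖ ≤ δ / 2 * ‖T x‖ := by
    intro x
    have h1 : eLpNorm (⇑(T x - (hmem x).toLp _)) P ν ≤
        ENNReal.ofReal ‖x‖ * eLpNorm (g - ⇑F) P ν := by
      apply eLpNorm_le_mul_eLpNorm_of_ae_le_mul
      filter_upwards [Lp.coeFn_sub (T x) ((hmem x).toLp _), hgT x, (hmem x).coeFn_toLp]
        with a h1 h2 h3
      rw [h1, Pi.sub_apply, h2, h3, ← inner_sub_left, Pi.sub_apply]
      rw [mul_comm]
      exact norm_inner_le_norm _ _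
    rw [Lp.norm_def]
    have h2 : (eLpNorm (⇑(T x - (hmem x).toLp _)) P ν).toReal ≤
        (ENNReal.ofReal ‖x‖ * ENNReal.ofReal η).toReal := by
      apply ENNReal.toReal_mono (ENNReal.mul_ne_top ENNReal.ofReal_ne_top ENNReal.ofReal_ne_top)
      exact h1.trans (by gcongr)
    refine h2.trans ?_
    rw [← ENNReal.ofReal_mul (norm_nonneg _), ENNReal.toReal_ofReal (by positivity)]
    calc ‖x‖ * η ≤ (K * ‖T x‖) * η := by
          apply mul_le_mul_of_nonneg_right (hKx x) hη0.le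
      _ = δ / 2 * ‖T x‖ := by
          rw [hη]
          field_simp
  -- the vectors
  set J : Finset E := F.range.filter (fun y => y ≠ 0 ∧ ν (F ⁻¹' {y}) ≠ 0) with hJ
  set w : E → E := fun y => (ν.real (F ⁻¹' {y})) ^ (1 / p) • y with hw
  have hfin : ∀ y ∈ J, ν (F ⁻¹' {y}) ≠ ⊤ := by
    intro y hy
    rw [hJ, Finset.mem_filter] at hy
    exact (SimpleFunc.measure_preimage_lt_top_of_memLp hP0 hPt F hF2 y hy.2.1).ne
  have hpos : ∀ y ∈ J, 0 < ν.real (F ⁻¹' {y}) := by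
    intro y hy
    have h1 := hfin y hy
    rw [hJ, Finset.mem_filter] at hy
    exact ENNReal.toReal_pos hy.2.2 h1
  have hwne : ∀ y ∈ J, w y ≠ 0 := by
    intro y hy
    have h1 := hpos y hy
    have h2 : y ≠ 0 := by
      rw [hJ, Finset.mem_filter] at hy
      exact hy.2.1
    simp only [hw]
    exact smul_ne_zero (Real.rpow_pos_of_pos h1 _).ne' h2
  have hterm : ∀ (x : E), ∀ y ∈ J, |(inner ℝ (w y) x : ℝ)| ^ p =
      ν.real (F ⁻¹' {y}) * |(inner ℝ y x : ℝ)| ^ p := by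
    intro x y hy
    have h1 := hpos y hy
    have h2 : 0 ≤ (ν.real (F ⁻¹' {y})) ^ (1 / p) := (Real.rpow_pos_of_pos h1 _).le
    simp only [hw]
    rw [real_inner_smul_left, abs_mul, abs_of_nonneg h2, Real.mul_rpow h2 (abs_nonneg _),
      ← Real.rpow_mul h1.le, one_div_mul_cancel hp0.ne', Real.rpow_one]
  have hnorm : ∀ x : E, ‖(hmem x).toLp _‖ ^ p = ∑ y ∈ J, |(inner ℝ (w y) x : ℝ)| ^ p := by
    intro x
    rw [Finset.sum_congr rfl (hterm x)]
    rw [Lp.norm_toLp, eLpNorm_eq_lintegral_rpow_enorm_toReal hP0 hPt, hPr,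
      ← ENNReal.toReal_rpow, ← Real.rpow_mul ENNReal.toReal_nonneg,
      one_div_mul_cancel hp0.ne', Real.rpow_one]
    have h1 : ∫⁻ a, ‖(inner ℝ (F a) x : ℝ)‖ₑ ^ p ∂ν =
        ∑ y ∈ F.range, ‖(inner ℝ y x : ℝ)‖ₑ ^ p * ν (F ⁻¹' {y}) := by
      rw [← SimpleFunc.map_lintegral (fun y => ‖(inner ℝ y x : ℝ)‖ₑ ^ p) F,
        ← SimpleFunc.lintegral_eq_lintegral]
      rfl
    have h2 : ∑ y ∈ F.range, ‖(inner ℝ y x : ℝ)‖ₑ ^ p * ν (F ⁻¹' {y}) =
        ∑ y ∈ J, ‖(inner ℝ y x : ℝ)‖ₑ ^ p * ν (F ⁻¹' {y}) := by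
      symm
      apply Finset.sum_subset (Finset.filter_subset _ _)
      intro y hy hyJ
      by_cases hy0 : y = 0
      · rw [hy0, inner_zero_left, enorm_zero, ENNReal.zero_rpow_of_pos hp0, zero_mul]
      · have : ν (F ⁻¹' {y}) = 0 := by
          by_contra hne
          exact hyJ (Finset.mem_filter.2 ⟨hy, hy0, hne⟩)
        rw [this, mul_zero]
    rw [h1, h2, ENNReal.toReal_sum]
    · refine Finset.sum_congr rfl fun y hy => ?_
      rw [ENNReal.toReal_mul, mul_comm, ← ENNReal.toReal_rpow, toReal_enorm, Real.norm_eq_abs]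
      rfl
    · intro y hy
      exact ENNReal.mul_ne_top (ENNReal.rpow_ne_top_of_nonneg hp0.le enorm_ne_top) (hfin y hy)
  -- reindex
  have hPh : ∀ x : E, Ph (fun k : Fin J.card => w (J.equivFin.symm k : E))
      (fun _ s => |s| ^ p) x = ‖(hmem x).toLp _‖ ^ p := by
    intro x
    rw [hnorm x]
    unfold Ph
    rw [← Finset.sum_coe_sort J (fun y => |(inner ℝ (w y) x : ℝ)| ^ p)]
    exact Equiv.sum_comp J.equivFin.symm (fun y : J => |(inner ℝ (w (y:E)) x : ℝ)| ^ p)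
  have hup : ∀ x : E, ‖(hmem x).toLp _‖ ≤ (1 + δ / 2) * ‖T x‖ := by
    intro x
    have h1 := hclose x
    have h2 : ‖(hmem x).toLp _‖ ≤ ‖T x‖ + ‖T x - (hmem x).toLp _‖ := by
      have := norm_sub_norm_le ((hmem x).toLp _) (T x)
      rw [norm_sub_rev] at this
      linarith
    linarith
  have hlo : ∀ x : E, (1 - δ / 2) * ‖T x‖ ≤ ‖(hmem x).toLp _‖ := by
    intro x
    have h1 := hclose x
    have h2 := norm_sub_norm_le (T x) ((hmem x).toLp _)
    linarith
  refine ⟨J.card, fun k => w (J.equivFin.symm k : E), ?_, ?_, ?_, ?_⟩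
  · intro x hx
    have h1 : Ph (fun k : Fin J.card => w (J.equivFin.symm k : E)) (fun _ s => |s| ^ p) x = 0 := by
      unfold Ph
      apply Finset.sum_eq_zero
      intro k _
      have h := hx k
      show |(inner ℝ (w (J.equivFin.symm k : E)) x : ℝ)| ^ p = 0
      rw [h, abs_zero, Real.zero_rpow hp0.ne']
    rw [hPh x] at h1
    have h2 : ‖(hmem x).toLp _‖ = 0 := by
      by_contra hne
      exact (Real.rpow_pos_of_pos (lt_of_le_of_ne (norm_nonneg _) (Ne.symm hne)) p).ne' h1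
    have h3 := hlo x
    have h4 : ‖T x‖ = 0 := by
      have h5 := norm_nonneg (T x)
      have h6 : 0 < 1 - δ / 2 := by linarith
      rw [h2] at h3
      nlinarith
    have h5 := hKx x
    rw [h4, mul_zero] at h5
    exact norm_le_zero_iff.1 h5
  · intro k
    exact hwne _ (J.equivFin.symm k).2
  · intro x hx
    show Ph _ _ x < 1
    rw [hPh x]
    apply Real.rpow_lt_one (norm_nonneg _) _ hp0
    have h1 := hup x
    have h2 := norm_nonneg (T x)
    have h3 : (1 + δ / 2) * ‖T x‖ ≤ (1 + δ / 2) * (1 - δ) :=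
      mul_le_mul_of_nonneg_left hx.le (by linarith)
    nlinarith
  · intro x hx
    have h1 : Ph (fun k : Fin J.card => w (J.equivFin.symm k : E)) (fun _ s => |s| ^ p) x < 1 := hx
    rw [hPh x] at h1
    have h2 : ‖(hmem x).toLp _‖ < 1 := by
      by_contra hge
      exact absurd h1 (not_lt.2 (Real.one_le_rpow (not_lt.1 hge) hp0.le))
    have h3 := hlo x
    by_contra hge
    have h4 : 1 + δ ≤ ‖T x‖ := not_lt.1 hge
    nlinarith [mul_le_mul_of_nonneg_left h4 (by linarith : (0:ℝ) ≤ 1 - δ / 2)]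

theorem lp_approx {α : Type*} [MeasurableSpace α] {ν : Measure α} {p : ℝ} (hp : 1 < p)
    [Fact (1 ≤ ENNReal.ofReal p)] (T : E →ₗ[ℝ] Lp ℝ (ENNReal.ofReal p) ν)
    (hT : Function.Injective T) {δ : ℝ} (hδ : 0 < δ) (hδ1 : δ < 1) :
    ∃ (N : ℕ) (v : Fin N → E), Spans v ∧ (∀ j, v j ≠ 0) ∧
      (∀ x : E, ‖T x‖ < 1 - δ → x ∈ KK v (fun _ s => |s| ^ p)) ∧
      (∀ x ∈ KK v (fun _ s => |s| ^ p), ‖T x‖ < 1 + δ) := by
  have hp0 : 0 < p := by linarith
  exact lp_approx_aux hp0 ENNReal.ofReal_ne_top (ENNReal.ofReal_pos.2 hp0).ne'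
    (ENNReal.toReal_ofReal hp0.le) T hT hδ hδ1

end Pool.Agent.H73.Lp
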