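import Pool.Agent.H73.Lp.ASM
import Pool.Agent.H73.Lp.LIM
import Pool.Agent.H73.Lp.LPA

/-!
# Poincaré inequality for unit balls of finite-dimensional subspaces of `L_p`
-/

set_option autoImplicit false

open MeasureTheory Measure Set Filter Topology
open scoped Pointwise

namespace Pool.Agent.H73.Lp

open Pool.Agent.H84 Pool.Agent.H84.Sym

universe u
variable {E : Type u} [NormedAddCommGroup E] [InnerProductSpace ℝ E]
    [FiniteDimensional ℝ E] [MeasurableSpace E] [BorelSpace E]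

section Ball

variable {F : Type*} [NormedAddCommGroup F] [NormedSpace ℝ F] (T : E →ₗ[ℝ] F)

omit [MeasurableSpace E] [BorelSpace E] in
theorem T_cont : Continuous (fun x => ‖T x‖) := (T.continuous_of_finiteDimensional).norm

omit [MeasurableSpace E] [BorelSpace E] in
theorem ball_open : IsOpen {x : E | ‖T x‖ < 1} := isOpen_lt (T_cont T) continuous_const

omit [FiniteDimensional ℝ E] [MeasurableSpace E] [BorelSpace E] in
theorem ball_convex : Convex ℝ {x : E | ‖T x‖ < 1} := by
  intro x hx y hy a b ha hb hab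
  simp only [mem_ofPred_eq, map_add, map_smul] at *
  calc ‖a • T x + b • T y‖ ≤ a * ‖T x‖ + b * ‖T y‖ := by
        refine (norm_add_le _ _).trans ?_
        rw [norm_smul, norm_smul, Real.norm_of_nonneg ha, Real.norm_of_nonneg hb]
    _ < 1 := by
        rcases eq_or_lt_of_le ha with h | h
        · have : b = 1 := by linarith
          rw [← h, this]
          simpa using hy
        · nlinarith

omit [FiniteDimensional ℝ E] [MeasurableSpace E] [BorelSpace E] in
theorem ball_neg {x : E} (hx : ‖T x‖ < 1) : ‖T (-x)‖ < 1 := by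
  rw [map_neg, norm_neg]
  exact hx

omit [MeasurableSpace E] [BorelSpace E] in
theorem exists_lower (hT : Function.Injective T) : ∃ c : ℝ, 0 < c ∧ ∀ x, c * ‖x‖ ≤ ‖T x‖ := by
  have hT' : LinearMap.ker T = ⊥ := LinearMap.ker_eq_bot.2 hT
  obtain ⟨K, hK, h⟩ := (LinearMap.toContinuousLinearMap T).exists_antilipschitzWith hT'
  have hK0 : (0:ℝ) < K := by exact_mod_cast hK
  refine ⟨(K:ℝ)⁻¹, inv_pos.2 hK0, fun x => ?_⟩
  have h1 := h.le_mul_dist x 0
  simp only [dist_zero_right, map_zero] at h1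
  rw [inv_mul_le_iff₀ hK0]
  simpa using h1

omit [MeasurableSpace E] [BorelSpace E] in
theorem ball_sub (hT : Function.Injective T) :
    ∃ R : ℝ, 0 < R ∧ ∀ x, ‖T x‖ < 2 → ‖x‖ ≤ R := by
  obtain ⟨c, hc, h⟩ := exists_lower T hT
  refine ⟨2 / c, by positivity, fun x hx => ?_⟩
  rw [le_div_iff₀ hc]
  have := h x
  linarith

omit [MeasurableSpace E] [BorelSpace E] in
theorem ball_null (x : E) (hx : x ∉ frontier {x : E | ‖T x‖ < 1}) : ‖T x‖ ≠ 1 := by
  intro h
  apply hx
  rw [(ball_open T).frontier_eq]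
  refine ⟨?_, by simp [h]⟩
  rw [mem_closure_iff_seq_limit]
  refine ⟨fun n => (1 - 1 / ((n:ℝ) + 2)) • x, fun n => ?_, ?_⟩
  · have h2 : (0:ℝ) < 1 / ((n:ℝ) + 2) := by positivity
    have h3 : 1 / ((n:ℝ) + 2) ≤ 1 := by
      rw [div_le_one (by positivity)]
      linarith [(Nat.cast_nonneg n : (0:ℝ) ≤ n)]
    simp only [mem_ofPred_eq, map_smul, norm_smul, h, mul_one]
    rw [Real.norm_of_nonneg (by linarith)]
    linarith
  · have h1 : Tendsto (fun n : ℕ => (1:ℝ) - 1 / ((n:ℝ) + 2)) atTop (𝓝 (1 - 0)) := by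
      refine tendsto_const_nhds.sub ?_
      have := (tendsto_one_div_add_atTop_nhds_zero_nat (𝕜 := ℝ)).comp (tendsto_add_atTop_nat 1)
      refine this.congr fun n => ?_
      simp only [Function.comp_apply]
      push_cast
      ring_nf
    rw [sub_zero] at h1
    have h2 := h1.smul (tendsto_const_nhds (x := x))
    simpa using h2

/-- Second moments after scaling. -/
theorem scaled_moment {ρ : ℝ} (hρ : 0 < ρ) (K : Set E) (w : E) :
    ∫ x in ρ • K, (inner ℝ w x : ℝ) ^ 2 =
      ρ ^ (Module.finrank ℝ E + 2) * ∫ x in K, (inner ℝ w x : ℝ) ^ 2 := by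
  have h := setIntegral_comp_smul_of_pos (volume : Measure E)
    (fun x => (inner ℝ w x : ℝ) ^ 2) K hρ
  simp only [inner_smul_right, mul_pow, integral_const_mul, smul_eq_mul] at h
  have h0 : ρ ^ Module.finrank ℝ E ≠ 0 := by positivity
  field_simp at h
  rw [← h]
  ring

end Ball

theorem lp_pc [Nontrivial E] {α : Type*} [MeasurableSpace α] {ν : Measure α} {p : ℝ}
    (hp : 1 < p) (hp3 : p < 3) [Fact (1 ≤ ENNReal.ofReal p)]
    (T : E →ₗ[ℝ] Lp ℝ (ENNReal.ofReal p) ν) (hT : Function.Injective T) {δ : ℝ} (hδ : 0 < δ)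
    (hδp : δ ≤ p - 1) (hδq : δ ≤ 3 - p) {s : ℝ} (hs : 0 < s)
    (hcov : ∀ w : E, ∫ x in {x : E | ‖T x‖ < 1}, (inner ℝ w x) ^ 2 ≤
      s ^ 2 * ‖w‖ ^ 2 * volume.real {x : E | ‖T x‖ < 1}) :
    PC {x : E | ‖T x‖ < 1} (1200 * Real.sqrt (1 / δ) * s) := by
  set K : Set E := {x : E | ‖T x‖ < 1} with hKdef
  have hKo : IsOpen K := ball_open T
  have hKc : Convex ℝ K := ball_convex T
  obtain ⟨R, hR, hKR⟩ := ball_sub T hT
  have hKsub : K ⊆ Metric.closedBall 0 R := fun x hx => by
    simpa using hKR x (lt_trans hx (by norm_num))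
  have hKlt : volume K < ⊤ := (measure_mono hKsub).trans_lt measure_closedBall_lt_top
  set d := Module.finrank ℝ E with hd
  have h0K : (0:E) ∈ K := by simp [hKdef]
  set V := volume.real K with hV
  have hV0 : 0 < V := ENNReal.toReal_pos (hKo.measure_pos volume ⟨0, h0K⟩).ne' hKlt.ne
  -- the approximating bodies
  set δn : ℕ → ℝ := fun n => 1 / ((n:ℝ) + 2) with hδn
  have hδn0 : ∀ n, 0 < δn n := fun n => by simp only [hδn]; positivity
  have hδn1 : ∀ n, δn n ≤ 1 / 2 := fun n => by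
    simp only [hδn]
    refine one_div_le_one_div_of_le (by norm_num) ?_
    linarith [(Nat.cast_nonneg n : (0:ℝ) ≤ n)]
  have hδlim : Tendsto δn atTop (𝓝 0) := by
    have := (tendsto_one_div_add_atTop_nhds_zero_nat (𝕜 := ℝ)).comp (tendsto_add_atTop_nat 1)
    refine this.congr fun n => ?_
    simp only [Function.comp_apply, hδn]
    push_cast
    ring_nf
  choose N v hspan hne hin hout using fun n =>
    lp_approx hp T hT (hδn0 n) (by linarith [hδn1 n] : δn n < 1)
  set Kn : ℕ → Set E := fun n => KK (v n) (fun _ s => |s| ^ p) with hKn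
  have hφ : ∀ n, ∀ j : Fin (N n), Orl p p ((fun (_ : Fin (N n)) (s : ℝ) => |s| ^ p) j) :=
    fun n j => orl_rpow hp
  have hscale : ∀ {ρ : ℝ}, 0 < ρ → ∀ x : E, x ∈ ρ • K ↔ ‖T x‖ < ρ := by
    intro ρ hρ x
    rw [mem_smul_set_iff_inv_smul_mem₀ hρ.ne']
    simp only [hKdef, mem_ofPred_eq, map_smul, norm_smul, norm_inv, Real.norm_of_nonneg hρ.le]
    rw [inv_mul_lt_iff₀ hρ, mul_one]
  have hsub1 : ∀ n, (1 - δn n) • K ⊆ Kn n := fun n x hx =>
    hin n x ((hscale (by linarith [hδn1 n]) x).1 hx)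
  have hsub2 : ∀ n, Kn n ⊆ (1 + δn n) • K := fun n x hx =>
    (hscale (by linarith [hδn0 n]) x).2 (hout n x hx)
  have hnm : ∀ n, MeasurableSet (Kn n) := fun n => (KK_isOpen (hφ n)).measurableSet
  have hnR : ∀ n, Kn n ⊆ Metric.closedBall 0 R := fun n x hx => by
    have h1 := (hscale (by linarith [hδn0 n]) x).1 (hsub2 n hx)
    simpa using hKR x (by linarith [hδn1 n])
  have hnlt : ∀ n, volume (Kn n) < ⊤ := fun n =>
    (measure_mono (hnR n)).trans_lt measure_closedBall_lt_top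
  -- volumes
  have hvol : ∀ n, (1 - δn n) ^ d * V ≤ volume.real (Kn n) := by
    intro n
    have h1 : volume.real ((1 - δn n) • K) = (1 - δn n) ^ d * V := by
      rw [Measure.real, addHaar_smul, ENNReal.toReal_mul, ENNReal.toReal_ofReal (abs_nonneg _),
        abs_of_nonneg (pow_nonneg (by linarith [hδn1 n]) _)]
      rfl
    rw [← h1]
    exact measureReal_mono (hsub1 n) (hnlt n).ne
  -- second moments
  set sn : ℕ → ℝ := fun n => s * Real.sqrt ((1 + δn n) ^ (d + 2) / (1 - δn n) ^ d) with hsn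
  have hcovn : ∀ n, ∀ w : E, ∫ x in Kn n, (inner ℝ w x) ^ 2 ≤
      (sn n) ^ 2 * ‖w‖ ^ 2 * volume.real (Kn n) := by
    intro n w
    have hp1 : (0:ℝ) < 1 - δn n := by linarith [hδn1 n]
    have hp2 : (0:ℝ) < 1 + δn n := by linarith [hδn0 n]
    have h1 : ∫ x in Kn n, (inner ℝ w x : ℝ) ^ 2 ≤ ∫ x in (1 + δn n) • K, (inner ℝ w x : ℝ) ^ 2 := by
      refine setIntegral_mono_set ?_ (Eventually.of_forall fun x => sq_nonneg _)
        (Eventually.of_forall (hsub2 n))
      have hb : (1 + δn n) • K ⊆ Metric.closedBall 0 R := fun x hx => by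
        have h1 := (hscale hp2 x).1 hx
        simpa using hKR x (by linarith [hδn1 n])
      have hc : IntegrableOn (fun x : E => (inner ℝ w x : ℝ) ^ 2) (Metric.closedBall 0 R) :=
        (Continuous.continuousOn (by fun_prop)).integrableOn_compact
          (isCompact_closedBall (0:E) R)
      exact hc.mono_set hb
    rw [scaled_moment hp2 K w] at h1
    have hw : (sn n) ^ 2 = s ^ 2 * ((1 + δn n) ^ (d + 2) / (1 - δn n) ^ d) := by
      simp only [hsn]
      rw [mul_pow, Real.sq_sqrt (by positivity)]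
    calc ∫ x in Kn n, (inner ℝ w x : ℝ) ^ 2
        ≤ (1 + δn n) ^ (d + 2) * ∫ x in K, (inner ℝ w x : ℝ) ^ 2 := h1
      _ ≤ (1 + δn n) ^ (d + 2) * (s ^ 2 * ‖w‖ ^ 2 * V) := by
          have := hcov w
          gcongr
      _ = (sn n) ^ 2 * ‖w‖ ^ 2 * ((1 - δn n) ^ d * V) := by
          rw [hw]
          field_simp
      _ ≤ (sn n) ^ 2 * ‖w‖ ^ 2 * volume.real (Kn n) := by
          have := hvol n
          gcongr
  have hsn0 : ∀ n, 0 < sn n := fun n => by
    have hp1 : (0:ℝ) < 1 - δn n := by linarith [hδn1 n]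
    have hp2 : (0:ℝ) < 1 + δn n := by linarith [hδn0 n]
    simp only [hsn]
    positivity
  have hPC : ∀ n, PC (Kn n) (1200 * Real.sqrt (1 / δ) * sn n) := by
    intro n
    obtain ⟨Rn, -, hKn'⟩ := KK_CB (hφ n) hp le_rfl (hspan n)
    have hsy : ∀ x ∈ Kn n, -x ∈ Kn n := fun x hx => KK_neg (hφ n) hx
    have h := body_pc (hφ n) hp le_rfl hp3 (hspan n) (hne n) (A := 1 / δ)
      (fun j => A2_pow hKn' hsy (hne n j) hp hδ hδp hδq) (hsn0 n) (hcovn n)
    rwa [div_self (by linarith : p - 1 ≠ 0), mul_one] at h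
  have hlimΛ : Tendsto (fun n => 1200 * Real.sqrt (1 / δ) * sn n) atTop
      (𝓝 (1200 * Real.sqrt (1 / δ) * s)) := by
    refine Tendsto.const_mul _ ?_
    have h1 : Tendsto (fun n => (1 + δn n) ^ (d + 2) / (1 - δn n) ^ d) atTop (𝓝 (1 / 1)) := by
      refine Tendsto.div ?_ ?_ one_ne_zero
      · have h4 : Tendsto (fun n => (1:ℝ) + δn n) atTop (𝓝 (1 + 0)) := tendsto_const_nhds.add hδlim
        simpa using h4.pow (d + 2)
      · have h4 : Tendsto (fun n => (1:ℝ) - δn n) atTop (𝓝 (1 - 0)) := tendsto_const_nhds.sub hδlim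
        simpa using h4.pow d
    have h2 := (Real.continuous_sqrt.tendsto _).comp h1
    have h3 := h2.const_mul s
    simpa [hsn, Function.comp_def] using h3
  refine pc_limit hKo.measurableSet hKsub hnm hnR ?_ hlimΛ hPC
  have hfr : volume (frontier K) = 0 := hKc.addHaar_frontier volume
  have hae : ∀ᵐ x ∂(volume : Measure E), x ∉ frontier K := by
    rw [ae_iff]
    simpa using hfr
  filter_upwards [hae] with x hx
  have hx1 := ball_null T x hx
  rcases lt_or_gt_of_ne hx1 with h | h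
  · have : ∀ᶠ n in atTop, δn n < 1 - ‖T x‖ := hδlim.eventually (gt_mem_nhds (by linarith))
    filter_upwards [this] with n hn
    exact iff_of_true (hin n x (by linarith)) h
  · have : ∀ᶠ n in atTop, δn n < ‖T x‖ - 1 := hδlim.eventually (gt_mem_nhds (by linarith))
    filter_upwards [this] with n hn
    refine iff_of_false (fun hxn => ?_) (fun hxK => ?_)
    · have := hout n x hxn
      linarith
    · have : ‖T x‖ < 1 := hxK
      linarith

end Pool.Agent.H73.Lp
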