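import Mathlib

/-!
# Module MUA: measurability of maps into spaces of continuous functions
-/

set_option autoImplicit false

open MeasureTheory Set

namespace Pool.Agent.H73.Lp

/-- A map into `C(X, ℝ)`, `X` a compact metric space, is Borel measurable as soon as all
evaluations are measurable. -/
theorem measurable_toC {X : Type*} [MetricSpace X] [CompactSpace X] {α : Type*}
    [MeasurableSpace α] [MeasurableSpace C(X, ℝ)] [BorelSpace C(X, ℝ)] {Θ : α → C(X, ℝ)}
    (h : ∀ x, Measurable (fun ω => Θ ω x)) : Measurable Θ := by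
  obtain ⟨D, hDc, hD⟩ := TopologicalSpace.exists_countable_dense X
  have hball : ∀ (f : C(X, ℝ)) (r : ℝ), 0 ≤ r → MeasurableSet (Θ ⁻¹' Metric.closedBall f r) := by
    intro f r hr
    have e : Θ ⁻¹' Metric.closedBall f r = ⋂ x ∈ D, {ω | dist (Θ ω x) (f x) ≤ r} := by
      ext ω
      simp only [mem_preimage, Metric.mem_closedBall, mem_iInter, mem_ofPred_eq]
      rw [ContinuousMap.dist_le hr]
      constructor
      · exact fun h x _ => h x
      · intro h x
        have hcl : IsClosed {x | dist (Θ ω x) (f x) ≤ r} := isClosed_le (by fun_prop) continuous_const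
        have h2 : closure D ⊆ {x | dist (Θ ω x) (f x) ≤ r} := hcl.closure_subset_iff.2 h
        rw [hD.closure_eq] at h2
        exact h2 (mem_univ x)
    rw [e]
    refine MeasurableSet.biInter hDc fun x _ => ?_
    exact measurableSet_le ((h x).dist measurable_const) measurable_const
  obtain ⟨S, hSc, hS⟩ := TopologicalSpace.exists_countable_dense C(X, ℝ)
  refine measurable_of_isOpen fun U hU => ?_
  have e : Θ ⁻¹' U = ⋃ f ∈ S, ⋃ n : ℕ, ⋃ (_ : Metric.closedBall f (1 / ((n : ℝ) + 1)) ⊆ U),
      Θ ⁻¹' Metric.closedBall f (1 / ((n : ℝ) + 1)) := by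
    ext ω
    simp only [mem_preimage, mem_iUnion, exists_prop]
    constructor
    · intro hω
      obtain ⟨ε, hε, hb⟩ := Metric.isOpen_iff.1 hU _ hω
      obtain ⟨n, hn⟩ := exists_nat_one_div_lt (half_pos hε)
      obtain ⟨f, hf, hfS⟩ := hS.exists_dist_lt (Θ ω) (ε := 1 / ((n : ℝ) + 1)) (by positivity)
      refine ⟨f, hf, n, fun g hg => hb ?_, ?_⟩
      · rw [Metric.mem_closedBall] at hg
        rw [Metric.mem_ball]
        have h3 := dist_triangle g f (Θ ω)
        rw [dist_comm f (Θ ω)] at h3
        linarith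
      · rw [Metric.mem_closedBall]
        exact hfS.le
    · rintro ⟨f, _, n, h1, h2⟩
      exact h1 h2
  rw [e]
  refine MeasurableSet.biUnion hSc fun f _ => MeasurableSet.iUnion fun n =>
    MeasurableSet.iUnion fun _ => hball f _ (by positivity)

end Pool.Agent.H73.Lp
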