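import Pool.Agent.H73.Lp.MUD

/-!
# Module MUC: elementary properties of the modular
-/

set_option autoImplicit false

open MeasureTheory Set

namespace Pool.Agent.H73.Lp

variable {E : Type*} [NormedAddCommGroup E] [InnerProductSpace ℝ E] [FiniteDimensional ℝ E]
    [MeasurableSpace E] [BorelSpace E]
variable {α : Type*} [MeasurableSpace α] {ν : Measure α} {p q : ℝ} {v : α → E} {φ : α → ℝ → ℝ}

theorem Mod_basic (hp : 1 < p) (hpq : p ≤ q)
    (hφ : ∀ ω, Orl p q (φ ω)) (hi : ∀ x, Integrable (fun ω => φ ω (inner ℝ (v ω) x)) ν)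
    (hne : ∀ x : E, x ≠ 0 → ¬ ∀ᵐ ω ∂ν, inner ℝ (v ω) x = (0:ℝ)) :
    ConvexOn ℝ univ (Mod ν v φ) ∧ Continuous (Mod ν v φ) ∧ Mod ν v φ 0 = 0 ∧
      (∀ x, Mod ν v φ (-x) = Mod ν v φ x) ∧ (∀ x, x ≠ 0 → 0 < Mod ν v φ x) ∧
      (∀ t : ℝ, 0 ≤ t → t ≤ 1 → ∀ x, Mod ν v φ (t • x) ≤ t ^ p * Mod ν v φ x) ∧
      (∀ t : ℝ, 0 ≤ t → t ≤ 1 → ∀ x, t ^ q * Mod ν v φ x ≤ Mod ν v φ (t • x)) := by
  have hconv : ConvexOn ℝ univ (Mod ν v φ) := by
    refine ⟨convex_univ, fun x _ y _ a b ha hb hab => ?_⟩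
    unfold Mod
    rw [smul_eq_mul, smul_eq_mul, ← integral_const_mul, ← integral_const_mul,
      ← integral_add ((hi x).const_mul a) ((hi y).const_mul b)]
    refine integral_mono (hi _) (((hi x).const_mul a).add ((hi y).const_mul b)) fun ω => ?_
    have h1 := ((hφ ω).conv hp).2 (mem_univ (inner ℝ (v ω) x : ℝ)) (mem_univ (inner ℝ (v ω) y : ℝ))
      ha hb hab
    simp only [inner_add_right, real_inner_smul_right, smul_eq_mul] at h1 ⊢
    exact h1
  refine ⟨hconv, ?_, ?_, ?_, ?_, ?_, ?_⟩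
  · rw [← continuousOn_univ]
    exact hconv.continuousOn isOpen_univ
  · unfold Mod
    simp only [inner_zero_right]
    have : ∀ ω, φ ω 0 = 0 := fun ω => (hφ ω).zero
    simp [this]
  · intro x
    unfold Mod
    refine integral_congr_ae (Filter.Eventually.of_forall fun ω => ?_)
    simp only [inner_neg_right, (hφ ω).even]
  · intro x hx
    unfold Mod
    have hnn : (0 : α → ℝ) ≤ fun ω => φ ω (inner ℝ (v ω) x) := by
      intro ω
      by_cases h : (inner ℝ (v ω) x : ℝ) = 0
      · simp only [Pi.zero_apply]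
        rw [h, (hφ ω).zero]
      · exact ((hφ ω).pos_of_ne hp h).le
    rw [integral_pos_iff_support_of_nonneg hnn (hi x)]
    by_contra hc
    have h0 : ν (Function.support fun ω => φ ω (inner ℝ (v ω) x)) = 0 := by
      simpa using hc
    refine hne x hx ?_
    rw [ae_iff]
    refine measure_mono_null (fun ω hω => ?_) h0
    exact ((hφ ω).pos_of_ne hp hω).ne'
  · intro t ht ht1 x
    unfold Mod
    rw [← integral_const_mul]
    refine integral_mono (hi _) ((hi x).const_mul _) fun ω => ?_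
    simp only [real_inner_smul_right]
    exact (hφ ω).scale_le hp ht ht1 _
  · intro t ht ht1 x
    unfold Mod
    rw [← integral_const_mul]
    refine integral_mono ((hi x).const_mul _) (hi _) fun ω => ?_
    simp only [real_inner_smul_right]
    exact (hφ ω).scale_ge hp hpq ht ht1 _

end Pool.Agent.H73.Lp
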