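import Pool.Agent.H73.Lp.MUA
import Pool.Agent.H73.Lp.MUC

/-!
# Module MUB: uniform approximation by finite sums
-/

set_option autoImplicit false

open MeasureTheory Set

namespace Pool.Agent.H73.Lp

section
variable {p q : ℝ} {φ : ℝ → ℝ}

theorem Orl.nonneg (h : Orl p q φ) (hp : 1 < p) (s : ℝ) : 0 ≤ φ s := by
  rcases eq_or_ne s 0 with hs | hs
  · rw [hs, h.zero]
  · exact (h.pos_of_ne hp hs).le

theorem Orl.mono_abs (h : Orl p q φ) (hp : 1 < p) {s t : ℝ} (hst : |s| ≤ |t|) : φ s ≤ φ t := by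
  have ha : ∀ u : ℝ, φ |u| = φ u := by
    intro u
    rcases abs_choice u with h1 | h1
    · rw [h1]
    · rw [h1, h.even]
  rcases eq_or_ne t 0 with ht | ht
  · have hs : s = 0 := by
      rw [ht, abs_zero] at hst
      exact abs_eq_zero.1 (le_antisymm hst (abs_nonneg s))
    rw [hs, ht]
  · have ht' : 0 < |t| := abs_pos.2 ht
    have h1 : |s| / |t| ≤ 1 := (div_le_one ht').2 hst
    have h0 : 0 ≤ |s| / |t| := by positivity
    have h2 := h.scale_le hp h0 h1 |t|
    rw [div_mul_cancel₀ _ ht'.ne', ha, ha] at h2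
    refine h2.trans ?_
    have h3 : (|s| / |t|) ^ p ≤ 1 := Real.rpow_le_one h0 h1 (by linarith)
    nlinarith [h.nonneg hp t]

theorem Orl.const_mul (h : Orl p q φ) {c : ℝ} (hc : 0 < c) : Orl p q (fun s => c * φ s) := by
  have hd : deriv (fun s => c * φ s) = fun s => c * deriv φ s := by
    funext s
    exact deriv_const_mul_field c
  have hdd : ∀ s, deriv (deriv (fun s => c * φ s)) s = c * deriv (deriv φ) s := by
    intro s
    rw [hd]
    exact deriv_const_mul_field c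
  refine ⟨by simp [h.zero], fun s => by simp [h.even], contDiff_const.mul h.c1,
    contDiffOn_const.mul h.c2, ?_, ?_, ?_⟩
  · intro s hs
    rw [hd]
    exact mul_pos hc (h.pos s hs)
  · intro s hs
    rw [hdd, hd]
    have := mul_le_mul_of_nonneg_left (h.lower s hs) hc.le
    simp only
    linarith
  · intro s hs
    rw [hdd, hd]
    have := mul_le_mul_of_nonneg_left (h.upper s hs) hc.le
    simp only
    linarith

end

variable {E : Type*} [NormedAddCommGroup E] [InnerProductSpace ℝ E] [FiniteDimensional ℝ E]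
    [MeasurableSpace E] [BorelSpace E]
variable {α : Type*} [MeasurableSpace α] {ν : Measure α} {p q : ℝ} {v : α → E} {φ : α → ℝ → ℝ}

/-- a bound of the modular functions on balls -/
private theorem mub_bound (hp : 1 < p) (hφ : ∀ ω, Orl p q (φ ω)) {R : ℝ} (hR : 0 < R) {n : ℕ}
    (b : OrthonormalBasis (Fin n) ℝ E) (ω : α) (x : E) (hx : ‖x‖ ≤ R) :
    φ ω (inner ℝ (v ω) x) ≤ ∑ i, φ ω (inner ℝ (v ω) ((R * Real.sqrt n) • (b i : E))) := by
  have hsum : ‖v ω‖ ^ 2 = ∑ i, (inner ℝ (b i) (v ω)) ^ 2 := by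
    rw [← b.sum_sq_norm_inner_right (v ω)]
    simp
  by_cases hn : n = 0
  · have hv0 : v ω = 0 := by
      have : ∑ i, (inner ℝ (b i) (v ω)) ^ 2 = (0:ℝ) := by
        refine Finset.sum_eq_zero fun i _ => ?_
        exact absurd i.2 (by omega)
      rw [this] at hsum
      simpa using hsum
    rw [hv0, inner_zero_left, (hφ ω).zero]
    exact Finset.sum_nonneg fun i _ => (hφ ω).nonneg hp _
  · have : Nonempty (Fin n) := ⟨⟨0, Nat.pos_of_ne_zero hn⟩⟩
    obtain ⟨i, -, hi⟩ := Finset.exists_max_image (Finset.univ : Finset (Fin n))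
      (fun i => (inner ℝ (b i) (v ω) : ℝ) ^ 2) Finset.univ_nonempty
    have h1 : ‖v ω‖ ^ 2 ≤ n * (inner ℝ (b i) (v ω)) ^ 2 := by
      rw [hsum]
      calc ∑ j, (inner ℝ (b j) (v ω)) ^ 2 ≤ ∑ j : Fin n, (inner ℝ (b i) (v ω) : ℝ) ^ 2 :=
            Finset.sum_le_sum fun j _ => hi j (Finset.mem_univ j)
        _ = n * (inner ℝ (b i) (v ω)) ^ 2 := by simp
    have h2 : ‖v ω‖ ≤ Real.sqrt n * |inner ℝ (v ω) (b i)| := by
      rw [real_inner_comm]
      refine abs_le_of_sq_le_sq' ?_ (by positivity) |>.2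
      rw [mul_pow, Real.sq_sqrt (by positivity), sq_abs]
      exact h1
    have h3 : |(inner ℝ (v ω) x : ℝ)| ≤
        |(inner ℝ (v ω) ((R * Real.sqrt n) • (b i : E)) : ℝ)| := by
      rw [real_inner_smul_right, abs_mul, abs_of_nonneg (by positivity : 0 ≤ R * Real.sqrt n)]
      calc |(inner ℝ (v ω) x : ℝ)| ≤ ‖v ω‖ * ‖x‖ := abs_real_inner_le_norm _ _
        _ ≤ (Real.sqrt n * |inner ℝ (v ω) (b i)|) * R := by gcongr
        _ = _ := by ring
    refine ((hφ ω).mono_abs hp h3).trans ?_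
    exact Finset.single_le_sum (f := fun i => φ ω (inner ℝ (v ω) ((R * Real.sqrt n) • (b i : E))))
      (fun j _ => (hφ ω).nonneg hp _) (Finset.mem_univ i)

/-- Uniform approximation on balls by finite sums. -/
theorem Mod_approx (hp : 1 < p) (hpq : p ≤ q) (hv : Measurable v)
    (hφm : ∀ s, Measurable (fun ω => φ ω s)) (hφ : ∀ ω, Orl p q (φ ω))
    (hi : ∀ x, Integrable (fun ω => φ ω (inner ℝ (v ω) x)) ν) {R η : ℝ} (hR : 0 < R)
    (hη : 0 < η) :
    ∃ (N : ℕ) (v' : Fin N → E) (φ' : Fin N → ℝ → ℝ), (∀ j, Orl p q (φ' j)) ∧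
      ∀ x : E, ‖x‖ ≤ R → |Ph v' φ' x - Mod ν v φ x| ≤ η := by
  classical
  have : CompactSpace (Metric.closedBall (0:E) R) :=
    isCompact_iff_compactSpace.1 (isCompact_closedBall 0 R)
  let _ : MeasurableSpace C(Metric.closedBall (0:E) R, ℝ) := borel _
  have : BorelSpace C(Metric.closedBall (0:E) R, ℝ) := ⟨rfl⟩
  let Θ : α → C(Metric.closedBall (0:E) R, ℝ) := fun ω =>
    ⟨fun x => φ ω (inner ℝ (v ω) (x : E)), by
      have h1 := (hφ ω).c1.continuous
      exact h1.comp (continuous_const.inner continuous_subtype_val)⟩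
  have hΘ : ∀ ω x, Θ ω x = φ ω (inner ℝ (v ω) (x : E)) := fun ω x => rfl
  have hunc : Measurable (Function.uncurry (fun (s : ℝ) (ω : α) => φ ω s)) :=
    measurable_uncurry_of_continuous_of_measurable (fun ω => (hφ ω).c1.continuous) hφm
  have hΘm : Measurable Θ := by
    refine measurable_toC fun x => ?_
    have h1 : Measurable (fun ω => ((inner ℝ (v ω) (x : E) : ℝ), ω)) :=
      (hv.inner measurable_const).prodMk measurable_id
    exact hunc.comp h1
  have hbd : ∀ ω, ‖Θ ω‖ ≤ ∑ i, φ ω (inner ℝ (v ω) ((R * Real.sqrt (Module.finrank ℝ E)) •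
        (stdOrthonormalBasis ℝ E i : E))) := by
    intro ω
    rw [ContinuousMap.norm_le _ (Finset.sum_nonneg fun i _ => (hφ ω).nonneg hp _)]
    intro x
    rw [hΘ, Real.norm_of_nonneg ((hφ ω).nonneg hp _)]
    exact mub_bound hp hφ hR (stdOrthonormalBasis ℝ E) ω _ (mem_closedBall_zero_iff.1 x.2)
  have hΘi : Integrable Θ ν := by
    refine Integrable.mono' (integrable_finsetSum _ fun i _ => hi _)
      hΘm.aestronglyMeasurable (Filter.Eventually.of_forall hbd)
  have h0 : (0 : C(Metric.closedBall (0:E) R, ℝ)) ∈ (range Θ ∪ {0}) := Or.inr rfl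
  have ht := SimpleFunc.tendsto_approxOn_L1_enorm (μ := ν) hΘm h0
    (Filter.Eventually.of_forall fun ω => subset_closure (Or.inl ⟨ω, rfl⟩))
    (by simpa using hΘi.2)
  have hev := (ENNReal.tendsto_nhds_zero.1 ht) (ENNReal.ofReal η) (by simpa using hη)
  obtain ⟨k, hk⟩ := hev.exists
  set F := SimpleFunc.approxOn Θ hΘm (range Θ ∪ {0}) 0 h0 k with hF
  have hFi : Integrable F ν := SimpleFunc.integrable_approxOn hΘm hΘi h0 (integrable_zero _ _ _) k
  have hdiff : ‖(∫ ω, F ω ∂ν) - ∫ ω, Θ ω ∂ν‖ ≤ η := by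
    rw [← integral_sub hFi hΘi]
    refine (norm_integral_le_integral_norm _).trans ?_
    have he := integral_norm_eq_lintegral_enorm (hFi.sub hΘi).aestronglyMeasurable
    simp only [Pi.sub_apply] at he
    rw [he]
    exact ENNReal.toReal_le_of_le_ofReal hη.le hk
  have hFsum : (∫ ω, F ω ∂ν) = ∑ y ∈ F.range, ν.real (F ⁻¹' {y}) • y :=
    SimpleFunc.integral_eq_sum F hFi
  have hmem : ∀ y ∈ F.range, y ≠ 0 → ∃ ω, Θ ω = y := by
    intro y hy hy0
    obtain ⟨ω, rfl⟩ := SimpleFunc.mem_range.1 hy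
    have := SimpleFunc.approxOn_mem hΘm h0 k ω
    rcases this with h1 | h1
    · exact h1
    · exact absurd h1 hy0
  let S : Finset C(Metric.closedBall (0:E) R, ℝ) :=
    F.range.filter (fun y => y ≠ 0 ∧ 0 < ν.real (F ⁻¹' {y}))
  have hS : ∀ y ∈ S, y ∈ F.range ∧ y ≠ 0 ∧ 0 < ν.real (F ⁻¹' {y}) := fun y hy => by
    simpa [S] using hy
  have hSum : (∑ y ∈ F.range, ν.real (F ⁻¹' {y}) • y) = ∑ y ∈ S, ν.real (F ⁻¹' {y}) • y := by
    rw [Finset.sum_filter]
    refine Finset.sum_congr rfl fun y _ => ?_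
    split_ifs with h
    · rfl
    · by_cases hy : y = 0
      · rw [hy, smul_zero]
      · have : ν.real (F ⁻¹' {y}) = 0 := by
          by_contra hc
          exact h ⟨hy, lt_of_le_of_ne measureReal_nonneg (Ne.symm hc)⟩
        rw [this, zero_smul]
  let e := S.equivFin
  have hch : ∀ j : Fin S.card, ∃ ω, Θ ω = ((e.symm j : S) : C(Metric.closedBall (0:E) R, ℝ)) :=
    fun j => hmem _ (hS _ (e.symm j).2).1 (hS _ (e.symm j).2).2.1
  choose w hw using hch
  refine ⟨S.card, fun j => v (w j), fun j s =>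
    ν.real (F ⁻¹' {((e.symm j : S) : C(Metric.closedBall (0:E) R, ℝ))}) * φ (w j) s,
    fun j => (hφ (w j)).const_mul (hS _ (e.symm j).2).2.2, ?_⟩
  intro x hx
  let x' : Metric.closedBall (0:E) R := ⟨x, by simpa using hx⟩
  have h1 : (∫ ω, Θ ω ∂ν) x' = Mod ν v φ x := by
    have := (ContinuousMap.evalCLM ℝ x').integral_comp_comm hΘi
    simp only [ContinuousMap.evalCLM_apply] at this
    rw [← this]
    rfl
  have h2 : (∫ ω, F ω ∂ν) x' = Ph (fun j => v (w j)) (fun j s =>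
      ν.real (F ⁻¹' {((e.symm j : S) : C(Metric.closedBall (0:E) R, ℝ))}) * φ (w j) s) x := by
    rw [hFsum, hSum]
    unfold Ph
    rw [ContinuousMap.sum_apply, ← Finset.sum_coe_sort S, ← e.symm.sum_comp]
    refine Finset.sum_congr rfl fun j _ => ?_
    have h4 : ((e.symm j : S) : C(Metric.closedBall (0:E) R, ℝ)) x' =
        φ (w j) (inner ℝ (v (w j)) x) := by
      rw [← hw j]
      rfl
    rw [ContinuousMap.smul_apply, smul_eq_mul, h4]
  rw [← h1, ← h2]
  have h3 := ((∫ ω, F ω ∂ν) - ∫ ω, Θ ω ∂ν).norm_coe_le_norm x'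
  rw [ContinuousMap.sub_apply, Real.norm_eq_abs] at h3
  exact h3.trans hdiff

end Pool.Agent.H73.Lp
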