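import Pool.Agent.H73.Lp.BAS

/-!
# The modular
-/

set_option autoImplicit false

open MeasureTheory Set

namespace Pool.Agent.H73.Lp

variable {E : Type*} [NormedAddCommGroup E] [InnerProductSpace ℝ E]

/-- The modular `∫ φ_ω(⟨v(ω), x⟩) dν`. -/
noncomputable def Mod {α : Type*} [MeasurableSpace α] (ν : Measure α) (v : α → E)
    (φ : α → ℝ → ℝ) (x : E) : ℝ := ∫ ω, φ ω (inner ℝ (v ω) x) ∂ν

end Pool.Agent.H73.Lp
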