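import Pool.Agent.H73.Lp.Defs

/-!
# Module ORL: elementary properties of the functions of the class
-/

set_option autoImplicit false

open MeasureTheory Set

namespace Pool.Agent.H73.Lp

variable {p q : ℝ} {φ : ℝ → ℝ}

private theorem Orl.diffable (h : Orl p q φ) : Differentiable ℝ φ :=
  h.c1.differentiable one_ne_zero

private theorem Orl.cont_deriv (h : Orl p q φ) : Continuous (deriv φ) :=
  h.c1.continuous_deriv le_rfl

private theorem Orl.hasDeriv2 (h : Orl p q φ) {s : ℝ} (hs : 0 < s) :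
    HasDerivAt (deriv φ) (deriv (deriv φ) s) s := by
  have h2 : ContDiffOn ℝ (1 + 1) φ (Ioi 0) := by
    have := h.c2
    norm_num at this ⊢
    exact this
  have h3 := ((contDiffOn_succ_iff_deriv_of_isOpen isOpen_Ioi).1 h2).2.2
  exact ((h3.differentiableOn one_ne_zero).differentiableAt (Ioi_mem_nhds hs)).hasDerivAt

theorem Orl.kap_pos (h : Orl p q φ) {s : ℝ} (hs : s ≠ 0) : 0 < kap φ s :=
  div_pos (h.pos _ (abs_pos.2 hs)) (abs_pos.2 hs)

private theorem kap_eq {s : ℝ} (hs : 0 < s) (r : ℝ) :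
    kap φ s * s ^ (2 - r) = deriv φ s * s ^ (1 - r) := by
  unfold kap
  rw [abs_of_pos hs]
  have h1 : s ^ (1 - r) = s ^ (2 - r) / s := by
    rw [← Real.rpow_sub_one hs.ne']
    congr 1
    ring
  rw [h1]
  field_simp

private theorem rpow_one_sub_eq {s : ℝ} (hs : 0 < s) (r : ℝ) : s ^ (1 - r) = s * s ^ (-r) := by
  have := Real.rpow_add hs 1 (-r)
  rw [Real.rpow_one] at this
  rw [← this]
  congr 1

private theorem Orl.hasDeriv_mul (h : Orl p q φ) (r : ℝ) {s : ℝ} (hs : 0 < s) :
    HasDerivAt (fun u => deriv φ u * u ^ (1 - r))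
      ((s * deriv (deriv φ) s - (r - 1) * deriv φ s) * s ^ (-r)) s := by
  have h1 := (h.hasDeriv2 hs).mul (Real.hasDerivAt_rpow_const (p := 1 - r) (Or.inl hs.ne'))
  refine h1.congr_deriv ?_
  have e1 : s ^ (1 - r - 1) = s ^ (-r) := by
    congr 1
    ring
  rw [e1, rpow_one_sub_eq hs]
  ring

/-- `κ(s) s^(2-p)` is nondecreasing. -/
theorem Orl.kap_low (h : Orl p q φ) {s t : ℝ} (hs : 0 < s) (hst : s ≤ t) :
    kap φ s * s ^ (2 - p) ≤ kap φ t * t ^ (2 - p) := by
  rw [kap_eq hs, kap_eq (hs.trans_le hst)]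
  have hm : MonotoneOn (fun u => deriv φ u * u ^ (1 - p)) (Ioi 0) := by
    refine monotoneOn_of_deriv_nonneg (convex_Ioi 0) ?_ ?_ ?_
    · intro u hu
      exact (h.hasDeriv_mul p hu).continuousAt.continuousWithinAt
    · intro u hu
      rw [interior_Ioi] at hu
      exact (h.hasDeriv_mul p hu).differentiableAt.differentiableWithinAt
    · intro u hu
      rw [interior_Ioi] at hu
      rw [(h.hasDeriv_mul p hu).deriv]
      have := h.lower u hu
      exact mul_nonneg (by linarith) (Real.rpow_nonneg (le_of_lt hu) _)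
  exact hm hs (hs.trans_le hst) hst

/-- `κ(s) s^(2-q)` is nonincreasing. -/
theorem Orl.kap_up (h : Orl p q φ) {s t : ℝ} (hs : 0 < s) (hst : s ≤ t) :
    kap φ t * t ^ (2 - q) ≤ kap φ s * s ^ (2 - q) := by
  rw [kap_eq hs, kap_eq (hs.trans_le hst)]
  have hm : AntitoneOn (fun u => deriv φ u * u ^ (1 - q)) (Ioi 0) := by
    refine antitoneOn_of_deriv_nonpos (convex_Ioi 0) ?_ ?_ ?_
    · intro u hu
      exact (h.hasDeriv_mul q hu).continuousAt.continuousWithinAt
    · intro u hu
      rw [interior_Ioi] at hu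
      exact (h.hasDeriv_mul q hu).differentiableAt.differentiableWithinAt
    · intro u hu
      rw [interior_Ioi] at hu
      rw [(h.hasDeriv_mul q hu).deriv]
      have := h.upper u hu
      exact mul_nonpos_of_nonpos_of_nonneg (by linarith) (Real.rpow_nonneg (le_of_lt hu) _)
  exact hm hs (hs.trans_le hst) hst

private theorem Orl.deriv_neg (h : Orl p q φ) (s : ℝ) : deriv φ (-s) = -deriv φ s := by
  have h1 : (fun x => φ (-x)) = φ := funext h.even
  have h2 := deriv_comp_neg φ s
  rw [h1] at h2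
  linarith

theorem Orl.deriv_zero (h : Orl p q φ) : deriv φ 0 = 0 := by
  have := h.deriv_neg 0
  rw [neg_zero] at this
  linarith

private theorem Orl.deriv_monoOn (h : Orl p q φ) (hp : 1 < p) : MonotoneOn (deriv φ) (Ici 0) := by
  refine monotoneOn_of_deriv_nonneg (convex_Ici 0) h.cont_deriv.continuousOn ?_ ?_
  · intro u hu
    rw [interior_Ici] at hu
    exact (h.hasDeriv2 hu).differentiableAt.differentiableWithinAt
  · intro u hu
    rw [interior_Ici] at hu
    have hu' : (0:ℝ) < u := hu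
    have h1 := h.lower u hu'
    have h2 : 0 ≤ (p - 1) * deriv φ u := mul_nonneg (by linarith) (h.pos u hu').le
    by_contra hneg
    push Not at hneg
    nlinarith [mul_neg_of_pos_of_neg hu' hneg]

theorem Orl.deriv_mono (h : Orl p q φ) (hp : 1 < p) {s t : ℝ} (hs : 0 ≤ s) (hst : s ≤ t) :
    deriv φ s ≤ deriv φ t :=
  h.deriv_monoOn hp hs (hs.trans hst) hst

private theorem Orl.deriv_nonneg (h : Orl p q φ) {s : ℝ} (hs : 0 ≤ s) : 0 ≤ deriv φ s := by
  rcases hs.eq_or_lt with h0 | h0
  · rw [← h0, h.deriv_zero]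
  · exact (h.pos s h0).le

theorem Orl.conv (h : Orl p q φ) (hp : 1 < p) : ConvexOn ℝ univ φ := by
  refine Monotone.convexOn_univ_of_deriv h.diffable ?_
  intro s t hst
  rcases le_total 0 s with hs | hs
  · exact h.deriv_mono hp hs hst
  · rcases le_total 0 t with ht | ht
    · have h1 : deriv φ s ≤ 0 := by
        have := h.deriv_neg (-s)
        rw [neg_neg] at this
        have h2 := h.deriv_nonneg (s := -s) (by linarith)
        linarith
      exact h1.trans (h.deriv_nonneg ht)
    · have h1 := h.deriv_mono hp (s := -t) (t := -s) (by linarith) (by linarith)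
      rw [h.deriv_neg, h.deriv_neg] at h1
      linarith

private theorem Orl.abs_eq (h : Orl p q φ) (s : ℝ) : φ |s| = φ s := by
  rcases abs_choice s with h1 | h1
  · rw [h1]
  · rw [h1, h.even]

theorem Orl.pos_of_ne (h : Orl p q φ) (hp : 1 < p) {s : ℝ} (hs : s ≠ 0) : 0 < φ s := by
  have hm : StrictMonoOn φ (Ici 0) := by
    refine strictMonoOn_of_deriv_pos (convex_Ici 0) h.diffable.continuous.continuousOn ?_
    intro u hu
    rw [interior_Ici] at hu
    exact h.pos u hu
  have h1 := hm (self_mem_Ici : (0:ℝ) ∈ Ici 0) (abs_nonneg s : |s| ∈ Ici 0) (abs_pos.2 hs)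
  rw [h.zero, h.abs_eq] at h1
  exact h1

private theorem Orl.deriv_low (h : Orl p q φ) {s : ℝ} (hs : 0 ≤ s) :
    p * φ s ≤ s * deriv φ s := by
  have hm : MonotoneOn (fun u => u * deriv φ u - p * φ u) (Ici 0) := by
    have hd : ∀ u : ℝ, 0 < u → HasDerivAt (fun u => u * deriv φ u - p * φ u)
        (u * deriv (deriv φ) u - (p - 1) * deriv φ u) u := by
      intro u hu
      have h1 := ((hasDerivAt_id u).mul (h.hasDeriv2 hu)).sub
        ((h.diffable u).hasDerivAt.const_mul p)
      refine h1.congr_deriv ?_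
      simp only [id]
      ring
    refine monotoneOn_of_deriv_nonneg (convex_Ici 0) ?_ ?_ ?_
    · exact ((continuous_id.mul h.cont_deriv).sub
        (continuous_const.mul h.diffable.continuous)).continuousOn
    · intro u hu
      rw [interior_Ici] at hu
      exact (hd u hu).differentiableAt.differentiableWithinAt
    · intro u hu
      rw [interior_Ici] at hu
      rw [(hd u hu).deriv]
      have := h.lower u hu
      linarith
  have h1 := hm (self_mem_Ici : (0:ℝ) ∈ Ici 0) (hs : s ∈ Ici 0) hs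
  simp only [h.zero, zero_mul, mul_zero, sub_zero] at h1
  linarith

private theorem Orl.deriv_up (h : Orl p q φ) {s : ℝ} (hs : 0 ≤ s) :
    s * deriv φ s ≤ q * φ s := by
  have hm : MonotoneOn (fun u => q * φ u - u * deriv φ u) (Ici 0) := by
    have hd : ∀ u : ℝ, 0 < u → HasDerivAt (fun u => q * φ u - u * deriv φ u)
        ((q - 1) * deriv φ u - u * deriv (deriv φ) u) u := by
      intro u hu
      have h1 := ((h.diffable u).hasDerivAt.const_mul q).sub
        ((hasDerivAt_id u).mul (h.hasDeriv2 hu))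
      refine h1.congr_deriv ?_
      simp only [id]
      ring
    refine monotoneOn_of_deriv_nonneg (convex_Ici 0) ?_ ?_ ?_
    · exact ((continuous_const.mul h.diffable.continuous).sub
        (continuous_id.mul h.cont_deriv)).continuousOn
    · intro u hu
      rw [interior_Ici] at hu
      exact (hd u hu).differentiableAt.differentiableWithinAt
    · intro u hu
      rw [interior_Ici] at hu
      rw [(hd u hu).deriv]
      have := h.upper u hu
      linarith
  have h1 := hm (self_mem_Ici : (0:ℝ) ∈ Ici 0) (hs : s ∈ Ici 0) hs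
  simp only [h.zero, zero_mul, mul_zero, sub_zero] at h1
  linarith

private theorem Orl.hasDeriv_phi_mul (h : Orl p q φ) (r : ℝ) {s : ℝ} (hs : 0 < s) :
    HasDerivAt (fun u => φ u * u ^ (-r)) ((s * deriv φ s - r * φ s) * s ^ (-r - 1)) s := by
  have h1 := (h.diffable s).hasDerivAt.mul (Real.hasDerivAt_rpow_const (p := -r) (Or.inl hs.ne'))
  refine h1.congr_deriv ?_
  have e2 : s ^ (-r) = s * s ^ (-r - 1) := by
    have := Real.rpow_add hs 1 (-r - 1)
    rw [Real.rpow_one] at this
    rw [← this]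
    congr 1
    ring
  rw [e2]
  ring

theorem Orl.scale_le (h : Orl p q φ) (hp : 1 < p) {t : ℝ} (ht : 0 ≤ t) (ht1 : t ≤ 1) (s : ℝ) :
    φ (t * s) ≤ t ^ p * φ s := by
  rcases ht.eq_or_lt with h0 | ht0
  · rw [← h0, zero_mul, h.zero, Real.zero_rpow (by linarith), zero_mul]
  rcases eq_or_ne s 0 with hs0 | hs0
  · rw [hs0, mul_zero, h.zero, mul_zero]
  have hs : 0 < |s| := abs_pos.2 hs0
  have hm : MonotoneOn (fun u => φ u * u ^ (-p)) (Ioi 0) := by
    refine monotoneOn_of_deriv_nonneg (convex_Ioi 0) ?_ ?_ ?_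
    · intro u hu
      exact (h.hasDeriv_phi_mul p hu).continuousAt.continuousWithinAt
    · intro u hu
      rw [interior_Ioi] at hu
      exact (h.hasDeriv_phi_mul p hu).differentiableAt.differentiableWithinAt
    · intro u hu
      rw [interior_Ioi] at hu
      rw [(h.hasDeriv_phi_mul p hu).deriv]
      have := h.deriv_low (le_of_lt hu)
      exact mul_nonneg (by linarith) (Real.rpow_nonneg (le_of_lt hu) _)
  have hts : 0 < t * |s| := mul_pos ht0 hs
  have h1 := hm (hts : t * |s| ∈ Ioi 0) (hs : |s| ∈ Ioi 0) (by nlinarith)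
  simp only at h1
  rw [Real.mul_rpow ht0.le hs.le, h.abs_eq s] at h1
  have e1 : φ (t * |s|) = φ (t * s) := by
    rw [← h.abs_eq (t * s), abs_mul, abs_of_pos ht0]
  rw [e1] at h1
  have hsp : 0 < |s| ^ (-p) := Real.rpow_pos_of_pos hs _
  have h2 : φ (t * s) * t ^ (-p) ≤ φ s := by
    have h3 : φ (t * s) * t ^ (-p) * |s| ^ (-p) ≤ φ s * |s| ^ (-p) := by linarith [h1]
    exact le_of_mul_le_mul_right h3 hsp
  have h4 : t ^ p * t ^ (-p) = 1 := by
    rw [← Real.rpow_add ht0]
    simp
  have h5 : 0 < t ^ p := Real.rpow_pos_of_pos ht0 _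
  calc φ (t * s) = t ^ p * (φ (t * s) * t ^ (-p)) := by
        rw [show t ^ p * (φ (t * s) * t ^ (-p)) = (t ^ p * t ^ (-p)) * φ (t * s) by ring, h4,
          one_mul]
    _ ≤ t ^ p * φ s := mul_le_mul_of_nonneg_left h2 h5.le

theorem Orl.scale_ge (h : Orl p q φ) (hp : 1 < p) (hpq : p ≤ q) {t : ℝ} (ht : 0 ≤ t) (ht1 : t ≤ 1)
    (s : ℝ) : t ^ q * φ s ≤ φ (t * s) := by
  rcases ht.eq_or_lt with h0 | ht0
  · rw [← h0, zero_mul, h.zero, Real.zero_rpow (by linarith), zero_mul]
  rcases eq_or_ne s 0 with hs0 | hs0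
  · rw [hs0, mul_zero, h.zero, mul_zero]
  have hs : 0 < |s| := abs_pos.2 hs0
  have hm : AntitoneOn (fun u => φ u * u ^ (-q)) (Ioi 0) := by
    refine antitoneOn_of_deriv_nonpos (convex_Ioi 0) ?_ ?_ ?_
    · intro u hu
      exact (h.hasDeriv_phi_mul q hu).continuousAt.continuousWithinAt
    · intro u hu
      rw [interior_Ioi] at hu
      exact (h.hasDeriv_phi_mul q hu).differentiableAt.differentiableWithinAt
    · intro u hu
      rw [interior_Ioi] at hu
      rw [(h.hasDeriv_phi_mul q hu).deriv]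
      have := h.deriv_up (le_of_lt hu)
      exact mul_nonpos_of_nonpos_of_nonneg (by linarith) (Real.rpow_nonneg (le_of_lt hu) _)
  have hts : 0 < t * |s| := mul_pos ht0 hs
  have h1 := hm (hts : t * |s| ∈ Ioi 0) (hs : |s| ∈ Ioi 0) (by nlinarith)
  simp only at h1
  rw [Real.mul_rpow ht0.le hs.le, h.abs_eq s] at h1
  have e1 : φ (t * |s|) = φ (t * s) := by
    rw [← h.abs_eq (t * s), abs_mul, abs_of_pos ht0]
  rw [e1] at h1
  have hsp : 0 < |s| ^ (-q) := Real.rpow_pos_of_pos hs _
  have h2 : φ s ≤ φ (t * s) * t ^ (-q) := by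
    have h3 : φ s * |s| ^ (-q) ≤ φ (t * s) * t ^ (-q) * |s| ^ (-q) := by linarith [h1]
    exact le_of_mul_le_mul_right h3 hsp
  have h4 : t ^ q * t ^ (-q) = 1 := by
    rw [← Real.rpow_add ht0]
    simp
  have h5 : 0 < t ^ q := Real.rpow_pos_of_pos ht0 _
  calc t ^ q * φ s ≤ t ^ q * (φ (t * s) * t ^ (-q)) := mul_le_mul_of_nonneg_left h2 h5.le
    _ = φ (t * s) := by
        rw [show t ^ q * (φ (t * s) * t ^ (-q)) = (t ^ q * t ^ (-q)) * φ (t * s) by ring, h4,
          one_mul]

private theorem deriv_abs_rpow (hp : 1 < p) :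
    deriv (fun s : ℝ => |s| ^ p) = fun s => p * |s| ^ (p - 2) * s :=
  funext fun s => (hasDerivAt_abs_rpow s hp).deriv

private theorem rpow_two_mul {s : ℝ} (hs : 0 < s) (p : ℝ) : s ^ (p - 2) * s = s ^ (p - 1) := by
  have := Real.rpow_add hs (p - 2) 1
  rw [Real.rpow_one] at this
  rw [← this]
  congr 1
  ring

/-- The power functions. -/
theorem orl_rpow (hp : 1 < p) : Orl p p (fun s => |s| ^ p) := by
  have hdd : ∀ s : ℝ, 0 < s → deriv (deriv (fun s : ℝ => |s| ^ p)) s =
      p * ((p - 1) * s ^ (p - 2)) := by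
    intro s hs
    rw [deriv_abs_rpow hp]
    have he : (fun s : ℝ => p * |s| ^ (p - 2) * s) =ᶠ[nhds s] fun s => p * s ^ (p - 1) := by
      filter_upwards [Ioi_mem_nhds hs] with u hu
      have hu' : (0:ℝ) < u := hu
      rw [abs_of_pos hu', mul_assoc, rpow_two_mul hu']
    rw [he.deriv_eq]
    have h1 := (Real.hasDerivAt_rpow_const (x := s) (p := p - 1) (Or.inl hs.ne')).const_mul p
    rw [h1.deriv]
    congr 2
    congr 1
    ring
  have hs2 : ∀ s : ℝ, 0 < s → s * deriv (deriv (fun s : ℝ => |s| ^ p)) s =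
      (p - 1) * deriv (fun s : ℝ => |s| ^ p) s := by
    intro s hs
    rw [hdd s hs, deriv_abs_rpow hp]
    simp only
    rw [abs_of_pos hs]
    ring
  refine ⟨?_, ?_, ?_, ?_, ?_, ?_, ?_⟩
  · simp only [abs_zero]
    exact Real.zero_rpow (by linarith)
  · intro s
    simp only [abs_neg]
  · have := contDiff_norm_rpow (E := ℝ) hp
    simpa only [Real.norm_eq_abs] using this
  · have h1 : ContDiffOn ℝ 2 (fun s : ℝ => s ^ p) (Ioi 0) := by
      intro s hs
      exact (Real.contDiffAt_rpow_const_of_ne (ne_of_gt hs)).contDiffWithinAt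
    refine h1.congr ?_
    intro s hs
    have hs' : (0:ℝ) < s := hs
    rw [abs_of_pos hs']
  · intro s hs
    rw [deriv_abs_rpow hp]
    have : 0 < |s| ^ (p - 2) := Real.rpow_pos_of_pos (abs_pos.2 hs.ne') _
    simp only
    positivity
  · intro s hs
    exact (hs2 s hs).ge
  · intro s hs
    exact (hs2 s hs).le

theorem kap_rpow (hp : 1 < p) {s : ℝ} (hs : s ≠ 0) :
    kap (fun s => |s| ^ p) s = p * |s| ^ (p - 2) := by
  unfold kap
  rw [deriv_abs_rpow hp]
  have : |s| ≠ 0 := abs_ne_zero.2 hs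
  simp only [abs_abs]
  field_simp

end Pool.Agent.H73.Lp
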