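import Pool.Agent.H73.Lp.Defs
import Pool.Agent.H84.PrekopaLeindler

/-!
# Module SMB: small ball estimate for a linear functional on a symmetric convex body
-/

set_option autoImplicit false

open MeasureTheory Set

namespace Pool.Agent.H73.Lp

open Pool.Agent.H84

variable {E : Type*} [NormedAddCommGroup E] [InnerProductSpace ℝ E]
    [FiniteDimensional ℝ E] [MeasurableSpace E] [BorelSpace E]

namespace SMB

variable {K : Set E} {R : ℝ}

theorem vol_pos (hK : CB K R) : 0 < volume.real K := by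
  unfold Measure.real
  exact ENNReal.toReal_pos hK.vol0 hK.lt_top.ne

theorem hyper_null {v : E} (hv : v ≠ 0) : volume {x : E | inner ℝ v x = (0:ℝ)} = 0 := by
  have hne : LinearMap.ker (innerSL ℝ v : E →ₗ[ℝ] ℝ) ≠ ⊤ := by
    intro h
    have h1 : v ∈ LinearMap.ker (innerSL ℝ v : E →ₗ[ℝ] ℝ) := by rw [h]; trivial
    rw [LinearMap.mem_ker] at h1
    have h2 : inner ℝ v v = (0:ℝ) := h1
    exact hv (inner_self_eq_zero.mp h2)
  have h := Measure.addHaar_submodule (volume : Measure E) _ hne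
  have e : {x : E | inner ℝ v x = (0:ℝ)} = ((LinearMap.ker (innerSL ℝ v : E →ₗ[ℝ] ℝ) : Submodule ℝ E) : Set E) := by
    ext x
    simp only [mem_ofPred_eq, SetLike.mem_coe, LinearMap.mem_ker]
    rfl
  rw [e]
  exact h

theorem int_abs (hK : CB K R) (v : E) : IntegrableOn (fun x : E => |inner ℝ v x|) K := by
  have : IntegrableOn (fun x : E => |inner ℝ v x|) (Metric.closedBall (0 : E) R) :=
    (Continuous.continuousOn (by fun_prop)).integrableOn_compact (isCompact_closedBall _ _)
  exact this.mono_set hK.sub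

/-- The part of the body where `⟨v, x⟩ ≥ t`. -/
noncomputable def hv (K : Set E) (v : E) (t : ℝ) : ℝ := volume.real (K ∩ {x | t ≤ inner ℝ v x})

theorem meas_half (hK : CB K R) (v : E) (t : ℝ) : MeasurableSet (K ∩ {x | t ≤ inner ℝ v x}) :=
  hK.meas.inter (measurableSet_le measurable_const (by fun_prop))

theorem meas_half' (hK : CB K R) (v : E) (t : ℝ) : MeasurableSet (K ∩ {x | t ≤ - inner ℝ v x}) :=
  hK.meas.inter (measurableSet_le measurable_const (by fun_prop))

theorem meas_abs (hK : CB K R) (v : E) (t : ℝ) : MeasurableSet (K ∩ {x | t ≤ |inner ℝ v x|}) :=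
  hK.meas.inter (measurableSet_le measurable_const (by fun_prop))

theorem half_ne_top (hK : CB K R) (S : Set E) : volume (K ∩ S) ≠ ⊤ :=
  ((measure_mono inter_subset_left).trans_lt hK.lt_top).ne

theorem hv_neg (hK : CB K R) (hsymm : ∀ x ∈ K, -x ∈ K) (v : E) (t : ℝ) :
    volume.real (K ∩ {x | t ≤ - inner ℝ v x}) = hv K v t := by
  unfold hv
  have h1 : (LinearIsometryEquiv.neg ℝ : E ≃ₗᵢ[ℝ] E) ⁻¹' (K ∩ {x | t ≤ inner ℝ v x}) =
      K ∩ {x | t ≤ - inner ℝ v x} := by
    ext x
    simp only [mem_preimage, mem_inter_iff, mem_ofPred_eq, LinearIsometryEquiv.coe_neg,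
      inner_neg_right]
    constructor
    · rintro ⟨h, h'⟩
      refine ⟨?_, h'⟩
      have := hsymm _ h
      rwa [neg_neg] at this
    · rintro ⟨h, h'⟩
      exact ⟨hsymm _ h, h'⟩
  rw [← h1]
  unfold Measure.real
  rw [(LinearIsometryEquiv.neg ℝ : E ≃ₗᵢ[ℝ] E).measurePreserving.measure_preimage
    (meas_half hK v t).nullMeasurableSet]

theorem abs_union (v : E) (t : ℝ) :
    K ∩ {x | t ≤ |inner ℝ v x|} =
      (K ∩ {x | t ≤ inner ℝ v x}) ∪ (K ∩ {x | t ≤ - inner ℝ v x}) := by
  ext x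
  simp only [mem_inter_iff, mem_ofPred_eq, mem_union, le_abs]
  tauto

theorem abs_le_two (hK : CB K R) (hsymm : ∀ x ∈ K, -x ∈ K) (v : E) (t : ℝ) :
    volume.real (K ∩ {x | t ≤ |inner ℝ v x|}) ≤ 2 * hv K v t := by
  rw [abs_union]
  refine (measureReal_union_le _ _).trans ?_
  rw [hv_neg hK hsymm, hv]
  linarith

theorem abs_eq_two (hK : CB K R) (hsymm : ∀ x ∈ K, -x ∈ K) (v : E) {t : ℝ} (ht : 0 < t) :
    volume.real (K ∩ {x | t ≤ |inner ℝ v x|}) = 2 * hv K v t := by
  rw [abs_union, measureReal_union _ (meas_half' hK v t) (half_ne_top hK _) (half_ne_top hK _),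
    hv_neg hK hsymm, hv]
  · ring
  · rw [Set.disjoint_left]
    rintro x ⟨_, h1⟩ ⟨_, h2⟩
    simp only [mem_ofPred_eq] at h1 h2
    linarith

theorem hv_pl (hK : CB K R) (v : E) (t t' : ℝ) :
    hv K v t * hv K v t' ≤ hv K v ((t + t') / 2) ^ 2 := by
  have h := pl_inner E ((K ∩ {x | t ≤ inner ℝ v x}).indicator 1)
    ((K ∩ {x | t' ≤ inner ℝ v x}).indicator 1) ((K ∩ {x | (t + t') / 2 ≤ inner ℝ v x}).indicator 1)
    (measurable_one.indicator (meas_half hK v t)) (measurable_one.indicator (meas_half hK v t'))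
    (measurable_one.indicator (meas_half hK v _)) ?_
  · rw [lintegral_indicator_one (meas_half hK v t), lintegral_indicator_one (meas_half hK v t'),
      lintegral_indicator_one (meas_half hK v _)] at h
    unfold hv Measure.real
    rw [← ENNReal.toReal_mul, ← ENNReal.toReal_pow]
    exact ENNReal.toReal_mono (ENNReal.pow_ne_top (half_ne_top hK _)) h
  · intro x y
    by_cases hx : x ∈ K ∩ {x | t ≤ inner ℝ v x}
    · by_cases hy : y ∈ K ∩ {x | t' ≤ inner ℝ v x}
      · have hxy : (2:ℝ)⁻¹ • (x + y) ∈ K ∩ {x | (t + t') / 2 ≤ inner ℝ v x} := by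
          refine ⟨?_, ?_⟩
          · have := hK.conv hx.1 hy.1 (by norm_num : (0:ℝ) ≤ 2⁻¹) (by norm_num : (0:ℝ) ≤ 2⁻¹)
              (by norm_num)
            rwa [smul_add]
          · have h1 : t ≤ inner ℝ v x := hx.2
            have h2 : t' ≤ inner ℝ v y := hy.2
            simp only [mem_ofPred_eq, inner_smul_right, inner_add_right]
            linarith
        rw [indicator_of_mem hx, indicator_of_mem hy, indicator_of_mem hxy]
        simp
      · simp [indicator_of_notMem hy]
    · simp [indicator_of_notMem hx]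

theorem hv_nonneg (v : E) (t : ℝ) : 0 ≤ hv K v t := measureReal_nonneg

theorem hv_anti (hK : CB K R) (v : E) {t t' : ℝ} (h : t ≤ t') : hv K v t' ≤ hv K v t :=
  measureReal_mono (fun _ hx => ⟨hx.1, h.trans hx.2⟩) (half_ne_top hK _)

theorem hv_zero (hK : CB K R) (hsymm : ∀ x ∈ K, -x ∈ K) (v : E) :
    volume.real K ≤ 2 * hv K v 0 := by
  have h := abs_le_two hK hsymm v 0
  have h2 : K ∩ {x | 0 ≤ |inner ℝ v x|} = K := by
    ext x
    simp
  rwa [h2] at h

/-- Geometric decay. -/
theorem hv_step (hK : CB K R) (hsymm : ∀ x ∈ K, -x ∈ K) (v : E) {t θ : ℝ} (ht : 0 < t)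
    (hθ0 : 0 ≤ θ) (hθ : 2 * hv K v t = θ * volume.real K) (k : ℕ) :
    hv K v ((k + 1 : ℕ) * t) ≤ θ * hv K v (k * t) := by
  induction k with
  | zero =>
    have h2 := hv_zero hK hsymm v
    simp only [zero_add, Nat.cast_one, one_mul, Nat.cast_zero, zero_mul]
    nlinarith
  | succ k ih =>
    have h := hv_pl hK v ((k + 1 + 1 : ℕ) * t) (k * t)
    have e : (((k + 1 + 1 : ℕ) : ℝ) * t + k * t) / 2 = (k + 1 : ℕ) * t := by
      push_cast
      ring
    rw [e] at h
    have hmono : hv K v ((k + 1 + 1 : ℕ) * t) ≤ hv K v ((k + 1 : ℕ) * t) :=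
      hv_anti hK v (by push_cast; nlinarith)
    have ha0 : 0 ≤ hv K v ((k + 1 + 1 : ℕ) * t) := hv_nonneg v _
    have hb0 : 0 ≤ hv K v ((k + 1 : ℕ) * t) := hv_nonneg v _
    have hc0 : 0 ≤ hv K v (k * t) := hv_nonneg v _
    generalize hv K v ((k + 1 + 1 : ℕ) * t) = a at *
    generalize hv K v ((k + 1 : ℕ) * t) = b at *
    generalize hv K v (k * t) = c at *
    rcases hc0.eq_or_lt with hc | hc
    · subst hc
      have : b = 0 := le_antisymm (by linarith) hb0
      subst this
      linarith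
    · by_contra hcon
      push Not at hcon
      have h1 : θ * b * c < a * c := mul_lt_mul_of_pos_right hcon hc
      have h2 : b ^ 2 ≤ θ * c * b := by
        rw [pow_two]
        exact mul_le_mul_of_nonneg_right ih hb0
      nlinarith

theorem abs_decay (hK : CB K R) (hsymm : ∀ x ∈ K, -x ∈ K) (v : E) {t θ : ℝ} (ht : 0 < t)
    (hθ0 : 0 ≤ θ) (hθ : 2 * hv K v t = θ * volume.real K) (k : ℕ) :
    volume.real (K ∩ {x | k * t ≤ |inner ℝ v x|}) ≤ θ ^ k * volume.real K := by
  have key : ∀ k : ℕ, 2 * hv K v ((k + 1 : ℕ) * t) ≤ θ ^ (k + 1) * volume.real K := by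
    intro k
    induction k with
    | zero => simp [hθ]
    | succ k ih =>
      have h := hv_step hK hsymm v ht hθ0 hθ (k + 1)
      calc 2 * hv K v ((k + 1 + 1 : ℕ) * t) ≤ θ * (2 * hv K v ((k + 1 : ℕ) * t)) := by linarith
        _ ≤ θ * (θ ^ (k + 1) * volume.real K) := mul_le_mul_of_nonneg_left ih hθ0
        _ = _ := by ring
  rcases k with _ | k
  · simp
  · rw [abs_eq_two hK hsymm v (by positivity)]
    exact key k

theorem pointwise {t : ℝ} (ht : 0 < t) (N : ℕ) (y : ℝ) (hy : y < N * t) :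
    y ≤ t * ∑ k ∈ Finset.range N, (if (k:ℝ) * t ≤ y then (1:ℝ) else 0) := by
  induction N with
  | zero => simp at hy ⊢; exact hy.le
  | succ N ih =>
    rw [Finset.sum_range_succ]
    by_cases h : y < N * t
    · have := ih h
      rw [if_neg (not_le.mpr h), add_zero]
      exact this
    · push Not at h
      rw [if_pos h]
      have h1 : ∀ k ∈ Finset.range N, (if (k:ℝ) * t ≤ y then (1:ℝ) else 0) = 1 := by
        intro k hk
        rw [if_pos]
        have : (k:ℝ) ≤ N := by exact_mod_cast (Finset.mem_range.mp hk).le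
        exact (mul_le_mul_of_nonneg_right this ht.le).trans h
      rw [Finset.sum_congr rfl h1]
      simp only [Finset.sum_const, Finset.card_range, nsmul_eq_mul, mul_one]
      push_cast at hy
      linarith

end SMB

open SMB

theorem m1_pos {K : Set E} {R : ℝ} (hK : CB K R) {v : E} (hv : v ≠ 0) : 0 < m1 K v := by
  unfold m1
  apply div_pos _ (vol_pos hK)
  rw [setIntegral_pos_iff_support_of_nonneg_ae
    (Filter.Eventually.of_forall fun x => abs_nonneg _) (int_abs hK v)]
  rw [pos_iff_ne_zero]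
  intro h0
  apply hK.vol0
  have hsub : K ⊆ (Function.support (fun x : E => |inner ℝ v x|) ∩ K) ∪
      {x : E | inner ℝ v x = (0:ℝ)} := by
    intro x hx
    by_cases h : inner ℝ v x = (0:ℝ)
    · exact Or.inr h
    · exact Or.inl ⟨by simpa using h, hx⟩
  refine measure_mono_null hsub ?_
  exact measure_union_null h0 (hyper_null hv)

theorem small_ball {K : Set E} {R : ℝ} (hK : CB K R) (hsymm : ∀ x ∈ K, -x ∈ K) {v : E}
    (hv : v ≠ 0) {t : ℝ} (ht : 0 < t) :
    m1 K v * volume.real (K ∩ {x | |inner ℝ v x| < t}) ≤ t * volume.real K := by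
  have hV := vol_pos hK
  set V := volume.real K with hVdef
  set w := volume.real (K ∩ {x | |inner ℝ v x| < t}) with hw
  have hw0 : 0 ≤ w := measureReal_nonneg
  have hsum : w + 2 * SMB.hv K v t = V := by
    have hdisj : Disjoint (K ∩ {x | |inner ℝ v x| < t}) (K ∩ {x | t ≤ |inner ℝ v x|}) := by
      rw [Set.disjoint_left]
      rintro x ⟨_, h1⟩ ⟨_, h2⟩
      simp only [mem_ofPred_eq] at h1 h2
      linarith
    have hu : (K ∩ {x | |inner ℝ v x| < t}) ∪ (K ∩ {x | t ≤ |inner ℝ v x|}) = K := by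
      ext x
      simp only [mem_union, mem_inter_iff, mem_ofPred_eq]
      constructor
      · rintro (h | h) <;> exact h.1
      · intro hx
        rcases lt_or_ge |inner ℝ v x| t with h | h
        · exact Or.inl ⟨hx, h⟩
        · exact Or.inr ⟨hx, h⟩
    have h := measureReal_union hdisj (meas_abs hK v t) (half_ne_top hK _) (half_ne_top hK _)
    rw [hu, abs_eq_two hK hsymm v ht] at h
    exact h.symm
  obtain ⟨θ, hθ⟩ : ∃ θ : ℝ, θ = 2 * SMB.hv K v t / V := ⟨_, rfl⟩
  have hθ0 : 0 ≤ θ := by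
    rw [hθ]
    exact div_nonneg (mul_nonneg (by norm_num) (hv_nonneg v t)) hV.le
  have hθ1 : 2 * SMB.hv K v t = θ * V := by
    rw [hθ, div_mul_cancel₀ _ hV.ne']
  obtain ⟨M, hM⟩ := hK.bdd_of_cont (f := fun x => inner ℝ v x) (by fun_prop)
  obtain ⟨N, hN⟩ := exists_nat_gt (M / t)
  have hpt : ∀ x ∈ K, |inner ℝ v x| ≤ ∑ k ∈ Finset.range N,
      ({x : E | (k:ℝ) * t ≤ |inner ℝ v x|}.indicator (fun _ => t) x) := by
    intro x hx
    have h1 : |inner ℝ v x| < N * t := by
      rw [div_lt_iff₀ ht] at hN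
      exact (hM x hx).trans_lt hN
    have h2 := pointwise ht N _ h1
    rw [Finset.mul_sum] at h2
    refine h2.trans (le_of_eq ?_)
    apply Finset.sum_congr rfl
    intro k _
    simp only [indicator_apply, mem_ofPred_eq, mul_ite, mul_one, mul_zero]
  have hindi : ∀ k : ℕ, IntegrableOn (fun x : E =>
      {x : E | (k:ℝ) * t ≤ |inner ℝ v x|}.indicator (fun _ => t) x) K := by
    intro k
    apply IntegrableOn.indicator _ (measurableSet_le measurable_const (by fun_prop))
    exact integrableOn_const hK.lt_top.ne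
  have hI : ∫ x in K, |inner ℝ v x| ≤ ∑ k ∈ Finset.range N, t * (θ ^ k * V) := by
    calc ∫ x in K, |inner ℝ v x| ≤ ∫ x in K, ∑ k ∈ Finset.range N,
          ({x : E | (k:ℝ) * t ≤ |inner ℝ v x|}.indicator (fun _ => t) x) :=
          setIntegral_mono_on (int_abs hK v) (integrable_finsetSum _ fun k _ => hindi k)
            hK.meas hpt
      _ = ∑ k ∈ Finset.range N, ∫ x in K,
          ({x : E | (k:ℝ) * t ≤ |inner ℝ v x|}.indicator (fun _ => t) x) :=
          integral_finsetSum _ (fun k _ => hindi k)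
      _ ≤ ∑ k ∈ Finset.range N, t * (θ ^ k * V) := by
          apply Finset.sum_le_sum
          intro k _
          rw [setIntegral_indicator (measurableSet_le measurable_const (by fun_prop)),
            setIntegral_const, smul_eq_mul, mul_comm]
          exact mul_le_mul_of_nonneg_left (abs_decay hK hsymm v ht hθ0 hθ1 k) ht.le
  have hgeo : (1 - θ) * ∑ k ∈ Finset.range N, θ ^ k ≤ 1 := by
    have := mul_neg_geom_sum θ N
    rw [this]
    have : 0 ≤ θ ^ N := pow_nonneg hθ0 N
    linarith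
  have hwθ : w = V * (1 - θ) := by linarith
  have hfin : (∫ x in K, |inner ℝ v x|) * w ≤ t * V * V := by
    calc (∫ x in K, |inner ℝ v x|) * w ≤ (∑ k ∈ Finset.range N, t * (θ ^ k * V)) * w :=
          mul_le_mul_of_nonneg_right hI hw0
      _ = t * V * V * ((1 - θ) * ∑ k ∈ Finset.range N, θ ^ k) := by
          rw [hwθ, ← Finset.mul_sum, ← Finset.sum_mul]
          ring
      _ ≤ t * V * V * 1 := mul_le_mul_of_nonneg_left hgeo (by positivity)
      _ = _ := by ring
  unfold m1
  rw [div_mul_eq_mul_div, div_le_iff₀ hV]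
  exact hfin

end Pool.Agent.H73.Lp
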