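import Pool.Agent.H73.Lp.LPF

/-!
# Poincaré inequality from approximation of a convex body by scaled bodies
-/

set_option autoImplicit false

open MeasureTheory Measure Set Filter Topology
open scoped Pointwise

namespace Pool.Agent.H73.Lp

open Pool.Agent.H84 Pool.Agent.H84.Sym

universe u
variable {E : Type u} [NormedAddCommGroup E] [InnerProductSpace ℝ E]
    [FiniteDimensional ℝ E] [MeasurableSpace E] [BorelSpace E]

theorem sandwich_pc {K : Set E} (hKo : IsOpen K) (hKc : Convex ℝ K) (h0K : (0:E) ∈ K)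
    {R : ℝ} (hKR : K ⊆ Metric.closedBall 0 R) {c : ℝ}
    (H : ∀ δ : ℝ, 0 < δ → δ < 1 → ∃ K' : Set E, MeasurableSet K' ∧ (1 - δ) • K ⊆ K' ∧
      K' ⊆ (1 + δ) • K ∧ ∀ s : ℝ, 0 < s → (∀ w : E, ∫ x in K', (inner ℝ w x) ^ 2 ≤
        s ^ 2 * ‖w‖ ^ 2 * volume.real K') → PC K' (c * s))
    {s : ℝ} (hs : 0 < s)
    (hcov : ∀ w : E, ∫ x in K, (inner ℝ w x) ^ 2 ≤ s ^ 2 * ‖w‖ ^ 2 * volume.real K) :
    PC K (c * s) := by
  have hR0 : 0 ≤ R := by
    have := hKR h0K
    simpa using this
  have hKlt : volume K < ⊤ := (measure_mono hKR).trans_lt measure_closedBall_lt_top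
  set d := Module.finrank ℝ E with hd
  set V := volume.real K with hV
  have hV0 : 0 < V := ENNReal.toReal_pos (hKo.measure_pos volume ⟨0, h0K⟩).ne' hKlt.ne
  -- the approximating bodies
  set δn : ℕ → ℝ := fun n => 1 / ((n:ℝ) + 2) with hδn
  have hδn0 : ∀ n, 0 < δn n := fun n => by simp only [hδn]; positivity
  have hδn1 : ∀ n, δn n ≤ 1 / 2 := fun n => by
    simp only [hδn]
    refine one_div_le_one_div_of_le (by norm_num) ?_
    linarith [(Nat.cast_nonneg n : (0:ℝ) ≤ n)]
  have hδlim : Tendsto δn atTop (𝓝 0) := by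
    have := (tendsto_one_div_add_atTop_nhds_zero_nat (𝕜 := ℝ)).comp (tendsto_add_atTop_nat 1)
    refine this.congr fun n => ?_
    simp only [Function.comp_apply, hδn]
    push_cast
    ring_nf
  choose Kn hnm hsub1 hsub2 hP using fun n =>
    H (δn n) (hδn0 n) (by linarith [hδn1 n] : δn n < 1)
  have hballs : ∀ {ρ : ℝ}, 0 < ρ → ρ ≤ 2 → ρ • K ⊆ Metric.closedBall 0 (2 * R) := by
    intro ρ hρ hρ2 x hx
    obtain ⟨y, hy, rfl⟩ := hx
    have hy' : ‖y‖ ≤ R := by simpa using hKR hy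
    simp only [mem_closedBall_zero_iff, norm_smul, Real.norm_of_nonneg hρ.le]
    nlinarith [norm_nonneg y]
  have hnR : ∀ n, Kn n ⊆ Metric.closedBall 0 (2 * R) := fun n =>
    (hsub2 n).trans (hballs (by linarith [hδn0 n]) (by linarith [hδn1 n]))
  have hnlt : ∀ n, volume (Kn n) < ⊤ := fun n =>
    (measure_mono (hnR n)).trans_lt measure_closedBall_lt_top
  -- volumes
  have hvol : ∀ n, (1 - δn n) ^ d * V ≤ volume.real (Kn n) := by
    intro n
    have h1 : volume.real ((1 - δn n) • K) = (1 - δn n) ^ d * V := by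
      rw [Measure.real, addHaar_smul, ENNReal.toReal_mul, ENNReal.toReal_ofReal (abs_nonneg _),
        abs_of_nonneg (pow_nonneg (by linarith [hδn1 n]) _)]
      rfl
    rw [← h1]
    exact measureReal_mono (hsub1 n) (hnlt n).ne
  -- second moments
  set sn : ℕ → ℝ := fun n => s * Real.sqrt ((1 + δn n) ^ (d + 2) / (1 - δn n) ^ d) with hsn
  have hcovn : ∀ n, ∀ w : E, ∫ x in Kn n, (inner ℝ w x) ^ 2 ≤
      (sn n) ^ 2 * ‖w‖ ^ 2 * volume.real (Kn n) := by
    intro n w
    have hp1 : (0:ℝ) < 1 - δn n := by linarith [hδn1 n]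
    have hp2 : (0:ℝ) < 1 + δn n := by linarith [hδn0 n]
    have h1 : ∫ x in Kn n, (inner ℝ w x : ℝ) ^ 2 ≤ ∫ x in (1 + δn n) • K, (inner ℝ w x : ℝ) ^ 2 := by
      refine setIntegral_mono_set ?_ (Eventually.of_forall fun x => sq_nonneg _)
        (Eventually.of_forall (hsub2 n))
      have hc : IntegrableOn (fun x : E => (inner ℝ w x : ℝ) ^ 2) (Metric.closedBall 0 (2 * R)) :=
        (Continuous.continuousOn (by fun_prop)).integrableOn_compact
          (isCompact_closedBall (0:E) (2 * R))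
      exact hc.mono_set (hballs hp2 (by linarith [hδn1 n]))
    rw [scaled_moment hp2 K w] at h1
    have hw : (sn n) ^ 2 = s ^ 2 * ((1 + δn n) ^ (d + 2) / (1 - δn n) ^ d) := by
      simp only [hsn]
      rw [mul_pow, Real.sq_sqrt (by positivity)]
    calc ∫ x in Kn n, (inner ℝ w x : ℝ) ^ 2
        ≤ (1 + δn n) ^ (d + 2) * ∫ x in K, (inner ℝ w x : ℝ) ^ 2 := h1
      _ ≤ (1 + δn n) ^ (d + 2) * (s ^ 2 * ‖w‖ ^ 2 * V) := by
          have := hcov w
          gcongr
      _ = (sn n) ^ 2 * ‖w‖ ^ 2 * ((1 - δn n) ^ d * V) := by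
          rw [hw]
          field_simp
      _ ≤ (sn n) ^ 2 * ‖w‖ ^ 2 * volume.real (Kn n) := by
          have := hvol n
          gcongr
  have hsn0 : ∀ n, 0 < sn n := fun n => by
    have hp1 : (0:ℝ) < 1 - δn n := by linarith [hδn1 n]
    have hp2 : (0:ℝ) < 1 + δn n := by linarith [hδn0 n]
    simp only [hsn]
    positivity
  have hPC : ∀ n, PC (Kn n) (c * sn n) := fun n => hP n (sn n) (hsn0 n) (hcovn n)
  have hlimΛ : Tendsto (fun n => c * sn n) atTop (𝓝 (c * s)) := by
    refine Tendsto.const_mul _ ?_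
    have h1 : Tendsto (fun n => (1 + δn n) ^ (d + 2) / (1 - δn n) ^ d) atTop (𝓝 (1 / 1)) := by
      refine Tendsto.div ?_ ?_ one_ne_zero
      · have h4 : Tendsto (fun n => (1:ℝ) + δn n) atTop (𝓝 (1 + 0)) := tendsto_const_nhds.add hδlim
        simpa using h4.pow (d + 2)
      · have h4 : Tendsto (fun n => (1:ℝ) - δn n) atTop (𝓝 (1 - 0)) := tendsto_const_nhds.sub hδlim
        simpa using h4.pow d
    have h2 := (Real.continuous_sqrt.tendsto _).comp h1
    have h3 := h2.const_mul s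
    simpa [hsn, Function.comp_def] using h3
  have hKsub : K ⊆ Metric.closedBall 0 (2 * R) :=
    hKR.trans (Metric.closedBall_subset_closedBall (by linarith))
  refine pc_limit hKo.measurableSet hKsub hnm hnR ?_ hlimΛ hPC
  have hfr : volume (frontier K) = 0 := hKc.addHaar_frontier volume
  have hae : ∀ᵐ x ∂(volume : Measure E), x ∉ frontier K := by
    rw [ae_iff]
    simpa using hfr
  filter_upwards [hae] with x hx
  by_cases hxK : x ∈ K
  · -- inside
    have hcont : Tendsto (fun n => (1 - δn n)⁻¹ • x) atTop (𝓝 x) := by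
      have h4 : Tendsto (fun n => (1:ℝ) - δn n) atTop (𝓝 (1 - 0)) := tendsto_const_nhds.sub hδlim
      rw [sub_zero] at h4
      have h5 := (h4.inv₀ one_ne_zero).smul (tendsto_const_nhds (x := x))
      simpa using h5
    have : ∀ᶠ n in atTop, (1 - δn n)⁻¹ • x ∈ K := hcont.eventually (hKo.mem_nhds hxK)
    filter_upwards [this] with n hn
    refine iff_of_true (hsub1 n ?_) hxK
    rw [mem_smul_set_iff_inv_smul_mem₀ (by linarith [hδn1 n] : (1 - δn n) ≠ 0)]
    exact hn
  · have hxc : x ∉ closure K := by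
      intro h
      apply hx
      rw [hKo.frontier_eq]
      exact ⟨h, hxK⟩
    have hcont : Tendsto (fun n => (1 + δn n)⁻¹ • x) atTop (𝓝 x) := by
      have h4 : Tendsto (fun n => (1:ℝ) + δn n) atTop (𝓝 (1 + 0)) := tendsto_const_nhds.add hδlim
      rw [add_zero] at h4
      have h5 := (h4.inv₀ one_ne_zero).smul (tendsto_const_nhds (x := x))
      simpa using h5
    have : ∀ᶠ n in atTop, (1 + δn n)⁻¹ • x ∈ (closure K)ᶜ :=
      hcont.eventually (isClosed_closure.isOpen_compl.mem_nhds hxc)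
    filter_upwards [this] with n hn
    refine iff_of_false (fun hxn => hn (subset_closure ?_)) hxK
    have := hsub2 n hxn
    rwa [mem_smul_set_iff_inv_smul_mem₀ (by linarith [hδn0 n] : (1 + δn n) ≠ 0)] at this

end Pool.Agent.H73.Lp
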